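import Mathlib

set_option autoImplicit false

namespace Pool.Agent.H28.Steiner

/-- `B` is (the set of blocks of) a Steiner system with point set `V` and parameters `q`, `r`: every
block has `q` points and every `r`-element set of points lies in exactly one block. -/
def IsSteinerSystem {V : Type} (q r : ℕ) (B : Set (Finset V)) : Prop :=
  (∀ b ∈ B, b.card = q) ∧ ∀ t : Finset V, t.card = r → ∃! b, b ∈ B ∧ t ⊆ b

/-- There is a Steiner system `S(n, q, r)`. -/
def SteinerSystemExists (n q r : ℕ) : Prop :=
  ∃ B : Set (Finset (Fin n)), IsSteinerSystem q r B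

end Pool.Agent.H28.Steiner
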