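import Mathlib
import Pool.Agent.H28.Steiner.Defs

set_option autoImplicit false

namespace Pool.Agent.H28.Steiner

open Finset

/-- Counting lemma: a list of `n(n-1)/(k(k-1))` sets of size at most `k` which covers all pairs is a
Steiner system. -/
theorem steiner_of_cover {n k : ℕ} (hk : 2 ≤ k) (L : List (Finset (Fin n)))
    (hcard : ∀ b ∈ L, b.card ≤ k) (hlen : L.length * (k * (k - 1)) = n * (n - 1))
    (hcov : ∀ a c : Fin n, a ≠ c → ∃ b ∈ L, a ∈ b ∧ c ∈ b) :
    IsSteinerSystem k 2 {b | b ∈ L} := by
  classical
  -- number of blocks through an ordered pair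
  obtain ⟨N, hN⟩ : ∃ N : Fin n × Fin n → ℕ, ∀ p, N p =
      ∑ i : Fin L.length, if p ∈ (L.get i).offDiag then 1 else 0 := ⟨_, fun _ => rfl⟩
  have hN1 : ∀ p ∈ (univ : Finset (Fin n)).offDiag, 1 ≤ N p := by
    intro p hp
    rw [mem_offDiag] at hp
    obtain ⟨b, hb, h1, h2⟩ := hcov p.1 p.2 hp.2.2
    obtain ⟨i, hi⟩ := List.get_of_mem hb
    rw [hN]
    refine le_trans ?_ (single_le_sum (f := fun i : Fin L.length =>
      if p ∈ (L.get i).offDiag then 1 else 0) (fun _ _ => Nat.zero_le _) (mem_univ i))
    rw [if_pos]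
    rw [mem_offDiag, hi]
    exact ⟨h1, h2, hp.2.2⟩
  have hsum : ∑ p ∈ (univ : Finset (Fin n)).offDiag, N p =
      ∑ i : Fin L.length, (L.get i).offDiag.card := by
    simp only [hN]
    rw [sum_comm]
    apply sum_congr rfl
    intro i _
    rw [← sum_filter, sum_const, smul_eq_mul, mul_one]
    congr 1
    ext p
    simp only [mem_filter, mem_offDiag, mem_univ, true_and]
    exact ⟨fun h => h.2, fun h => ⟨h.2.2, h⟩⟩
  have hoff : ∀ i : Fin L.length, (L.get i).offDiag.card ≤ k * (k - 1) := by
    intro i
    have h1 : (L.get i).card ≤ k := hcard _ (List.get_mem _ _)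
    rw [offDiag_card]
    calc (L.get i).card * (L.get i).card - (L.get i).card
        = (L.get i).card * ((L.get i).card - 1) := by rw [Nat.mul_sub, mul_one]
      _ ≤ k * (k - 1) := Nat.mul_le_mul h1 (Nat.sub_le_sub_right h1 1)
  have htot : ∑ i : Fin L.length, k * (k - 1) = n * (n - 1) := by
    rw [sum_const, card_univ, Fintype.card_fin, smul_eq_mul, hlen]
  have hpairs : (univ : Finset (Fin n)).offDiag.card = n * (n - 1) := by
    rw [offDiag_card, card_univ, Fintype.card_fin, Nat.mul_sub, mul_one]
  have hge : n * (n - 1) ≤ ∑ p ∈ (univ : Finset (Fin n)).offDiag, N p := by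
    rw [← hpairs, card_eq_sum_ones]
    exact sum_le_sum hN1
  have hle : ∑ i : Fin L.length, (L.get i).offDiag.card ≤ n * (n - 1) := by
    rw [← htot]
    exact sum_le_sum (fun i _ => hoff i)
  have hNeq : ∀ p ∈ (univ : Finset (Fin n)).offDiag, N p = 1 := by
    have h1 : ∑ p ∈ (univ : Finset (Fin n)).offDiag, 1 =
        ∑ p ∈ (univ : Finset (Fin n)).offDiag, N p := by
      rw [← card_eq_sum_ones, hpairs]
      omega
    intro p hp
    exact ((sum_eq_sum_iff_of_le hN1).1 h1 p hp).symm
  have hoffeq : ∀ i : Fin L.length, (L.get i).offDiag.card = k * (k - 1) := by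
    have h1 : ∑ i : Fin L.length, (L.get i).offDiag.card = ∑ i : Fin L.length, k * (k - 1) := by
      omega
    intro i
    exact (sum_eq_sum_iff_of_le (fun i _ => hoff i)).1 h1 i (mem_univ i)
  constructor
  · intro b hb
    obtain ⟨i, hi⟩ := List.get_of_mem hb
    have h1 := hoffeq i
    rw [hi, offDiag_card] at h1
    have h2 : b.card * (b.card - 1) = k * (k - 1) := by
      rw [Nat.mul_sub, mul_one]; exact h1
    have h3 : b.card ≤ k := hcard b hb
    by_contra hne
    have h4 : b.card < k := lt_of_le_of_ne h3 hne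
    have h5 : b.card * (b.card - 1) < k * (k - 1) := by
      apply Nat.mul_lt_mul_of_lt_of_le h4 (Nat.sub_le_sub_right h3 1)
      omega
    omega
  · intro t ht
    obtain ⟨a, c, hac, rfl⟩ := card_eq_two.1 ht
    obtain ⟨b, hb, h1, h2⟩ := hcov a c hac
    refine ⟨b, ⟨hb, ?_⟩, ?_⟩
    · intro x hx
      rw [mem_insert, mem_singleton] at hx
      rcases hx with rfl | rfl
      · exact h1
      · exact h2
    · rintro b' ⟨hb', hsub⟩
      by_contra hne
      obtain ⟨i, hi⟩ := List.get_of_mem hb
      obtain ⟨j, hj⟩ := List.get_of_mem hb'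
      have hij : i ≠ j := by
        rintro rfl
        exact hne (hj.symm.trans hi)
      have hp : (a, c) ∈ (univ : Finset (Fin n)).offDiag := by
        rw [mem_offDiag]; exact ⟨mem_univ _, mem_univ _, hac⟩
      have h3 := hNeq _ hp
      rw [hN] at h3
      have h4 : ∑ x ∈ ({i, j} : Finset (Fin L.length)),
          (if (a, c) ∈ (L.get x).offDiag then 1 else 0) ≤
          ∑ x : Fin L.length, (if (a, c) ∈ (L.get x).offDiag then 1 else 0) :=
        sum_le_sum_of_subset_of_nonneg (subset_univ _) (fun _ _ _ => Nat.zero_le _)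
      rw [sum_pair hij, if_pos, if_pos] at h4
      · omega
      · rw [mem_offDiag, hj]
        exact ⟨hsub (mem_insert_self _ _), hsub (mem_insert_of_mem (mem_singleton_self _)), hac⟩
      · rw [mem_offDiag, hi]
        exact ⟨h1, h2, hac⟩

/-- binary trees with numbers at the leaves -/
inductive Tree where
  | leaf (c : ℕ) : Tree
  | node (l r : Tree) : Tree

/-- lookup -/
noncomputable def Tree.get (t : Tree) : ℕ → ℕ :=
  Tree.rec (fun c _ => c) (fun _ _ fl fr i =>
    cond (Nat.beq (Nat.mod i 2) 0) (fl (Nat.div i 2)) (fr (Nat.div i 2))) t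

/-- number of leaves -/
noncomputable def Tree.size (t : Tree) : ℕ :=
  Tree.rec (fun _ => 1) (fun _ _ a b => Nat.add a b) t

/-- list of leaves -/
def Tree.leaves : Tree → List ℕ
  | .leaf c => [c]
  | .node l r => l.leaves ++ r.leaves

lemma Tree.size_eq (t : Tree) : t.size = t.leaves.length := by
  induction t with
  | leaf c => rfl
  | node l r hl hr =>
    change Nat.add l.size r.size = (l.leaves ++ r.leaves).length
    rw [List.length_append, ← hl, ← hr]
    rfl

lemma Tree.get_mem (t : Tree) : ∀ i, t.get i ∈ t.leaves := by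
  induction t with
  | leaf c => intro i; exact List.mem_singleton.2 rfl
  | node l r hl hr =>
    intro i
    change cond (Nat.beq (Nat.mod i 2) 0) (l.get (Nat.div i 2)) (r.get (Nat.div i 2)) ∈
      l.leaves ++ r.leaves
    rw [List.mem_append]
    cases Nat.beq (Nat.mod i 2) 0
    · right; exact hr _
    · left; exact hl _

/-- bit mask of the set of the `k` base-4096 digits of `c` -/
noncomputable def mask (k : ℕ) : ℕ → ℕ :=
  Nat.rec (fun _ => 0) (fun _ ih c =>
    Nat.lor (Nat.shiftLeft 1 (Nat.mod c 4096)) (ih (Nat.shiftRight c 12))) k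

lemma mask_succ (k c : ℕ) : mask (k + 1) c =
    (1 <<< (c % 4096)) ||| mask k (c >>> 12) := rfl

/-- the set with the given code -/
noncomputable def toSet (n k c : ℕ) : Finset (Fin n) :=
  univ.filter (fun x => (mask k c).testBit x = true)

lemma card_toSet_le (n : ℕ) : ∀ k c, (toSet n k c).card ≤ k := by
  intro k
  induction k with
  | zero =>
    intro c
    have : toSet n 0 c = ∅ := by
      unfold toSet
      rw [filter_eq_empty_iff]
      intro x _
      change ¬ (Nat.testBit 0 x = true)
      simp
    rw [this]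
    simp
  | succ k ih =>
    intro c
    by_cases hc : c % 4096 < n
    · have h1 : toSet n (k + 1) c ⊆ insert ⟨c % 4096, hc⟩ (toSet n k (c >>> 12)) := by
        intro x hx
        unfold toSet at hx
        rw [mem_filter, mask_succ, Nat.testBit_or, Bool.or_eq_true] at hx
        rw [mem_insert]
        rcases hx.2 with h | h
        · left
          rw [Nat.one_shiftLeft, Nat.testBit_two_pow] at h
          apply Fin.ext
          exact (of_decide_eq_true h).symm
        · right
          unfold toSet
          rw [mem_filter]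
          exact ⟨mem_univ _, h⟩
      exact (card_le_card h1).trans ((card_insert_le _ _).trans (Nat.succ_le_succ (ih _)))
    · have h1 : toSet n (k + 1) c ⊆ toSet n k (c >>> 12) := by
        intro x hx
        unfold toSet at hx
        rw [mem_filter, mask_succ, Nat.testBit_or, Bool.or_eq_true] at hx
        rcases hx.2 with h | h
        · rw [Nat.one_shiftLeft, Nat.testBit_two_pow] at h
          exact absurd (of_decide_eq_true h ▸ x.2) hc
        · unfold toSet
          rw [mem_filter]
          exact ⟨mem_univ _, h⟩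
      exact (card_le_card h1).trans ((ih _).trans (Nat.le_succ _))

/-- `m` if the bit `a` of `m` is set, else `0` -/
def contrib (a m : ℕ) : ℕ := Nat.mul (Nat.mod (Nat.shiftRight m a) 2) m

lemma contrib_testBit (a m c : ℕ) (h : (contrib a m).testBit c = true) :
    m.testBit a = true ∧ m.testBit c = true := by
  have h0 : contrib a m = ((m >>> a) % 2) * m := rfl
  rcases Nat.mod_two_eq_zero_or_one (m >>> a) with h1 | h1
  · rw [h0, h1, zero_mul, Nat.zero_testBit] at h
    exact absurd h (by simp)
  · rw [h0, h1, one_mul] at h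
    refine ⟨?_, h⟩
    rw [Nat.testBit, Nat.one_and_eq_mod_two, h1]
    rfl

/-- union of the blocks with the listed indices -/
noncomputable def orRow (T : Tree) (k a : ℕ) (r : ℕ) : ℕ → ℕ :=
  Nat.rec (fun _ => 0) (fun _ ih d =>
    Nat.lor (contrib a (mask k (T.get (Nat.mod d 65536)))) (ih (Nat.shiftRight d 16))) r

lemma orRow_testBit (T : Tree) (k a c : ℕ) : ∀ r d, (orRow T k a r d).testBit c = true →
    ∃ i, (mask k (T.get i)).testBit a = true ∧ (mask k (T.get i)).testBit c = true := by
  intro r
  induction r with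
  | zero =>
    intro d h
    change Nat.testBit 0 c = true at h
    rw [Nat.zero_testBit] at h
    exact absurd h (by simp)
  | succ r ih =>
    intro d h
    have h0 : orRow T k a (r + 1) d = (contrib a (mask k (T.get (d % 65536)))) |||
      orRow T k a r (d >>> 16) := rfl
    rw [h0, Nat.testBit_or, Bool.or_eq_true] at h
    rcases h with h | h
    · exact ⟨_, contrib_testBit _ _ _ h⟩
    · exact ih _ h

/-- check all rows -/
noncomputable def rowsOK (T : Tree) (k full r : ℕ) (rows : List ℕ) : ℕ → Bool :=
  List.rec (fun _ => true) (fun d _ ih a =>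
    and (Nat.beq (orRow T k a r d) full) (ih (Nat.succ a))) rows

lemma rowsOK_spec (T : Tree) (k full r : ℕ) : ∀ (rows : List ℕ) (a : ℕ),
    rowsOK T k full r rows a = true → ∀ j (hj : j < rows.length),
      orRow T k (a + j) r rows[j] = full := by
  intro rows
  induction rows with
  | nil => intro a _ j hj; exact absurd hj (by simp)
  | cons d rows ih =>
    intro a h j hj
    have h0 : rowsOK T k full r (d :: rows) a =
      (Nat.beq (orRow T k a r d) full && rowsOK T k full r rows (a + 1)) := rfl
    rw [h0, Bool.and_eq_true] at h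
    cases j with
    | zero => exact Nat.eq_of_beq_eq_true h.1
    | succ j =>
      have h1 := ih (a + 1) h.2 j (by simpa using hj)
      rw [List.getElem_cons_succ, ← h1]
      congr 1
      ring

/-- number of rows -/
noncomputable def len (rows : List ℕ) : ℕ := List.rec 0 (fun _ _ ih => Nat.succ ih) rows

lemma len_eq (rows : List ℕ) : len rows = rows.length := by
  induction rows with
  | nil => rfl
  | cons d rows ih =>
    change Nat.succ (len rows) = _
    rw [ih]; rfl

/-- the complete check -/
noncomputable def check (n k r : ℕ) (T : Tree) (rows : List ℕ) : Bool :=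
  and (Nat.beq (Nat.mul T.size (Nat.mul k (Nat.sub k 1))) (Nat.mul n (Nat.sub n 1)))
    (and (Nat.beq (len rows) n)
      (rowsOK T k (Nat.sub (Nat.pow 2 n) 1) r rows 0))

theorem exists_of_check (n k r : ℕ) (hk : 2 ≤ k) (T : Tree) (rows : List ℕ)
    (h : check n k r T rows = true) : SteinerSystemExists n k 2 := by
  unfold check at h
  rw [Bool.and_eq_true, Bool.and_eq_true] at h
  obtain ⟨h1, h2, h3⟩ := h
  have h1' := Nat.eq_of_beq_eq_true h1
  have h2' := Nat.eq_of_beq_eq_true h2
  rw [len_eq] at h2'
  refine ⟨_, steiner_of_cover hk (T.leaves.map (toSet n k)) ?_ ?_ ?_⟩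
  · intro b hb
    obtain ⟨c, _, rfl⟩ := List.mem_map.1 hb
    exact card_toSet_le n k c
  · rw [List.length_map, ← Tree.size_eq]
    exact h1'
  · intro a c _
    have h4 := rowsOK_spec T k _ r rows 0 h3 a (by rw [h2']; exact a.2)
    have h5 : (orRow T k (0 + a) r (rows[(a : ℕ)]'(by rw [h2']; exact a.2))).testBit c = true := by
      rw [h4]
      change (2 ^ n - 1).testBit c = true
      rw [Nat.testBit_two_pow_sub_one]
      exact decide_eq_true c.2
    obtain ⟨i, h6, h7⟩ := orRow_testBit T k (0 + a) c r _ h5
    rw [zero_add] at h6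
    refine ⟨toSet n k (T.get i), List.mem_map.2 ⟨_, T.get_mem i, rfl⟩, ?_, ?_⟩
    · unfold toSet; rw [mem_filter]; exact ⟨mem_univ _, h6⟩
    · unfold toSet; rw [mem_filter]; exact ⟨mem_univ _, h7⟩

end Pool.Agent.H28.Steiner
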