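import Mathlib
import Pool.Agent.H28.Steiner.Check

set_option autoImplicit false

namespace Pool.Agent.H28.Steiner

open Finset

/-- Transport of the counting lemma to an arbitrary finite point set. -/
theorem exists_of_cover {P : Type} [Fintype P] [DecidableEq P] {n k : ℕ}
    (hP : Fintype.card P = n) (hk : 2 ≤ k) (L : List (Finset P))
    (hcard : ∀ b ∈ L, b.card ≤ k) (hlen : L.length * (k * (k - 1)) = n * (n - 1))
    (hcov : ∀ a c : P, a ≠ c → ∃ b ∈ L, a ∈ b ∧ c ∈ b) : SteinerSystemExists n k 2 := by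
  have e : P ≃ Fin n := Fintype.equivFinOfCardEq hP
  refine ⟨_, steiner_of_cover hk (L.map (fun b => b.map e.toEmbedding)) ?_ ?_ ?_⟩
  · intro b hb
    obtain ⟨c, hc, rfl⟩ := List.mem_map.1 hb
    rw [card_map]
    exact hcard c hc
  · rw [List.length_map]
    exact hlen
  · intro a c hac
    obtain ⟨b, hb, h1, h2⟩ := hcov (e.symm a) (e.symm c) (fun h => hac (e.symm.injective h))
    refine ⟨b.map e.toEmbedding, List.mem_map.2 ⟨b, hb, rfl⟩, ?_, ?_⟩
    · rw [mem_map]; exact ⟨_, h1, e.apply_symm_apply a⟩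
    · rw [mem_map]; exact ⟨_, h2, e.apply_symm_apply c⟩

section abstract

variable {G : Type} [AddCommGroup G] [Fintype G] [DecidableEq G]

/-- translate of a set -/
def tr (B : Finset G) (t : G) : Finset G := B.image (fun x => x - t)

lemma mem_tr (B : Finset G) (t x : G) : x ∈ tr B t ↔ x + t ∈ B := by
  unfold tr
  rw [mem_image]
  constructor
  · rintro ⟨y, hy, rfl⟩
    rwa [sub_add_cancel]
  · intro h
    exact ⟨x + t, h, by abel⟩

/-- Difference families over an abelian group, with an optional subgroup `D` of order `k`. -/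
theorem steiner_of_df {n k : ℕ} (hn : Fintype.card G = n) (hk : 2 ≤ k)
    (base : List (Finset G)) (D : Finset G) (T : List G)
    (hb : ∀ b ∈ base, b.card ≤ k) (hD : D.card ≤ k)
    (hlen : (base.length * n + T.length) * (k * (k - 1)) = n * (n - 1))
    (hDD : ∀ a ∈ D, ∀ b ∈ D, a - b ∈ D)
    (hT : D.Nonempty → ∀ x : G, ∃ t ∈ T, x + t ∈ D)
    (hcov : ∀ d : G, d ≠ 0 → d ∈ D ∨ ∃ b ∈ base, ∃ x ∈ b, ∃ y ∈ b, x - y = d) :
    SteinerSystemExists n k 2 := by
  refine exists_of_cover hn hk
    ((base.flatMap (fun b => (univ : Finset G).toList.map (fun t => tr b t))) ++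
      T.map (fun t => tr D t)) ?_ ?_ ?_
  · intro b hb'
    rw [List.mem_append] at hb'
    rcases hb' with h | h
    · obtain ⟨c, hc, h⟩ := List.mem_flatMap.1 h
      obtain ⟨t, _, rfl⟩ := List.mem_map.1 h
      exact card_image_le.trans (hb c hc)
    · obtain ⟨t, _, rfl⟩ := List.mem_map.1 h
      exact card_image_le.trans hD
  · rw [List.length_append, List.length_map, List.length_flatMap]
    simp only [List.length_map, length_toList, card_univ, hn]
    rw [List.map_const', List.sum_replicate, smul_eq_mul]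
    exact hlen
  · intro a c hac
    have hd : a - c ≠ 0 := sub_ne_zero.2 hac
    rcases hcov _ hd with h | ⟨b, hb', x, hx, y, hy, hxy⟩
    · have hne : D.Nonempty := ⟨_, h⟩
      obtain ⟨t, ht, h2⟩ := hT hne a
      refine ⟨tr D t, List.mem_append_right _ (List.mem_map.2 ⟨t, ht, rfl⟩), ?_, ?_⟩
      · rw [mem_tr]; exact h2
      · rw [mem_tr]
        have := hDD _ h2 _ h
        have e : a + t - (a - c) = c + t := by abel
        rwa [e] at this
    · refine ⟨tr b (x - a), List.mem_append_left _ (List.mem_flatMap.2 ⟨b, hb',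
        List.mem_map.2 ⟨x - a, mem_toList.2 (mem_univ _), rfl⟩⟩), ?_, ?_⟩
      · rw [mem_tr]
        have e : a + (x - a) = x := by abel
        rwa [e]
      · rw [mem_tr]
        have e : c + (x - a) = y := by
          have : x - a = y - c := by
            rw [sub_eq_sub_iff_sub_eq_sub]; exact hxy
          rw [this]; abel
        rwa [e]

/-- The same with one additional fixed point, which is joined to the cosets of a subgroup `D` of
order `k - 1`. -/
theorem steiner_of_rot {n k : ℕ} (hn : Fintype.card G = n) (hk : 2 ≤ k)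
    (base : List (Finset G)) (D : Finset G) (T : List G)
    (hb : ∀ b ∈ base, b.card ≤ k) (hD : D.card + 1 ≤ k)
    (hlen : (base.length * n + T.length) * (k * (k - 1)) = (n + 1) * n)
    (hDD : ∀ a ∈ D, ∀ b ∈ D, a - b ∈ D)
    (hT : ∀ x : G, ∃ t ∈ T, x + t ∈ D)
    (hcov : ∀ d : G, d ≠ 0 → d ∈ D ∨ ∃ b ∈ base, ∃ x ∈ b, ∃ y ∈ b, x - y = d) :
    SteinerSystemExists (n + 1) k 2 := by
  have hcardP : Fintype.card (Option G) = n + 1 := by rw [Fintype.card_option, hn]
  refine exists_of_cover hcardP hk
    ((base.flatMap (fun b => (univ : Finset G).toList.map (fun t => (tr b t).map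
      Function.Embedding.some))) ++
      T.map (fun t => insert none ((tr D t).map Function.Embedding.some))) ?_ ?_ ?_
  · intro b hb'
    rw [List.mem_append] at hb'
    rcases hb' with h | h
    · obtain ⟨c, hc, h⟩ := List.mem_flatMap.1 h
      obtain ⟨t, _, rfl⟩ := List.mem_map.1 h
      rw [card_map]
      exact card_image_le.trans (hb c hc)
    · obtain ⟨t, _, rfl⟩ := List.mem_map.1 h
      refine (card_insert_le _ _).trans ?_
      rw [card_map]
      exact (Nat.succ_le_succ card_image_le).trans hD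
  · rw [List.length_append, List.length_map, List.length_flatMap]
    simp only [List.length_map, length_toList, card_univ, hn]
    rw [List.map_const', List.sum_replicate, smul_eq_mul]
    exact hlen
  · have key : ∀ a c : G, a ≠ c → ∃ b ∈ ((base.flatMap (fun b => (univ : Finset G).toList.map
        (fun t => (tr b t).map Function.Embedding.some))) ++
        T.map (fun t => insert none ((tr D t).map Function.Embedding.some))),
        some a ∈ b ∧ some c ∈ b := by
      intro a c hac
      have hd : a - c ≠ 0 := sub_ne_zero.2 hac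
      rcases hcov _ hd with h | ⟨b, hb', x, hx, y, hy, hxy⟩
      · obtain ⟨t, ht, h2⟩ := hT a
        refine ⟨_, List.mem_append_right _ (List.mem_map.2 ⟨t, ht, rfl⟩), ?_, ?_⟩
        · apply mem_insert_of_mem
          rw [mem_map]; exact ⟨a, (mem_tr _ _ _).2 h2, rfl⟩
        · apply mem_insert_of_mem
          rw [mem_map]
          refine ⟨c, (mem_tr _ _ _).2 ?_, rfl⟩
          have := hDD _ h2 _ h
          have e : a + t - (a - c) = c + t := by abel
          rwa [e] at this
      · refine ⟨_, List.mem_append_left _ (List.mem_flatMap.2 ⟨b, hb',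
          List.mem_map.2 ⟨x - a, mem_toList.2 (mem_univ _), rfl⟩⟩), ?_, ?_⟩
        · rw [mem_map]
          refine ⟨a, (mem_tr _ _ _).2 ?_, rfl⟩
          have e : a + (x - a) = x := by abel
          rwa [e]
        · rw [mem_map]
          refine ⟨c, (mem_tr _ _ _).2 ?_, rfl⟩
          have e : c + (x - a) = y := by
            have : x - a = y - c := by
              rw [sub_eq_sub_iff_sub_eq_sub]; exact hxy
            rw [this]; abel
          rwa [e]
    have key2 : ∀ a : G, ∃ b ∈ ((base.flatMap (fun b => (univ : Finset G).toList.map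
        (fun t => (tr b t).map Function.Embedding.some))) ++
        T.map (fun t => insert none ((tr D t).map Function.Embedding.some))),
        none ∈ b ∧ some a ∈ b := by
      intro a
      obtain ⟨t, ht, h2⟩ := hT a
      refine ⟨_, List.mem_append_right _ (List.mem_map.2 ⟨t, ht, rfl⟩), mem_insert_self _ _, ?_⟩
      apply mem_insert_of_mem
      rw [mem_map]; exact ⟨a, (mem_tr _ _ _).2 h2, rfl⟩
    intro a c hac
    match a, c, hac with
    | none, none, h => exact absurd rfl h
    | none, some c, _ => exact key2 c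
    | some a, none, _ =>
      obtain ⟨b, h1, h2, h3⟩ := key2 a
      exact ⟨b, h1, h3, h2⟩
    | some a, some c, h => exact key a c (fun e => h (congrArg some e))

end abstract

/-! ### computation -/

/-- the group `Z_a × Z_b × Z_c × Z_d` -/
abbrev G4 (a b c d : ℕ) : Type := ZMod a × ZMod b × ZMod c × ZMod d

/-- the element with the given code -/
def dec (a b c d : ℕ) (x : ℕ) : G4 a b c d :=
  (((x % 4096 : ℕ) : ZMod a), ((x / 4096 % 4096 : ℕ) : ZMod b),
    ((x / 16777216 % 4096 : ℕ) : ZMod c), ((x / 68719476736 : ℕ) : ZMod d))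

/-- difference modulo `n` -/
def sb (n x y : ℕ) : ℕ := Nat.mod (Nat.add x (Nat.sub n (Nat.mod y n))) n

lemma sb_cast (n x y : ℕ) (hn : 0 < n) : ((sb n x y : ℕ) : ZMod n) = (x : ZMod n) - y := by
  have h : sb n x y = (x + (n - y % n)) % n := rfl
  rw [h, ZMod.natCast_mod, Nat.cast_add, Nat.cast_sub (Nat.mod_lt _ hn).le, ZMod.natCast_self,
    ZMod.natCast_mod]
  ring

lemma sb_lt (n x y : ℕ) (hn : 0 < n) : sb n x y < n := Nat.mod_lt _ hn

/-- mixed radix index of a difference -/
def subIdx (a b c d x y : ℕ) : ℕ :=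
  Nat.add (sb a (Nat.mod x 4096) (Nat.mod y 4096)) (Nat.mul a
    (Nat.add (sb b (Nat.mod (Nat.div x 4096) 4096) (Nat.mod (Nat.div y 4096) 4096)) (Nat.mul b
      (Nat.add (sb c (Nat.mod (Nat.div x 16777216) 4096) (Nat.mod (Nat.div y 16777216) 4096))
        (Nat.mul c (sb d (Nat.div x 68719476736) (Nat.div y 68719476736)))))))

/-- mixed radix index of an element -/
def gIdx {a b c d : ℕ} (g : G4 a b c d) : ℕ :=
  g.1.val + a * (g.2.1.val + b * (g.2.2.1.val + c * g.2.2.2.val))

lemma val_cast_of_lt {n x : ℕ} (h : x < n) : ((x : ℕ) : ZMod n).val = x :=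
  ZMod.val_cast_of_lt h

lemma subIdx_eq {a b c d : ℕ} (ha : 0 < a) (hb : 0 < b) (hc : 0 < c) (hd : 0 < d) (x y : ℕ) :
    subIdx a b c d x y = gIdx (dec a b c d x - dec a b c d y) := by
  have h : ∀ n u w : ℕ, 0 < n → sb n u w = ((u : ZMod n) - (w : ZMod n)).val := by
    intro n u w hn
    rw [← sb_cast n u w hn, val_cast_of_lt (sb_lt n u w hn)]
  unfold subIdx
  rw [h a _ _ ha, h b _ _ hb, h c _ _ hc, h d _ _ hd]
  rfl

lemma mixed_inj {a x y p q : ℕ} (hx : x < a) (hy : y < a) (h : x + a * p = y + a * q) :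
    x = y ∧ p = q := by
  have h1 : (x + a * p) % a = (y + a * q) % a := by rw [h]
  rw [Nat.add_mul_mod_self_left, Nat.add_mul_mod_self_left, Nat.mod_eq_of_lt hx,
    Nat.mod_eq_of_lt hy] at h1
  subst h1
  refine ⟨rfl, ?_⟩
  have h2 : a * p = a * q := by omega
  exact Nat.eq_of_mul_eq_mul_left (by omega) h2

lemma gIdx_inj {a b c d : ℕ} (ha : 0 < a) (hb : 0 < b) (hc : 0 < c) (hd : 0 < d)
    {g h : G4 a b c d} (e : gIdx g = gIdx h) : g = h := by
  have : NeZero a := ⟨ha.ne'⟩
  have : NeZero b := ⟨hb.ne'⟩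
  have : NeZero c := ⟨hc.ne'⟩
  have : NeZero d := ⟨hd.ne'⟩
  unfold gIdx at e
  obtain ⟨e1, e⟩ := mixed_inj (ZMod.val_lt _) (ZMod.val_lt _) e
  obtain ⟨e2, e⟩ := mixed_inj (ZMod.val_lt _) (ZMod.val_lt _) e
  obtain ⟨e3, e4⟩ := mixed_inj (ZMod.val_lt _) (ZMod.val_lt _) e
  refine Prod.ext (ZMod.val_injective _ e1) (Prod.ext (ZMod.val_injective _ e2)
    (Prod.ext (ZMod.val_injective _ e3) (ZMod.val_injective _ e4)))

lemma gIdx_lt {a b c d : ℕ} (ha : 0 < a) (hb : 0 < b) (hc : 0 < c) (hd : 0 < d)
    (g : G4 a b c d) : gIdx g < a * (b * (c * d)) := by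
  have : NeZero a := ⟨ha.ne'⟩
  have : NeZero b := ⟨hb.ne'⟩
  have : NeZero c := ⟨hc.ne'⟩
  have : NeZero d := ⟨hd.ne'⟩
  have key : ∀ n m x y : ℕ, x < n → y < m → x + n * y < n * m := by
    intro n m x y hx hy
    calc x + n * y < n + n * y := by omega
      _ = n * (y + 1) := by ring
      _ ≤ n * m := Nat.mul_le_mul_left n hy
  exact key _ _ _ _ (ZMod.val_lt _) (key _ _ _ _ (ZMod.val_lt _) (key _ _ _ _ (ZMod.val_lt _)
    (ZMod.val_lt _)))

/-- bit mask of the values `f y`, `y` in the list -/
noncomputable def rowMask (f : ℕ → ℕ) (B : List ℕ) : ℕ :=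
  List.rec 0 (fun y _ ih => Nat.lor (Nat.shiftLeft 1 (f y)) ih) B

lemma rowMask_testBit (f : ℕ → ℕ) (B : List ℕ) (i : ℕ) (h : (rowMask f B).testBit i = true) :
    ∃ y ∈ B, f y = i := by
  induction B with
  | nil =>
    change Nat.testBit 0 i = true at h
    rw [Nat.zero_testBit] at h
    exact absurd h (by simp)
  | cons y B ih =>
    have h0 : rowMask f (y :: B) = (1 <<< (f y)) ||| rowMask f B := rfl
    rw [h0, Nat.testBit_or, Bool.or_eq_true] at h
    rcases h with h | h
    · rw [Nat.one_shiftLeft, Nat.testBit_two_pow] at h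
      exact ⟨y, List.mem_cons_self, of_decide_eq_true h⟩
    · obtain ⟨z, hz, e⟩ := ih h
      exact ⟨z, List.mem_cons_of_mem _ hz, e⟩

/-- bit mask of the values `f x y`, `x` and `y` in the lists -/
noncomputable def pairMask (f : ℕ → ℕ → ℕ) (A B : List ℕ) : ℕ :=
  List.rec 0 (fun x _ ih => Nat.lor (rowMask (f x) B) ih) A

lemma pairMask_testBit (f : ℕ → ℕ → ℕ) (A B : List ℕ) (i : ℕ)
    (h : (pairMask f A B).testBit i = true) : ∃ x ∈ A, ∃ y ∈ B, f x y = i := by
  induction A with
  | nil =>
    change Nat.testBit 0 i = true at h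
    rw [Nat.zero_testBit] at h
    exact absurd h (by simp)
  | cons x A ih =>
    have h0 : pairMask f (x :: A) B = rowMask (f x) B ||| pairMask f A B := rfl
    rw [h0, Nat.testBit_or, Bool.or_eq_true] at h
    rcases h with h | h
    · obtain ⟨y, hy, e⟩ := rowMask_testBit _ _ _ h
      exact ⟨x, List.mem_cons_self, y, hy, e⟩
    · obtain ⟨z, hz, e⟩ := ih h
      exact ⟨z, List.mem_cons_of_mem _ hz, e⟩

/-- bit mask of all differences inside the blocks -/
noncomputable def allMask (f : ℕ → ℕ → ℕ) (base : List (List ℕ)) : ℕ :=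
  List.rec 0 (fun A _ ih => Nat.lor (pairMask f A A) ih) base

lemma allMask_testBit (f : ℕ → ℕ → ℕ) (base : List (List ℕ)) (i : ℕ)
    (h : (allMask f base).testBit i = true) : ∃ A ∈ base, ∃ x ∈ A, ∃ y ∈ A, f x y = i := by
  induction base with
  | nil =>
    change Nat.testBit 0 i = true at h
    rw [Nat.zero_testBit] at h
    exact absurd h (by simp)
  | cons x A ih =>
    have h0 : allMask f (x :: A) = pairMask f x x ||| allMask f A := rfl
    rw [h0, Nat.testBit_or, Bool.or_eq_true] at h
    rcases h with h | h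
    · obtain ⟨y, hy, e⟩ := pairMask_testBit _ _ _ _ h
      exact ⟨x, List.mem_cons_self, y, hy, e⟩
    · obtain ⟨z, hz, e⟩ := ih h
      exact ⟨z, List.mem_cons_of_mem _ hz, e⟩

/-- length of a list -/
noncomputable def llen {α : Type} (l : List α) : ℕ := List.rec 0 (fun _ _ ih => Nat.succ ih) l

lemma llen_eq {α : Type} (l : List α) : llen l = l.length := by
  induction l with
  | nil => rfl
  | cons d l ih =>
    change Nat.succ (llen l) = _
    rw [ih]; rfl

/-- all lists have length `k` -/
noncomputable def allLen (k : ℕ) (base : List (List ℕ)) : Bool :=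
  List.rec true (fun A _ ih => and (Nat.beq (llen A) k) ih) base

lemma allLen_spec (k : ℕ) (base : List (List ℕ)) (h : allLen k base = true) :
    ∀ A ∈ base, A.length = k := by
  induction base with
  | nil => intro A hA; exact absurd hA (by simp)
  | cons x L ih =>
    have h0 : allLen k (x :: L) = (Nat.beq (llen x) k && allLen k L) := rfl
    rw [h0, Bool.and_eq_true] at h
    intro A hA
    rcases List.mem_cons.1 hA with rfl | hA
    · have := Nat.eq_of_beq_eq_true h.1
      rw [llen_eq] at this
      exact this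
    · exact ih h.2 A hA

/-- common part of the checks -/
noncomputable def coreCheck (a b c d k m : ℕ) (base : List (List ℕ)) (D : List ℕ) : Bool :=
  and (allLen k base) (and (Nat.beq (llen D) m)
    (and (Nat.beq (Nat.lor (allMask (subIdx a b c d) base) (rowMask (fun x => subIdx a b c d x 0) D))
        (Nat.sub (Nat.pow 2 (Nat.mul a (Nat.mul b (Nat.mul c d)))) 1))
      (Nat.beq (Nat.lor (pairMask (subIdx a b c d) D D) (rowMask (fun x => subIdx a b c d x 0) D))
        (rowMask (fun x => subIdx a b c d x 0) D))))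

/-- the translates of `D` cover everything -/
noncomputable def coverCheck (a b c d : ℕ) (D T : List ℕ) : Bool :=
  Nat.beq (pairMask (subIdx a b c d) D T)
    (Nat.sub (Nat.pow 2 (Nat.mul a (Nat.mul b (Nat.mul c d)))) 1)

/-- decoded block -/
def decS (a b c d : ℕ) (A : List ℕ) : Finset (G4 a b c d) := (A.map (dec a b c d)).toFinset

lemma decS_card (a b c d : ℕ) (A : List ℕ) : (decS a b c d A).card ≤ A.length := by
  unfold decS
  exact (List.toFinset_card_le _).trans (by rw [List.length_map])

lemma mem_decS {a b c d : ℕ} {A : List ℕ} {g : G4 a b c d} :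
    g ∈ decS a b c d A ↔ ∃ x ∈ A, dec a b c d x = g := by
  unfold decS
  rw [List.mem_toFinset, List.mem_map]

lemma dec_zero (a b c d : ℕ) : dec a b c d 0 = 0 := by
  unfold dec
  simp only [Nat.zero_mod, Nat.zero_div, Nat.cast_zero]
  rfl

lemma core_spec {a b c d k m : ℕ} (ha : 0 < a) (hb : 0 < b) (hc : 0 < c) (hd : 0 < d)
    (base : List (List ℕ)) (D : List ℕ) (h : coreCheck a b c d k m base D = true) :
    (∀ A ∈ base, A.length = k) ∧ D.length = m ∧
    (∀ g : G4 a b c d, g ∈ decS a b c d D ∨
      ∃ B ∈ base.map (decS a b c d), ∃ x ∈ B, ∃ y ∈ B, x - y = g) ∧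
    (∀ x ∈ decS a b c d D, ∀ y ∈ decS a b c d D, x - y ∈ decS a b c d D) := by
  unfold coreCheck at h
  rw [Bool.and_eq_true, Bool.and_eq_true, Bool.and_eq_true] at h
  obtain ⟨h1, h2, h3, h4⟩ := h
  have h2' := Nat.eq_of_beq_eq_true h2
  rw [llen_eq] at h2'
  have h3' := Nat.eq_of_beq_eq_true h3
  have h4' := Nat.eq_of_beq_eq_true h4
  have hD : ∀ g : G4 a b c d,
      (rowMask (fun x => subIdx a b c d x 0) D).testBit (gIdx g) = true →
      g ∈ decS a b c d D := by
    intro g hg
    obtain ⟨x, hx, e⟩ := rowMask_testBit _ _ _ hg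
    rw [subIdx_eq ha hb hc hd, dec_zero, sub_zero] at e
    exact mem_decS.2 ⟨x, hx, gIdx_inj ha hb hc hd e⟩
  refine ⟨allLen_spec k base h1, h2', ?_, ?_⟩
  · intro g
    have h5 : (Nat.lor (allMask (subIdx a b c d) base)
        (rowMask (fun x => subIdx a b c d x 0) D)).testBit (gIdx g) = true := by
      rw [h3']
      change (2 ^ (a * (b * (c * d))) - 1).testBit (gIdx g) = true
      rw [Nat.testBit_two_pow_sub_one]
      exact decide_eq_true (gIdx_lt ha hb hc hd g)
    change (allMask (subIdx a b c d) base ||| (rowMask (fun x => subIdx a b c d x 0) D)).testBit _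
      = true at h5
    rw [Nat.testBit_or, Bool.or_eq_true] at h5
    rcases h5 with h5 | h5
    · right
      obtain ⟨A, hA, x, hx, y, hy, e⟩ := allMask_testBit _ _ _ h5
      rw [subIdx_eq ha hb hc hd] at e
      exact ⟨_, List.mem_map.2 ⟨A, hA, rfl⟩, _, mem_decS.2 ⟨x, hx, rfl⟩, _,
        mem_decS.2 ⟨y, hy, rfl⟩, gIdx_inj ha hb hc hd e⟩
    · left; exact hD g h5
  · intro gx hgx gy hgy
    obtain ⟨x, hx, rfl⟩ := mem_decS.1 hgx
    obtain ⟨y, hy, rfl⟩ := mem_decS.1 hgy
    apply hD
    rw [← h4', ← subIdx_eq ha hb hc hd]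
    change (pairMask (subIdx a b c d) D D ||| (rowMask (fun x => subIdx a b c d x 0) D)).testBit _
      = true
    rw [Nat.testBit_or, Bool.or_eq_true]
    left
    have mono : ∀ (A : List ℕ) (x : ℕ), x ∈ A → ∀ B : List ℕ, ∀ y ∈ B,
        (pairMask (subIdx a b c d) A B).testBit (subIdx a b c d x y) = true := by
      intro A x hx B y hy
      induction A with
      | nil => exact absurd hx (by simp)
      | cons z A ih =>
        have h0 : pairMask (subIdx a b c d) (z :: A) B =
          rowMask (subIdx a b c d z) B ||| pairMask (subIdx a b c d) A B := rfl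
        rw [h0, Nat.testBit_or, Bool.or_eq_true]
        rcases List.mem_cons.1 hx with rfl | hx
        · left
          clear h0 ih
          induction B with
          | nil => exact absurd hy (by simp)
          | cons w B ih =>
            have h0 : rowMask (subIdx a b c d x) (w :: B) =
              (1 <<< (subIdx a b c d x w)) ||| rowMask (subIdx a b c d x) B := rfl
            rw [h0, Nat.testBit_or, Bool.or_eq_true]
            rcases List.mem_cons.1 hy with rfl | hy
            · left
              rw [Nat.one_shiftLeft, Nat.testBit_two_pow]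
              exact decide_eq_true rfl
            · right; exact ih hy
        · right; exact ih hx
    exact mono D x hx D y hy

lemma cover_spec {a b c d : ℕ} (ha : 0 < a) (hb : 0 < b) (hc : 0 < c) (hd : 0 < d)
    (D T : List ℕ) (h : coverCheck a b c d D T = true) :
    ∀ g : G4 a b c d, ∃ t ∈ T.map (dec a b c d), g + t ∈ decS a b c d D := by
  intro g
  have h3' := Nat.eq_of_beq_eq_true h
  have h5 : (pairMask (subIdx a b c d) D T).testBit (gIdx g) = true := by
    rw [h3']
    change (2 ^ (a * (b * (c * d))) - 1).testBit (gIdx g) = true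
    rw [Nat.testBit_two_pow_sub_one]
    exact decide_eq_true (gIdx_lt ha hb hc hd g)
  obtain ⟨x, hx, t, ht, e⟩ := pairMask_testBit _ _ _ _ h5
  rw [subIdx_eq ha hb hc hd] at e
  have e' := gIdx_inj ha hb hc hd e
  refine ⟨_, List.mem_map.2 ⟨t, ht, rfl⟩, ?_⟩
  rw [← e', sub_add_cancel]
  exact mem_decS.2 ⟨x, hx, rfl⟩

lemma card_G4 (a b c d : ℕ) [NeZero a] [NeZero b] [NeZero c] [NeZero d] :
    Fintype.card (G4 a b c d) = a * (b * (c * d)) := by
  rw [Fintype.card_prod, Fintype.card_prod, Fintype.card_prod, ZMod.card, ZMod.card, ZMod.card,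
    ZMod.card]

/-- Check for a difference family with all orbits full. -/
theorem df_full (a b c d n k : ℕ) (ha : 0 < a) (hb : 0 < b) (hc : 0 < c) (hd : 0 < d) (hk : 2 ≤ k)
    (hn : a * (b * (c * d)) = n) (base : List (List ℕ))
    (hlen : base.length * n * (k * (k - 1)) = n * (n - 1))
    (h : coreCheck a b c d k 0 base [] = true) : SteinerSystemExists n k 2 := by
  have : NeZero a := ⟨ha.ne'⟩
  have : NeZero b := ⟨hb.ne'⟩
  have : NeZero c := ⟨hc.ne'⟩
  have : NeZero d := ⟨hd.ne'⟩
  obtain ⟨h1, _, h3, h4⟩ := core_spec ha hb hc hd base [] h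
  refine steiner_of_df (G := G4 a b c d) ((card_G4 a b c d).trans hn) hk
    (base.map (decS a b c d)) (decS a b c d []) [] ?_ ?_ ?_ h4 ?_ (fun g _ => h3 g)
  · intro B hB
    obtain ⟨A, hA, rfl⟩ := List.mem_map.1 hB
    exact (decS_card a b c d A).trans (h1 A hA).le
  · exact (decS_card a b c d []).trans (Nat.zero_le _)
  · rw [List.length_map]; exact hlen
  · intro hne
    obtain ⟨g, hg⟩ := hne
    obtain ⟨x, hx, _⟩ := mem_decS.1 hg
    exact absurd hx (by simp)

/-- Check for a difference family with one short orbit, from a subgroup of order `k`. -/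
theorem df_short (a b c d n k : ℕ) (ha : 0 < a) (hb : 0 < b) (hc : 0 < c) (hd : 0 < d) (hk : 2 ≤ k)
    (hn : a * (b * (c * d)) = n) (base : List (List ℕ)) (D T : List ℕ)
    (hlen : (base.length * n + T.length) * (k * (k - 1)) = n * (n - 1))
    (h : coreCheck a b c d k k base D = true) (h' : coverCheck a b c d D T = true) :
    SteinerSystemExists n k 2 := by
  have : NeZero a := ⟨ha.ne'⟩
  have : NeZero b := ⟨hb.ne'⟩
  have : NeZero c := ⟨hc.ne'⟩
  have : NeZero d := ⟨hd.ne'⟩
  obtain ⟨h1, h2, h3, h4⟩ := core_spec ha hb hc hd base D h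
  refine steiner_of_df (G := G4 a b c d) ((card_G4 a b c d).trans hn) hk
    (base.map (decS a b c d)) (decS a b c d D) (T.map (dec a b c d)) ?_ ?_ ?_ h4
    (fun _ => cover_spec ha hb hc hd D T h') (fun g _ => h3 g)
  · intro B hB
    obtain ⟨A, hA, rfl⟩ := List.mem_map.1 hB
    exact (decS_card a b c d A).trans (h1 A hA).le
  · exact (decS_card a b c d D).trans h2.le
  · rw [List.length_map, List.length_map]; exact hlen

/-- Check for a 1-rotational difference family. -/
theorem df_rot (a b c d n k : ℕ) (ha : 0 < a) (hb : 0 < b) (hc : 0 < c) (hd : 0 < d) (hk : 2 ≤ k)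
    (hn : a * (b * (c * d)) = n) (base : List (List ℕ)) (D T : List ℕ)
    (hlen : (base.length * n + T.length) * (k * (k - 1)) = (n + 1) * n)
    (h : coreCheck a b c d k (k - 1) base D = true) (h' : coverCheck a b c d D T = true) :
    SteinerSystemExists (n + 1) k 2 := by
  have : NeZero a := ⟨ha.ne'⟩
  have : NeZero b := ⟨hb.ne'⟩
  have : NeZero c := ⟨hc.ne'⟩
  have : NeZero d := ⟨hd.ne'⟩
  obtain ⟨h1, h2, h3, h4⟩ := core_spec ha hb hc hd base D h
  refine steiner_of_rot (G := G4 a b c d) ((card_G4 a b c d).trans hn) hk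
    (base.map (decS a b c d)) (decS a b c d D) (T.map (dec a b c d)) ?_ ?_ ?_ h4
    (cover_spec ha hb hc hd D T h') (fun g _ => h3 g)
  · intro B hB
    obtain ⟨A, hA, rfl⟩ := List.mem_map.1 hB
    exact (decS_card a b c d A).trans (h1 A hA).le
  · have := decS_card a b c d D
    omega
  · rw [List.length_map, List.length_map]; exact hlen

end Pool.Agent.H28.Steiner
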