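import Mathlib
import Pool.Agent.H28.Steiner.Defs

set_option autoImplicit false

namespace Pool.Agent.H28.Steiner

open Finset

/-! ### Pairwise form of Steiner systems -/

lemma isSteiner_of_pairs {V : Type} {k : ℕ} (B : Set (Finset V))
    (h1 : ∀ b ∈ B, b.card = k) (h2 : ∀ p q : V, p ≠ q → ∃! b, b ∈ B ∧ p ∈ b ∧ q ∈ b) :
    IsSteinerSystem k 2 B := by
  classical
  refine ⟨h1, ?_⟩
  intro t ht
  obtain ⟨p, q, hpq, rfl⟩ := card_eq_two.1 ht
  obtain ⟨b, ⟨hb, hp, hq⟩, hu⟩ := h2 p q hpq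
  refine ⟨b, ⟨hb, ?_⟩, ?_⟩
  · intro x hx
    rw [mem_insert, mem_singleton] at hx
    rcases hx with rfl | rfl
    · exact hp
    · exact hq
  · rintro c ⟨hc, hs⟩
    exact hu c ⟨hc, hs (mem_insert_self _ _), hs (mem_insert_of_mem (mem_singleton_self _))⟩

lemma pairs_of_isSteiner {V : Type} {k : ℕ} {B : Set (Finset V)} (h : IsSteinerSystem k 2 B) :
    ∀ p q : V, p ≠ q → ∃! b, b ∈ B ∧ p ∈ b ∧ q ∈ b := by
  classical
  intro p q hpq
  obtain ⟨b, ⟨hb, hs⟩, hu⟩ := h.2 {p, q} (card_pair hpq)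
  refine ⟨b, ⟨hb, hs (mem_insert_self _ _), hs (mem_insert_of_mem (mem_singleton_self _))⟩, ?_⟩
  rintro c ⟨hc, hp, hq⟩
  refine hu c ⟨hc, ?_⟩
  intro x hx
  rw [mem_insert, mem_singleton] at hx
  rcases hx with rfl | rfl
  · exact hp
  · exact hq

lemma exists_of_isSteiner {V : Type} [Fintype V] {n k : ℕ} (hn : Fintype.card V = n)
    {B : Set (Finset V)} (h : IsSteinerSystem k 2 B) : SteinerSystemExists n k 2 := by
  classical
  have e : V ≃ Fin n := Fintype.equivFinOfCardEq hn
  refine ⟨{b | b.map e.symm.toEmbedding ∈ B}, isSteiner_of_pairs _ ?_ ?_⟩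
  · intro b hb
    have := h.1 _ hb
    rwa [card_map] at this
  · intro p q hpq
    obtain ⟨b, ⟨hb, hp, hq⟩, hu⟩ := pairs_of_isSteiner h (e.symm p) (e.symm q)
      (fun h => hpq (e.symm.injective h))
    have hmem : ∀ (c : Finset (Fin n)) (x : Fin n), e.symm x ∈ c.map e.symm.toEmbedding ↔ x ∈ c := by
      intro c x
      exact mem_map' e.symm.toEmbedding
    have hb' : (b.map e.toEmbedding).map e.symm.toEmbedding = b := by
      ext x
      simp
    refine ⟨b.map e.toEmbedding, ⟨?_, ?_, ?_⟩, ?_⟩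
    · change _ ∈ B
      rw [hb']; exact hb
    · rw [← hmem, hb']; exact hp
    · rw [← hmem, hb']; exact hq
    · rintro c ⟨hc, hcp, hcq⟩
      have := hu _ ⟨hc, (hmem _ _).2 hcp, (hmem _ _).2 hcq⟩
      rw [← this]
      ext x
      simp

/-! ### Group divisible designs -/

/-- A group divisible design on `X × Fin w` with blocks of size `k`; the groups are the fibres
over `X`. -/
def GDD (k w : ℕ) (X : Type) : Prop :=
  ∃ B : Set (Finset (X × Fin w)), (∀ b ∈ B, b.card = k) ∧
    (∀ b ∈ B, ∀ p ∈ b, ∀ q ∈ b, p.1 = q.1 → p = q) ∧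
    (∀ p q : X × Fin w, p.1 ≠ q.1 → ∃! b, b ∈ B ∧ p ∈ b ∧ q ∈ b)

theorem GDD.closure {k w : ℕ} {X I : Type} (A : I → Set X)
    (hA : ∀ x y : X, x ≠ y → ∃! i, x ∈ A i ∧ y ∈ A i)
    (hG : ∀ i, GDD k w (A i)) : GDD k w X := by
  classical
  choose B h1 h2 h3 using hG
  let f : ∀ i, (A i × Fin w) ↪ X × Fin w := fun i =>
    ⟨fun p => (p.1.1, p.2), by
      rintro ⟨⟨a, ha⟩, b⟩ ⟨⟨c, hc⟩, d⟩ h
      simp only [Prod.mk.injEq] at h
      obtain ⟨rfl, rfl⟩ := h
      rfl⟩
  have hf : ∀ i (p : A i × Fin w), f i p = (p.1.1, p.2) := fun _ _ => rfl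
  refine ⟨{b | ∃ i, ∃ c ∈ B i, b = c.map (f i)}, ?_, ?_, ?_⟩
  · rintro b ⟨i, c, hc, rfl⟩
    rw [card_map]; exact h1 i c hc
  · rintro b ⟨i, c, hc, rfl⟩ p hp q hq hpq
    rw [mem_map] at hp hq
    obtain ⟨p', hp', rfl⟩ := hp
    obtain ⟨q', hq', rfl⟩ := hq
    rw [hf, hf] at hpq
    rw [h2 i c hc p' hp' q' hq' (Subtype.ext hpq)]
  · rintro ⟨x, a⟩ ⟨y, b⟩ hxy
    obtain ⟨i, ⟨hxi, hyi⟩, hu⟩ := hA x y hxy
    obtain ⟨c, ⟨hc, hp, hq⟩, hcu⟩ := h3 i (⟨x, hxi⟩, a) (⟨y, hyi⟩, b)
      (fun h => hxy (congrArg Subtype.val h))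
    refine ⟨c.map (f i), ⟨⟨i, c, hc, rfl⟩, mem_map.2 ⟨_, hp, rfl⟩, mem_map.2 ⟨_, hq, rfl⟩⟩, ?_⟩
    rintro d ⟨⟨j, e, he, rfl⟩, hdp, hdq⟩
    rw [mem_map] at hdp hdq
    obtain ⟨⟨⟨x', hx'⟩, a'⟩, hp', e1⟩ := hdp
    obtain ⟨⟨⟨y', hy'⟩, b'⟩, hq', e2⟩ := hdq
    rw [hf, Prod.mk.injEq] at e1 e2
    obtain ⟨e1, e1'⟩ := e1
    obtain ⟨e2, e2'⟩ := e2
    dsimp only at e1 e2 e1' e2'
    subst e1 e2 e1' e2'
    have hij : j = i := hu j ⟨hx', hy'⟩
    subst hij
    rw [hcu e ⟨he, hp', hq'⟩]

theorem GDD.congr {k w : ℕ} {X Y : Type} (e : X ≃ Y) (h : GDD k w X) : GDD k w Y := by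
  classical
  obtain ⟨B, h1, h2, h3⟩ := h
  let f : Y × Fin w ≃ X × Fin w := Equiv.prodCongr e.symm (Equiv.refl _)
  have hf : ∀ p, f p = (e.symm p.1, p.2) := fun _ => rfl
  refine ⟨{b | b.map f.toEmbedding ∈ B}, ?_, ?_, ?_⟩
  · intro b hb
    have := h1 _ hb
    rwa [card_map] at this
  · intro b hb p hp q hq hpq
    have hp' : f p ∈ b.map f.toEmbedding := mem_map.2 ⟨p, hp, rfl⟩
    have hq' : f q ∈ b.map f.toEmbedding := mem_map.2 ⟨q, hq, rfl⟩
    exact f.injective (h2 _ hb _ hp' _ hq' (by rw [hf, hf, hpq]))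
  · intro p q hpq
    obtain ⟨b, ⟨hb, hp, hq⟩, hu⟩ := h3 (f p) (f q) (fun h => hpq (e.symm.injective h))
    have hmem : ∀ (c : Finset (Y × Fin w)) (x : Y × Fin w), f x ∈ c.map f.toEmbedding ↔ x ∈ c := by
      intro c x
      exact mem_map' f.toEmbedding
    have hb' : (b.map f.symm.toEmbedding).map f.toEmbedding = b := by
      rw [map_map]
      convert map_refl
      ext x <;> simp
    refine ⟨b.map f.symm.toEmbedding, ⟨?_, ?_, ?_⟩, ?_⟩
    · change _ ∈ B
      rw [hb']; exact hb
    · rw [← hmem, hb']; exact hp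
    · rw [← hmem, hb']; exact hq
    · rintro c ⟨hc, hcp, hcq⟩
      have := hu _ ⟨hc, (hmem _ _).2 hcp, (hmem _ _).2 hcq⟩
      rw [← this, map_map]
      symm
      convert map_refl
      ext x <;> simp

/-- `R w u`: there is a group divisible design of type `w^u` with blocks of size `w+1`,
equivalently a Steiner system `S(wu+1, w+1, 2)`. -/
def R (w u : ℕ) : Prop := GDD (w + 1) w (Fin u)

theorem GDD.of_card {w : ℕ} {X : Type} [Finite X] (h : R w (Nat.card X)) : GDD (w + 1) w X :=
  GDD.congr (Finite.equivFin X).symm h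

theorem GDD.of_subsingleton {k w : ℕ} {X : Type} [Subsingleton X] : GDD k w X :=
  ⟨∅, fun b hb => absurd hb (Set.notMem_empty _), fun b hb => absurd hb (Set.notMem_empty _),
    fun p q hpq => absurd (Subsingleton.elim _ _) hpq⟩

theorem R_zero (w : ℕ) : R w 0 := GDD.of_subsingleton
theorem R_one (w : ℕ) : R w 1 := GDD.of_subsingleton

theorem steiner_of_R {w u : ℕ} (h : R w u) : SteinerSystemExists (w * u + 1) (w + 1) 2 := by
  classical
  obtain ⟨B, h1, h2, h3⟩ := h
  have hcard : Fintype.card (Option (Fin u × Fin w)) = w * u + 1 := by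
    rw [Fintype.card_option, Fintype.card_prod, Fintype.card_fin, Fintype.card_fin, mul_comm]
  let fib : Fin u → Finset (Fin u × Fin w) := fun x => univ.filter (fun p => p.1 = x)
  have hfib : ∀ x p, p ∈ fib x ↔ p.1 = x := by
    intro x p
    simp [fib]
  have hfc : ∀ x, (fib x).card = w := by
    intro x
    have : fib x = (univ : Finset (Fin w)).map ⟨fun i => (x, i), fun a b h => by
        simpa using h⟩ := by
      ext ⟨a, b⟩
      rw [hfib, mem_map]
      constructor
      · intro h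
        exact ⟨b, mem_univ _, by rw [← h]; rfl⟩
      · rintro ⟨c, _, e⟩
        exact (congrArg Prod.fst e).symm
    rw [this, card_map, card_univ, Fintype.card_fin]
  refine exists_of_isSteiner hcard (B := {b | (∃ c ∈ B, b = c.map Function.Embedding.some) ∨
    ∃ x, b = insert none ((fib x).map Function.Embedding.some)}) ?_
  have hnone : ∀ c : Finset (Fin u × Fin w), none ∉ c.map Function.Embedding.some := by
    intro c hc
    rw [mem_map] at hc
    obtain ⟨_, _, h⟩ := hc
    exact absurd h (by simp)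
  have hsome : ∀ (c : Finset (Fin u × Fin w)) p, some p ∈ c.map Function.Embedding.some ↔ p ∈ c := by
    intro c p
    exact mem_map' Function.Embedding.some
  have hsome' : ∀ (x : Fin u) p, some p ∈ insert none ((fib x).map Function.Embedding.some) ↔
      p.1 = x := by
    intro x p
    rw [mem_insert, hsome, hfib]
    simp
  apply isSteiner_of_pairs
  · rintro b (⟨c, hc, rfl⟩ | ⟨x, rfl⟩)
    · rw [card_map]; exact h1 c hc
    · rw [card_insert_of_notMem (hnone _), card_map, hfc]
  · have key : ∀ q : Fin u × Fin w, ∃! b, ((∃ c ∈ B, b = c.map Function.Embedding.some) ∨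
        ∃ x, b = insert none ((fib x).map Function.Embedding.some)) ∧ none ∈ b ∧ some q ∈ b := by
      intro q
      refine ⟨_, ⟨Or.inr ⟨q.1, rfl⟩, mem_insert_self _ _, (hsome' _ _).2 rfl⟩, ?_⟩
      rintro c ⟨⟨c, hc, rfl⟩ | ⟨x, rfl⟩, hn, hq⟩
      · exact absurd hn (hnone _)
      · rw [hsome'] at hq
        rw [hq]
    intro p q hpq
    match p, q, hpq with
    | none, none, h => exact absurd rfl h
    | none, some q, _ => exact key q
    | some p, none, _ =>
      obtain ⟨b, ⟨hb, h4, h5⟩, hu⟩ := key p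
      exact ⟨b, ⟨hb, h5, h4⟩, fun c hc => hu c ⟨hc.1, hc.2.2, hc.2.1⟩⟩
    | some p, some q, h =>
      have hpq' : p ≠ q := fun e => h (congrArg some e)
      by_cases e : p.1 = q.1
      · refine ⟨_, ⟨Or.inr ⟨p.1, rfl⟩, (hsome' _ _).2 rfl, (hsome' _ _).2 e.symm⟩, ?_⟩
        rintro c ⟨⟨c, hc, rfl⟩ | ⟨x, rfl⟩, hp, hq⟩
        · rw [hsome] at hp hq
          exact absurd (h2 c hc p hp q hq e) hpq'
        · rw [hsome'] at hp
          rw [hp]
      · obtain ⟨c, ⟨hc, hp, hq⟩, hu⟩ := h3 p q e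
        refine ⟨_, ⟨Or.inl ⟨c, hc, rfl⟩, (hsome _ _).2 hp, (hsome _ _).2 hq⟩, ?_⟩
        rintro d ⟨⟨d, hd, rfl⟩ | ⟨x, rfl⟩, hp', hq'⟩
        · rw [hsome] at hp' hq'
          rw [hu d ⟨hd, hp', hq'⟩]
        · rw [hsome'] at hp' hq'
          exact absurd (hp'.trans hq'.symm) e

theorem R_of_steiner {w u : ℕ} (hw : 0 < w) (h : SteinerSystemExists (w * u + 1) (w + 1) 2) :
    R w u := by
  classical
  obtain ⟨B, hB⟩ := h
  have hpair := pairs_of_isSteiner hB
  have hcard := hB.1
  let z : Fin (w * u + 1) := 0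
  let C : Type := {b : Finset (Fin (w * u + 1)) // b ∈ B ∧ z ∈ b}
  have hfin : Finite C := Subtype.finite
  have hce : ∀ c : C, (c.1.erase z).card = w := by
    intro c
    rw [card_erase_of_mem c.2.2, hcard _ c.2.1]
    rfl
  have ee : ∀ c : C, Nonempty (Fin w ≃ {x // x ∈ c.1.erase z}) := by
    intro c
    exact ⟨(Fintype.equivFinOfCardEq (by rw [Fintype.card_coe]; exact hce c)).symm⟩
  let e : ∀ c : C, Fin w ≃ {x // x ∈ c.1.erase z} := fun c => Classical.choice (ee c)
  have hcz : ∀ (c d : C) (x : Fin (w * u + 1)), x ≠ z → x ∈ c.1 → x ∈ d.1 → c = d := by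
    intro c d x hx hc hd
    obtain ⟨b, _, hu⟩ := hpair x z hx
    apply Subtype.ext
    rw [hu c.1 ⟨c.2.1, hc, c.2.2⟩, hu d.1 ⟨d.2.1, hd, d.2.2⟩]
  let F : C × Fin w → Fin (w * u + 1) := fun p => ((e p.1) p.2).1
  have hFmem : ∀ p, F p ∈ p.1.1 := fun p => mem_of_mem_erase ((e p.1) p.2).2
  have hFne : ∀ p, F p ≠ z := fun p => ne_of_mem_erase ((e p.1) p.2).2
  have hFinj : Function.Injective F := by
    rintro ⟨c, i⟩ ⟨d, j⟩ h
    have hcd : c = d := hcz c d (F (c, i)) (hFne _) (hFmem _) (by rw [h]; exact hFmem (d, j))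
    subst hcd
    have h' : (e c) i = (e c) j := Subtype.ext h
    rw [(e c).injective h']
  have hFsurj : ∀ x, x ≠ z → ∃ p, F p = x := by
    intro x hx
    obtain ⟨b, ⟨hb, h1, h2⟩, _⟩ := hpair x z hx
    let c : C := ⟨b, hb, h2⟩
    refine ⟨(c, (e c).symm ⟨x, mem_erase.2 ⟨hx, h1⟩⟩), ?_⟩
    change ((e c) ((e c).symm _)).1 = x
    rw [Equiv.apply_symm_apply]
  have hcardC : Nat.card C = u := by
    have h1 : Nat.card (C × Fin w) = Nat.card {x : Fin (w * u + 1) // x ≠ z} := by
      refine Nat.card_congr (Equiv.ofBijective (fun p => ⟨F p, hFne p⟩) ⟨?_, ?_⟩)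
      · intro p q h
        exact hFinj (congrArg Subtype.val h)
      · rintro ⟨x, hx⟩
        obtain ⟨p, hp⟩ := hFsurj x hx
        exact ⟨p, Subtype.ext hp⟩
    have h2 : Nat.card {x : Fin (w * u + 1) // x ≠ z} = w * u := by
      rw [Nat.card_eq_fintype_card, Fintype.card_subtype_compl, Fintype.card_fin,
        Fintype.card_subtype_eq, Nat.add_sub_cancel]
    rw [Nat.card_prod, Nat.card_eq_fintype_card (α := Fin w), Fintype.card_fin, h2,
      mul_comm] at h1
    exact Nat.eq_of_mul_eq_mul_left hw h1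
  have eC : C ≃ Fin u := by
    have := Finite.equivFin C
    rwa [hcardC] at this
  refine GDD.congr eC ?_
  let Fe : C × Fin w ↪ Fin (w * u + 1) := ⟨F, hFinj⟩
  refine ⟨{b | b.map Fe ∈ B}, ?_, ?_, ?_⟩
  · intro b hb
    have := hcard _ hb
    rwa [card_map] at this
  · intro b hb p hp q hq hpq
    by_contra hne
    have hp' : F p ∈ b.map Fe := mem_map.2 ⟨p, hp, rfl⟩
    have hq' : F q ∈ b.map Fe := mem_map.2 ⟨q, hq, rfl⟩
    obtain ⟨d, _, hu⟩ := hpair (F p) (F q) (fun h => hne (hFinj h))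
    have e1 := hu _ ⟨hb, hp', hq'⟩
    have e2 := hu _ ⟨p.1.2.1, hFmem p, by rw [hpq]; exact hFmem q⟩
    have hz : z ∈ b.map Fe := by
      rw [e1, ← e2]; exact p.1.2.2
    rw [mem_map] at hz
    obtain ⟨r, _, hr⟩ := hz
    exact hFne r hr
  · intro p q hpq
    obtain ⟨b, ⟨hb, h1, h2⟩, hu⟩ := hpair (F p) (F q) (fun h => hpq (congrArg Prod.fst (hFinj h)))
    have hzb : z ∉ b := by
      intro hz
      have e1 := hcz ⟨b, hb, hz⟩ p.1 (F p) (hFne p) h1 (hFmem p)
      have e2 := hcz ⟨b, hb, hz⟩ q.1 (F q) (hFne q) h2 (hFmem q)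
      exact hpq (e1.symm.trans e2)
    have hb' : (b.preimage F hFinj.injOn).map Fe = b := by
      ext x
      rw [mem_map]
      constructor
      · rintro ⟨r, hr, rfl⟩
        exact mem_preimage.1 hr
      · intro hx
        obtain ⟨r, hr⟩ := hFsurj x (fun h => hzb (h ▸ hx))
        exact ⟨r, mem_preimage.2 (by rw [hr]; exact hx), hr⟩
    refine ⟨b.preimage F hFinj.injOn, ⟨?_, mem_preimage.2 h1, mem_preimage.2 h2⟩, ?_⟩
    · change _ ∈ B
      rw [hb']; exact hb
    · rintro c ⟨hc, hcp, hcq⟩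
      have := hu _ ⟨hc, mem_map.2 ⟨p, hcp, rfl⟩, mem_map.2 ⟨q, hcq, rfl⟩⟩
      ext x
      rw [mem_preimage, ← this]
      exact (mem_map' Fe).symm

/-! ### Orthogonal arrays -/

/-- `s` pairwise orthogonal coordinates on `G × G`, i.e. a transversal design `TD(s, |G|)`. -/
def OA (s : ℕ) (G : Type) : Prop :=
  ∃ L : Fin s → G × G → G, ∀ i j, i ≠ j → Function.Bijective (fun g => (L i g, L j g))

theorem OA.congr {s : ℕ} {G H : Type} (e : G ≃ H) (h : OA s G) : OA s H := by
  obtain ⟨L, hL⟩ := h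
  refine ⟨fun i g => e (L i (e.symm g.1, e.symm g.2)), ?_⟩
  intro i j hij
  have h1 : (fun g : H × H => (e (L i (e.symm g.1, e.symm g.2)), e (L j (e.symm g.1, e.symm g.2))))
      = (Equiv.prodCongr e e) ∘ (fun g => (L i g, L j g)) ∘ (Equiv.prodCongr e.symm e.symm) := rfl
  rw [h1]
  exact (Equiv.bijective _).comp ((hL i j hij).comp (Equiv.bijective _))

theorem OA.prod {s : ℕ} {G H : Type} (h : OA s G) (h' : OA s H) : OA s (G × H) := by
  obtain ⟨L, hL⟩ := h
  obtain ⟨M, hM⟩ := h'
  refine ⟨fun i g => (L i (g.1.1, g.2.1), M i (g.1.2, g.2.2)), ?_⟩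
  intro i j hij
  constructor
  · rintro ⟨⟨a, b⟩, ⟨c, d⟩⟩ ⟨⟨a', b'⟩, ⟨c', d'⟩⟩ h
    simp only [Prod.mk.injEq] at h
    obtain ⟨⟨h1, h2⟩, h3, h4⟩ := h
    have e1 := (hL i j hij).1 (a₁ := (a, c)) (a₂ := (a', c')) (by simp only [h1, h3])
    have e2 := (hM i j hij).1 (a₁ := (b, d)) (a₂ := (b', d')) (by simp only [h2, h4])
    simp only [Prod.mk.injEq] at e1 e2
    obtain ⟨rfl, rfl⟩ := e1
    obtain ⟨rfl, rfl⟩ := e2
    rfl
  · rintro ⟨⟨a, b⟩, ⟨c, d⟩⟩
    obtain ⟨⟨x, y⟩, e1⟩ := (hL i j hij).2 (a, c)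
    obtain ⟨⟨x', y'⟩, e2⟩ := (hM i j hij).2 (b, d)
    simp only [Prod.mk.injEq] at e1 e2
    exact ⟨((x, x'), (y, y')), by simp only [e1.1, e1.2, e2.1, e2.2]⟩

theorem OA.field {s : ℕ} {F : Type} [Field F] [Fintype F] (hs : s ≤ Fintype.card F + 1) : OA s F := by
  classical
  obtain ⟨c⟩ : Nonempty (Fin s ↪ Option F) := by
    rw [Function.Embedding.nonempty_iff_card_le, Fintype.card_fin, Fintype.card_option]
    exact hs
  let L' : Option F → F × F → F := fun o g => o.elim g.2 (fun x => g.1 + x * g.2)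
  have hL : ∀ o o', o ≠ o' → Function.Injective (fun g => (L' o g, L' o' g)) := by
    intro o o' ho
    rintro ⟨a, b⟩ ⟨a', b'⟩ h
    simp only [Prod.mk.injEq] at h
    obtain ⟨h1, h2⟩ := h
    match o, o', ho with
    | none, none, ho => exact absurd rfl ho
    | none, some x, _ =>
      change b = b' at h1
      change a + x * b = a' + x * b' at h2
      subst h1
      rw [add_right_cancel h2]
    | some x, none, _ =>
      change b = b' at h2
      change a + x * b = a' + x * b' at h1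
      subst h2
      rw [add_right_cancel h1]
    | some x, some y, ho =>
      change a + x * b = a' + x * b' at h1
      change a + y * b = a' + y * b' at h2
      have hxy : x - y ≠ 0 := sub_ne_zero.2 (fun e => ho (congrArg some e))
      have h3 : (x - y) * b = (x - y) * b' := by linear_combination h1 - h2
      have h4 := mul_left_cancel₀ hxy h3
      subst h4
      rw [add_right_cancel h1]
  refine ⟨fun i => L' (c i), fun i j hij => ?_⟩
  exact (Finite.injective_iff_bijective).1 (hL _ _ (fun e => hij (c.injective e)))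

theorem OA.mono {s t : ℕ} {G : Type} (h : OA t G) (hst : s ≤ t) : OA s G := by
  obtain ⟨L, hL⟩ := h
  exact ⟨fun i => L (Fin.castLE hst i), fun i j hij => hL _ _
    (fun e => hij (Fin.castLE_injective hst e))⟩

/-- Orthogonal arrays from difference matrices. -/
theorem OA.dm {s : ℕ} {G : Type} [AddCommGroup G] [Finite G] (M : G → Fin s → G)
    (hM : ∀ i j, i ≠ j → Function.Injective (fun b => M b i - M b j)) : OA (s + 1) G := by
  refine ⟨fun i g => Fin.lastCases (motive := fun _ => G) g.2 (fun j => g.1 + M g.2 j) i, ?_⟩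
  intro i j hij
  apply (Finite.injective_iff_bijective).1
  rintro ⟨a, b⟩ ⟨a', b'⟩ h
  simp only [Prod.mk.injEq] at h
  obtain ⟨h1, h2⟩ := h
  rcases Fin.eq_castSucc_or_eq_last i with ⟨i, rfl⟩ | rfl <;>
    rcases Fin.eq_castSucc_or_eq_last j with ⟨j, rfl⟩ | rfl
  · simp only [Fin.lastCases_castSucc] at h1 h2
    have hij' : i ≠ j := fun e => hij (congrArg _ e)
    have hb : b = b' := hM i j hij' (by
      change M b i - M b j = M b' i - M b' j
      have e1 : M b i - M b j = (a + M b i) - (a + M b j) := by abel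
      rw [e1, h1, h2]; abel)
    subst hb
    rw [add_right_cancel h1]
  · simp only [Fin.lastCases_castSucc, Fin.lastCases_last] at h1 h2
    subst h2
    rw [add_right_cancel h1]
  · simp only [Fin.lastCases_castSucc, Fin.lastCases_last] at h1 h2
    subst h1
    rw [add_right_cancel h2]
  · exact absurd rfl hij

/-! ### The recursion -/

section recursion

variable {w : ℕ} {G : Type}

/-- points of the truncated transversal design -/
abbrev TPt (w : ℕ) (G : Type) (T : Set G) : Type :=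
  {p : Fin (w + 2) × G // p.1 = Fin.last (w + 1) → p.2 ∈ T}

lemma card_block (L : Fin (w + 2) → G × G → G) (T : Set G) (g : G × G) :
    Nat.card {x : TPt w G T // L x.1.1 g = x.1.2} = w + 2 ∨
    Nat.card {x : TPt w G T // L x.1.1 g = x.1.2} = w + 1 := by
  classical
  have e : {x : TPt w G T // L x.1.1 g = x.1.2} ≃
      {i : Fin (w + 2) // i = Fin.last (w + 1) → L i g ∈ T} :=
    { toFun := fun x => ⟨x.1.1.1, fun h => by
        rw [x.2]; exact x.1.2 h⟩
      invFun := fun i => ⟨⟨(i.1, L i.1 g), i.2⟩, rfl⟩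
      left_inv := by
        rintro ⟨⟨⟨i, a⟩, h1⟩, h2⟩
        simp only [Subtype.mk.injEq, Prod.mk.injEq, true_and]
        exact h2
      right_inv := by
        rintro ⟨i, h⟩
        rfl }
  rw [Nat.card_congr e]
  by_cases h : L (Fin.last (w + 1)) g ∈ T
  · left
    have e2 : {i : Fin (w + 2) // i = Fin.last (w + 1) → L i g ∈ T} ≃ Fin (w + 2) :=
      Equiv.subtypeUnivEquiv (fun i hi => by rw [hi]; exact h)
    rw [Nat.card_congr e2, Nat.card_eq_fintype_card, Fintype.card_fin]
  · right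
    have e2 : {i : Fin (w + 2) // i = Fin.last (w + 1) → L i g ∈ T} ≃
        {i : Fin (w + 2) // i ≠ Fin.last (w + 1)} :=
      Equiv.subtypeEquivRight (fun i => ⟨fun h1 h2 => h (by rw [← h2]; exact h1 h2),
        fun h1 h2 => absurd h2 h1⟩)
    rw [Nat.card_congr e2, Nat.card_eq_fintype_card, Fintype.card_subtype_compl, Fintype.card_fin,
      Fintype.card_subtype_eq]
    rfl

lemma card_group (T : Set G) (i : Fin (w + 2)) :
    Nat.card {x : TPt w G T // x.1.1 = i} = if i = Fin.last (w + 1) then Nat.card T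
      else Nat.card G := by
  classical
  split_ifs with h
  · subst h
    refine Nat.card_congr
      { toFun := fun x => ⟨x.1.1.2, x.1.2 x.2⟩
        invFun := fun a => ⟨⟨(Fin.last (w + 1), a.1), fun _ => a.2⟩, rfl⟩
        left_inv := by
          rintro ⟨⟨⟨i, a⟩, h1⟩, h2⟩
          simp only [Subtype.mk.injEq, Prod.mk.injEq, and_true]
          exact h2.symm
        right_inv := by
          rintro ⟨a, h⟩
          rfl }
  · refine Nat.card_congr
      { toFun := fun x => x.1.1.2
        invFun := fun a => ⟨⟨(i, a), fun hi => absurd hi h⟩, rfl⟩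
        left_inv := by
          rintro ⟨⟨⟨j, a⟩, h1⟩, h2⟩
          simp only [Subtype.mk.injEq, Prod.mk.injEq, and_true]
          exact h2.symm
        right_inv := by
          intro a
          rfl }

lemma card_TPt [Finite G] (T : Set G) :
    Nat.card (TPt w G T) = (w + 1) * Nat.card G + Nat.card T := by
  classical
  have e : TPt w G T ≃ Σ i : Fin (w + 2), {x : TPt w G T // x.1.1 = i} :=
    (Equiv.sigmaFiberEquiv (fun x : TPt w G T => x.1.1)).symm
  rw [Nat.card_congr e, Nat.card_sigma]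
  simp only [card_group]
  rw [Fin.sum_univ_castSucc]
  simp only [if_true]
  congr 1
  rw [Finset.sum_congr rfl (g := fun _ => Nat.card G) (fun i _ => if_neg (Fin.castSucc_ne_last i))]
  rw [sum_const, card_univ, Fintype.card_fin, smul_eq_mul]

theorem rec_plain [Finite G] (hOA : OA (w + 2) G) (T : Set G) (h1 : R w (w + 1)) (h2 : R w (w + 2))
    (h3 : R w (Nat.card G)) (h4 : R w (Nat.card T)) :
    R w ((w + 1) * Nat.card G + Nat.card T) := by
  classical
  obtain ⟨L, hL⟩ := hOA
  have key : GDD (w + 1) w (TPt w G T) := by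
    refine GDD.closure (I := (G × G) ⊕ Fin (w + 2))
      (Sum.elim (fun g => {x | L x.1.1 g = x.1.2}) (fun i => {x | x.1.1 = i})) ?_ ?_
    · rintro ⟨⟨i, a⟩, hx⟩ ⟨⟨j, b⟩, hy⟩ hxy
      by_cases hij : i = j
      · subst hij
        refine ⟨Sum.inr i, ⟨rfl, rfl⟩, ?_⟩
        rintro (g | l) ⟨e1, e2⟩
        · have e1' : L i g = a := e1
          have e2' : L i g = b := e2
          refine absurd ?_ hxy
          exact Subtype.ext (Prod.ext rfl (e1'.symm.trans e2'))
        · exact congrArg _ (Eq.symm e1)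
      · obtain ⟨⟨g1, g2⟩, hg⟩ := (hL i j hij).2 (a, b)
        rw [Prod.mk.injEq] at hg
        refine ⟨Sum.inl (g1, g2), ⟨hg.1, hg.2⟩, ?_⟩
        rintro (g | l) ⟨e1, e2⟩
        · apply congrArg
          apply (hL i j hij).1
          exact Prod.ext (e1.trans hg.1.symm) (e2.trans hg.2.symm)
        · exact absurd (Eq.trans e1 (Eq.symm e2)) hij
    · rintro (g | i)
      · apply GDD.of_card
        rcases card_block L T g with h | h
        · change R w (Nat.card {x : TPt w G T // L x.1.1 g = x.1.2})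
          rw [h]; exact h2
        · change R w (Nat.card {x : TPt w G T // L x.1.1 g = x.1.2})
          rw [h]; exact h1
      · apply GDD.of_card
        change R w (Nat.card {x : TPt w G T // x.1.1 = i})
        rw [card_group]
        split_ifs
        · exact h4
        · exact h3
  have := GDD.congr (Finite.equivFin (TPt w G T)) key
  rwa [card_TPt] at this

theorem rec_inf [Finite G] (hOA : OA (w + 2) G) (T : Set G) (h1 : R w (w + 1)) (h2 : R w (w + 2))
    (h3 : R w (Nat.card G + 1)) (h4 : R w (Nat.card T + 1)) :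
    R w ((w + 1) * Nat.card G + Nat.card T + 1) := by
  classical
  obtain ⟨L, hL⟩ := hOA
  have key : GDD (w + 1) w (Option (TPt w G T)) := by
    refine GDD.closure (I := (G × G) ⊕ Fin (w + 2))
      (Sum.elim (fun g => {x | ∃ y : TPt w G T, x = some y ∧ L y.1.1 g = y.1.2})
        (fun i => {x | ∀ y : TPt w G T, x = some y → y.1.1 = i})) ?_ ?_
    · have hnone : ∀ y : TPt w G T, ∃! i : (G × G) ⊕ Fin (w + 2),
          (none : Option (TPt w G T)) ∈ (Sum.elim
          (fun g => {x | ∃ y : TPt w G T, x = some y ∧ L y.1.1 g = y.1.2})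
          (fun i => {x | ∀ y : TPt w G T, x = some y → y.1.1 = i}) i : Set (Option (TPt w G T))) ∧
          some y ∈ (Sum.elim
          (fun g => {x | ∃ y : TPt w G T, x = some y ∧ L y.1.1 g = y.1.2})
          (fun i => {x | ∀ y : TPt w G T, x = some y → y.1.1 = i}) i :
            Set (Option (TPt w G T))) := by
        intro y
        refine ⟨Sum.inr y.1.1, ⟨fun z hz => absurd hz (by simp), fun z hz => ?_⟩, ?_⟩
        · rw [Option.some.inj hz]
        · rintro (g | l) ⟨e1, e2⟩
          · obtain ⟨z, hz, _⟩ := e1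
            exact absurd hz (by simp)
          · exact congrArg _ (e2 y rfl).symm
      intro x y hxy
      match x, y, hxy with
      | none, none, h => exact absurd rfl h
      | none, some y, _ => exact hnone y
      | some x, none, _ =>
        obtain ⟨i, ⟨hi1, hi2⟩, hu⟩ := hnone x
        exact ⟨i, ⟨hi2, hi1⟩, fun j hj => hu j ⟨hj.2, hj.1⟩⟩
      | some x, some y, hne =>
        have hxy : x ≠ y := fun e => hne (congrArg _ e)
        obtain ⟨⟨i, a⟩, hx⟩ := x
        obtain ⟨⟨j, b⟩, hy⟩ := y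
        by_cases hij : i = j
        · subst hij
          refine ⟨Sum.inr i, ⟨fun z hz => ?_, fun z hz => ?_⟩, ?_⟩
          · rw [← Option.some.inj hz]
          · rw [← Option.some.inj hz]
          · rintro (g | l) ⟨e1, e2⟩
            · obtain ⟨z1, hz1, e1⟩ := e1
              obtain ⟨z2, hz2, e2⟩ := e2
              rw [← Option.some.inj hz1] at e1
              rw [← Option.some.inj hz2] at e2
              have e1' : L i g = a := e1
              have e2' : L i g = b := e2
              refine absurd ?_ hxy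
              exact Subtype.ext (Prod.ext rfl (e1'.symm.trans e2'))
            · exact congrArg _ (Eq.symm (e1 _ rfl))
        · obtain ⟨⟨g1, g2⟩, hg⟩ := (hL i j hij).2 (a, b)
          rw [Prod.mk.injEq] at hg
          refine ⟨Sum.inl (g1, g2), ⟨⟨_, rfl, hg.1⟩, ⟨_, rfl, hg.2⟩⟩, ?_⟩
          rintro (g | l) ⟨e1, e2⟩
          · obtain ⟨z1, hz1, e1⟩ := e1
            obtain ⟨z2, hz2, e2⟩ := e2
            rw [← Option.some.inj hz1] at e1
            rw [← Option.some.inj hz2] at e2
            apply congrArg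
            apply (hL i j hij).1
            exact Prod.ext (e1.trans hg.1.symm) (e2.trans hg.2.symm)
          · exact absurd (Eq.trans (e1 _ rfl) (Eq.symm (e2 _ rfl))) hij
    · rintro (g | i)
      · apply GDD.of_card
        have e : {x : Option (TPt w G T) // ∃ y : TPt w G T, x = some y ∧ L y.1.1 g = y.1.2} ≃
            {x : TPt w G T // L x.1.1 g = x.1.2} :=
          (Equiv.ofBijective (fun x => ⟨some x.1, ⟨x.1, rfl, x.2⟩⟩)
            ⟨fun x y h => Subtype.ext (Option.some.inj (congrArg Subtype.val h)), by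
              rintro ⟨x, y, rfl, h⟩
              exact ⟨⟨y, h⟩, rfl⟩⟩).symm
        change R w (Nat.card {x : Option (TPt w G T) // ∃ y : TPt w G T, x = some y ∧
          L y.1.1 g = y.1.2})
        rw [Nat.card_congr e]
        rcases card_block L T g with h | h
        · rw [h]; exact h2
        · rw [h]; exact h1
      · apply GDD.of_card
        have e : {x : Option (TPt w G T) // ∀ y : TPt w G T, x = some y → y.1.1 = i} ≃
            Option {x : TPt w G T // x.1.1 = i} :=
          { toFun := fun x => match x with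
              | ⟨none, _⟩ => none
              | ⟨some y, h⟩ => some ⟨y, h y rfl⟩
            invFun := fun x => match x with
              | none => ⟨none, fun y hy => absurd hy (by simp)⟩
              | some y => ⟨some y.1, fun z hz => by rw [← Option.some.inj hz]; exact y.2⟩
            left_inv := by
              rintro ⟨_ | y, h⟩ <;> rfl
            right_inv := by
              rintro (_ | ⟨y, h⟩) <;> rfl }
        change R w (Nat.card {x : Option (TPt w G T) // ∀ y : TPt w G T, x = some y → y.1.1 = i})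
        rw [Nat.card_congr e, Finite.card_option, card_group]
        split_ifs
        · exact h4
        · exact h3
  have := GDD.congr (Finite.equivFin (Option (TPt w G T))) key
  rwa [Finite.card_option, card_TPt] at this

end recursion

/-- Version with numbers only. -/
theorem R_plain {w m t : ℕ} (hOA : OA (w + 2) (Fin m)) (ht : t ≤ m) (h1 : R w (w + 1))
    (h2 : R w (w + 2)) (h3 : R w m) (h4 : R w t) : R w ((w + 1) * m + t) := by
  obtain ⟨T, -, hT⟩ := Finset.exists_subset_card_eq (s := (univ : Finset (Fin m))) (n := t)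
    (by rw [card_univ, Fintype.card_fin]; exact ht)
  have hG : Nat.card (Fin m) = m := by rw [Nat.card_eq_fintype_card, Fintype.card_fin]
  have hT' : Nat.card ((T : Set (Fin m))) = t := by
    rw [Nat.card_coe_set_eq, Set.ncard_coe_finset, hT]
  have := rec_plain hOA (T : Set (Fin m)) h1 h2 (by rw [hG]; exact h3) (by rw [hT']; exact h4)
  rwa [hG, hT'] at this

theorem R_inf {w m t : ℕ} (hOA : OA (w + 2) (Fin m)) (ht : t ≤ m) (h1 : R w (w + 1))
    (h2 : R w (w + 2)) (h3 : R w (m + 1)) (h4 : R w (t + 1)) : R w ((w + 1) * m + t + 1) := by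
  obtain ⟨T, -, hT⟩ := Finset.exists_subset_card_eq (s := (univ : Finset (Fin m))) (n := t)
    (by rw [card_univ, Fintype.card_fin]; exact ht)
  have hG : Nat.card (Fin m) = m := by rw [Nat.card_eq_fintype_card, Fintype.card_fin]
  have hT' : Nat.card ((T : Set (Fin m))) = t := by
    rw [Nat.card_coe_set_eq, Set.ncard_coe_finset, hT]
  have := rec_inf hOA (T : Set (Fin m)) h1 h2 (by rw [hG]; exact h3) (by rw [hT']; exact h4)
  rwa [hG, hT'] at this

theorem OA_prime {s p : ℕ} (hp : p.Prime) (hs : s ≤ p + 1) : OA s (Fin p) := by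
  have : Fact p.Prime := ⟨hp⟩
  have h : OA s (ZMod p) := OA.field (by rw [ZMod.card]; exact hs)
  exact OA.congr (Fintype.equivFinOfCardEq (ZMod.card p)) h

theorem OA_primePow {s p a q : ℕ} (hp : p.Prime) (ha : a ≠ 0) (hq : p ^ a = q) (hs : s ≤ q + 1) :
    OA s (Fin q) := by
  have : Fact p.Prime := ⟨hp⟩
  have : Fintype (GaloisField p a) := Fintype.ofFinite _
  have hc : Fintype.card (GaloisField p a) = q := by
    rw [← Nat.card_eq_fintype_card, GaloisField.card p a ha, hq]
  exact OA.congr (Fintype.equivFinOfCardEq hc) (OA.field (by rw [hc]; exact hs))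

theorem OA_mul {s a b n : ℕ} (ha : OA s (Fin a)) (hb : OA s (Fin b)) (hn : a * b = n) :
    OA s (Fin n) := by
  subst hn
  exact OA.congr finProdFinEquiv (ha.prod hb)

theorem R_of {w u v k : ℕ} (hw : 0 < w) (hk : w + 1 = k) (hv : w * u + 1 = v)
    (h : SteinerSystemExists v k 2) : R w u := by
  subst hv hk
  exact R_of_steiner hw h

theorem of_R {w u v k : ℕ} (hk : w + 1 = k) (hv : w * u + 1 = v) (h : R w u) :
    SteinerSystemExists v k 2 := by
  subst hv hk
  exact steiner_of_R h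

theorem R_plain' {w m t u : ℕ} (hOA : OA (w + 2) (Fin m)) (ht : t ≤ m) (h1 : R w (w + 1))
    (h2 : R w (w + 2)) (h3 : R w m) (h4 : R w t) (hu : (w + 1) * m + t = u) : R w u := by
  subst hu
  exact R_plain hOA ht h1 h2 h3 h4

theorem R_inf' {w m t u : ℕ} (hOA : OA (w + 2) (Fin m)) (ht : t ≤ m) (h1 : R w (w + 1))
    (h2 : R w (w + 2)) (h3 : R w (m + 1)) (h4 : R w (t + 1)) (hu : (w + 1) * m + t + 1 = u) :
    R w u := by
  subst hu
  exact R_inf hOA ht h1 h2 h3 h4

end Pool.Agent.H28.Steiner
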