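import Mathlib
import Pool.Agent.H28.Steiner.DF
import Pool.Agent.H28.Steiner.Rec

set_option autoImplicit false

namespace Pool.Agent.H28.Steiner

/-! ### Difference matrices over `Z_a × Z_b × Z_c × Z_d`, checked by the kernel -/

/-- entry of a row -/
noncomputable def ent (r : List ℕ) (i : ℕ) : ℕ :=
  List.rec (motive := fun _ => ℕ → ℕ) (fun _ => 0)
    (fun x _ ih i => Nat.rec x (fun j _ => ih j) i) r i

/-- mask of the differences of two columns -/
noncomputable def colMask (f : ℕ → ℕ → ℕ) (i j : ℕ) (rows : List (List ℕ)) : ℕ :=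
  List.rec 0 (fun r _ ih => Nat.lor (Nat.shiftLeft 1 (f (ent r i) (ent r j))) ih) rows

lemma colMask_testBit (f : ℕ → ℕ → ℕ) (i j : ℕ) (rows : List (List ℕ)) (n : ℕ)
    (h : (colMask f i j rows).testBit n = true) :
    ∃ l : Fin rows.length, f (ent (rows.get l) i) (ent (rows.get l) j) = n := by
  induction rows with
  | nil =>
    change Nat.testBit 0 n = true at h
    rw [Nat.zero_testBit] at h
    exact absurd h (by simp)
  | cons r rows ih =>
    have h0 : colMask f i j (r :: rows) = (1 <<< (f (ent r i) (ent r j))) ||| colMask f i j rows :=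
      rfl
    rw [h0, Nat.testBit_or, Bool.or_eq_true] at h
    rcases h with h | h
    · rw [Nat.one_shiftLeft, Nat.testBit_two_pow] at h
      exact ⟨⟨0, Nat.succ_pos _⟩, of_decide_eq_true h⟩
    · obtain ⟨l, e⟩ := ih h
      exact ⟨l.succ, e⟩

/-- all ordered pairs of distinct columns in `Fin s` -/
noncomputable def dmCheck (a b c d s : ℕ) (rows : List (List ℕ)) : Bool :=
  and (Nat.beq (llen rows) (Nat.mul a (Nat.mul b (Nat.mul c d))))
    (Nat.rec (motive := fun _ => Bool) true (fun i ih => and ih
      (Nat.rec (motive := fun _ => Bool) true (fun j ih' => and ih'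
        (or (Nat.beq i j) (Nat.beq (colMask (subIdx a b c d) i j rows)
          (Nat.sub (Nat.pow 2 (Nat.mul a (Nat.mul b (Nat.mul c d)))) 1)))) s)) s)

lemma natrec_and (P : ℕ → Bool) (s : ℕ)
    (h : Nat.rec (motive := fun _ => Bool) true (fun i ih => and ih (P i)) s = true) :
    ∀ i < s, P i = true := by
  induction s with
  | zero => intro i hi; omega
  | succ s ih =>
    intro i hi
    change and (Nat.rec (motive := fun _ => Bool) true (fun i ih => and ih (P i)) s) (P s) = true
      at h
    rw [Bool.and_eq_true] at h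
    rcases Nat.lt_succ_iff_lt_or_eq.1 hi with h1 | rfl
    · exact ih h.1 i h1
    · exact h.2

theorem OA_of_dm {a b c d n s : ℕ} (ha : 0 < a) (hb : 0 < b) (hc : 0 < c) (hd : 0 < d)
    (hn : a * (b * (c * d)) = n) (rows : List (List ℕ)) (h : dmCheck a b c d s rows = true) :
    OA (s + 1) (Fin n) := by
  have : NeZero a := ⟨ha.ne'⟩
  have : NeZero b := ⟨hb.ne'⟩
  have : NeZero c := ⟨hc.ne'⟩
  have : NeZero d := ⟨hd.ne'⟩
  unfold dmCheck at h
  rw [Bool.and_eq_true] at h
  obtain ⟨h1, h2⟩ := h
  have h1' := Nat.eq_of_beq_eq_true h1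
  rw [llen_eq] at h1'
  have h2' := natrec_and _ _ h2
  have hcard : Fintype.card (G4 a b c d) = n := (card_G4 a b c d).trans hn
  have hlen : rows.length = n := h1'.trans hn
  let e : G4 a b c d ≃ Fin rows.length := Fintype.equivFinOfCardEq (by rw [hcard, hlen])
  have key : OA (s + 1) (G4 a b c d) := by
    refine OA.dm (fun g i => dec a b c d (ent (rows.get (e g)) i.1)) ?_
    intro i j hij
    rw [Finite.injective_iff_surjective]
    intro g
    have h3 := natrec_and _ _ (h2' i.1 i.2) j.1 j.2
    rw [Bool.or_eq_true] at h3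
    rcases h3 with h3 | h3
    · exact absurd (Fin.ext (Nat.eq_of_beq_eq_true h3)) hij
    · have h3' := Nat.eq_of_beq_eq_true h3
      have h5 : (colMask (subIdx a b c d) i.1 j.1 rows).testBit (gIdx g) = true := by
        rw [h3']
        change (2 ^ (a * (b * (c * d))) - 1).testBit (gIdx g) = true
        rw [Nat.testBit_two_pow_sub_one]
        exact decide_eq_true (gIdx_lt ha hb hc hd g)
      obtain ⟨l, hl⟩ := colMask_testBit _ _ _ _ _ h5
      rw [subIdx_eq ha hb hc hd] at hl
      refine ⟨e.symm l, ?_⟩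
      change dec a b c d (ent (rows.get (e (e.symm l))) i.1) -
        dec a b c d (ent (rows.get (e (e.symm l))) j.1) = g
      rw [Equiv.apply_symm_apply]
      exact gIdx_inj ha hb hc hd hl
  exact OA.congr (Fintype.equivFinOfCardEq hcard) key

end Pool.Agent.H28.Steiner
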