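import Mathlib
import Pool.Agent.H28.Steiner.DM

set_option autoImplicit false

namespace Pool.Agent.H28.Steiner.DM57

/-- a difference matrix with 8 rows (listed here by its 57 columns) over `Z_57` -/
def rows : List (List ℕ) := [
  [0, 0, 0, 0, 0, 0, 0, 0],
  [1, 6, 7, 9, 19, 38, 42, 49],
  [6, 1, 19, 49, 7, 42, 38, 9],
  [7, 19, 1, 38, 6, 9, 49, 42],
  [9, 49, 38, 1, 42, 7, 19, 6],
  [19, 7, 6, 42, 1, 49, 9, 38],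
  [38, 42, 9, 7, 49, 1, 6, 19],
  [42, 38, 49, 19, 9, 6, 1, 7],
  [49, 9, 42, 6, 38, 19, 7, 1],
  [1, 7, 9, 19, 38, 42, 49, 6],
  [6, 19, 49, 7, 42, 38, 9, 1],
  [7, 1, 38, 6, 9, 49, 42, 19],
  [9, 38, 1, 42, 7, 19, 6, 49],
  [19, 6, 42, 1, 49, 9, 38, 7],
  [38, 9, 7, 49, 1, 6, 19, 42],
  [42, 49, 19, 9, 6, 1, 7, 38],
  [49, 42, 6, 38, 19, 7, 1, 9],
  [1, 9, 19, 38, 42, 49, 6, 7],
  [6, 49, 7, 42, 38, 9, 1, 19],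
  [7, 38, 6, 9, 49, 42, 19, 1],
  [9, 1, 42, 7, 19, 6, 49, 38],
  [19, 42, 1, 49, 9, 38, 7, 6],
  [38, 7, 49, 1, 6, 19, 42, 9],
  [42, 19, 9, 6, 1, 7, 38, 49],
  [49, 6, 38, 19, 7, 1, 9, 42],
  [1, 19, 38, 42, 49, 6, 7, 9],
  [6, 7, 42, 38, 9, 1, 19, 49],
  [7, 6, 9, 49, 42, 19, 1, 38],
  [9, 42, 7, 19, 6, 49, 38, 1],
  [19, 1, 49, 9, 38, 7, 6, 42],
  [38, 49, 1, 6, 19, 42, 9, 7],
  [42, 9, 6, 1, 7, 38, 49, 19],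
  [49, 38, 19, 7, 1, 9, 42, 6],
  [1, 38, 42, 49, 6, 7, 9, 19],
  [6, 42, 38, 9, 1, 19, 49, 7],
  [7, 9, 49, 42, 19, 1, 38, 6],
  [9, 7, 19, 6, 49, 38, 1, 42],
  [19, 49, 9, 38, 7, 6, 42, 1],
  [38, 1, 6, 19, 42, 9, 7, 49],
  [42, 6, 1, 7, 38, 49, 19, 9],
  [49, 19, 7, 1, 9, 42, 6, 38],
  [1, 42, 49, 6, 7, 9, 19, 38],
  [6, 38, 9, 1, 19, 49, 7, 42],
  [7, 49, 42, 19, 1, 38, 6, 9],
  [9, 19, 6, 49, 38, 1, 42, 7],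
  [19, 9, 38, 7, 6, 42, 1, 49],
  [38, 6, 19, 42, 9, 7, 49, 1],
  [42, 1, 7, 38, 49, 19, 9, 6],
  [49, 7, 1, 9, 42, 6, 38, 19],
  [1, 49, 6, 7, 9, 19, 38, 42],
  [6, 9, 1, 19, 49, 7, 42, 38],
  [7, 42, 19, 1, 38, 6, 9, 49],
  [9, 6, 49, 38, 1, 42, 7, 19],
  [19, 38, 7, 6, 42, 1, 49, 9],
  [38, 19, 42, 9, 7, 49, 1, 6],
  [42, 7, 38, 49, 19, 9, 6, 1],
  [49, 1, 9, 42, 6, 38, 19, 7]]

theorem oa : OA 9 (Fin 57) :=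
  OA_of_dm (a := 57) (b := 1) (c := 1) (d := 1) (by norm_num) (by norm_num) (by norm_num)
    (by norm_num) (by norm_num) rows (by decide +kernel)

end Pool.Agent.H28.Steiner.DM57
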