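import Pool.Agent.SteinerMC.Basic

set_option autoImplicit false

namespace Pool.Agent.H28.Steiner.I8V232

open Pool.Agent.SteinerMC

/-- base blocks -/
def base : List (List ℕ) :=
  [[0, 1, 81, 87, 190, 194, 203, 215],
   [0, 2, 38, 64, 150, 158, 201, 218],
   [0, 3, 109, 131, 137, 139, 172, 181],
   [0, 4, 46, 58, 76, 95, 100, 108],
   [0, 5, 52, 53, 154, 157, 209, 213],
   [0, 6, 120, 123, 132, 147, 171, 185],
   [0, 7, 85, 89, 170, 187, 227, 230],
   [0, 8, 83, 92, 174, 184, 206, 219],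
   [0, 9, 69, 74, 195, 197, 200, 226],
   [0, 10, 45, 65, 71, 73, 101, 113],
   [0, 11, 34, 44, 66, 79, 122, 126],
   [0, 12, 49, 63, 140, 145, 207, 222],
   [0, 13, 39, 41, 70, 77, 99, 118],
   [0, 14, 121, 130, 143, 144, 173, 191],
   [0, 15, 125, 127, 142, 146, 182, 183],
   [0, 16, 40, 43, 138, 151, 212, 221],
   [0, 50, 67, 102, 153, 175, 225, 231],
   [33, 37, 79, 91, 150, 159, 175, 178],
   [33, 38, 85, 86, 147, 163, 190, 197],
   [33, 39, 113, 129, 167, 188, 204, 218],
   [33, 41, 105, 106, 173, 184, 207, 217],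
   [33, 42, 103, 109, 169, 189, 228, 230],
   [33, 44, 67, 77, 132, 151, 177, 183],
   [33, 48, 99, 119, 168, 196, 215, 216],
   [33, 49, 73, 76, 139, 149, 170, 195],
   [66, 74, 119, 124, 153, 159, 206, 217],
   [66, 77, 103, 110, 135, 147, 210, 216],
   [66, 81, 120, 130, 156, 163, 201, 229],
   [66, 82, 100, 118, 138, 149, 203, 228]]

lemma chk : mcCheck 33 7 1 8 29 base = true := by decide +kernel

theorem ex : SteinerSystemExists 232 8 2 :=
  steiner_of_mc 33 7 1 8 29 (by norm_num) (by norm_num) (by norm_num)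
    (holeOK_one 8) base (by norm_num) chk

end Pool.Agent.H28.Steiner.I8V232
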