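import Mathlib
import Pool.Agent.H28.Steiner.DF

set_option autoImplicit false

namespace Pool.Agent.H28.Steiner.I8V400

/-- base blocks, coded elements of `Z_400 x Z_1 x Z_1 x Z_1` -/
def base : List (List ℕ) := [
  [0, 1, 31, 226, 271, 293, 309, 352],
  [0, 2, 8, 106, 135, 223, 284, 324],
  [0, 3, 73, 90, 209, 232, 242, 379],
  [0, 4, 15, 143, 208, 329, 363, 395],
  [0, 7, 51, 64, 163, 217, 297, 382],
  [0, 12, 26, 68, 157, 280, 354, 373],
  [0, 28, 105, 141, 201, 256, 303, 365]]

/-- the subgroup -/
def D : List ℕ := [0, 50, 100, 150, 200, 250, 300, 350]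

/-- translations of the subgroup -/
def T : List ℕ :=
  [0, 399, 398, 397, 396, 395, 394, 393, 392, 391, 390, 389, 388, 387, 386, 385, 384, 383, 382,
  381, 380, 379, 378, 377, 376, 375, 374, 373, 372, 371, 370, 369, 368, 367, 366, 365, 364, 363,
  362, 361, 360, 359, 358, 357, 356, 355, 354, 353, 352, 351]

/-- There is a Steiner system with parameters 400, 8, 2. -/
theorem ex : SteinerSystemExists 400 8 2 :=
  df_short 400 1 1 1 400 8 (by norm_num) (by norm_num) (by norm_num) (by norm_num)
    (by norm_num) (by norm_num) base D T (by decide +kernel) (by decide +kernel)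
    (by decide +kernel)

end Pool.Agent.H28.Steiner.I8V400
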