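import Mathlib
import Pool.Agent.H28.Steiner.DF

set_option autoImplicit false

namespace Pool.Agent.H28.Steiner.I8V57

/-- base blocks, coded elements of `Z_57 x Z_1 x Z_1 x Z_1` -/
def base : List (List ℕ) := [
  [1, 6, 7, 9, 19, 38, 42, 49]]

/-- There is a Steiner system with parameters 57, 8, 2. -/
theorem ex : SteinerSystemExists 57 8 2 :=
  df_full 57 1 1 1 57 8 (by norm_num) (by norm_num) (by norm_num) (by norm_num)
    (by norm_num) (by norm_num) base (by decide +kernel) (by decide +kernel)

end Pool.Agent.H28.Steiner.I8V57
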