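import Mathlib
import Pool.Agent.H28.Steiner.DF

set_option autoImplicit false

namespace Pool.Agent.H28.Steiner.I8V64

/-- base blocks, coded elements of `Z_63 x Z_1 x Z_1 x Z_1` -/
def base : List (List ℕ) := [
  [21, 31, 42, 47, 55, 59, 61, 62]]

/-- the subgroup -/
def D : List ℕ := [0, 9, 18, 27, 36, 45, 54]

/-- translations of the subgroup -/
def T : List ℕ :=
  [0, 62, 61, 60, 59, 58, 57, 56, 55]

/-- There is a Steiner system with parameters 64, 8, 2. -/
theorem ex : SteinerSystemExists 64 8 2 :=
  df_rot 63 1 1 1 63 8 (by norm_num) (by norm_num) (by norm_num) (by norm_num)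
    (by norm_num) (by norm_num) base D T (by decide +kernel) (by decide +kernel)
    (by decide +kernel)

end Pool.Agent.H28.Steiner.I8V64
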