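import Mathlib
import Pool.Agent.H28.Steiner.DF

set_option autoImplicit false

namespace Pool.Agent.H28.Steiner.I9V1369

/-- base blocks, coded elements of `Z_37 x Z_37 x Z_1 x Z_1` -/
def base : List (List ℕ) := [
  [0, 1, 4, 40975, 45058, 49161, 77851, 143371, 147476],
  [0, 2, 20515, 45075, 61445, 81926, 81943, 118790, 135181],
  [0, 5, 16400, 20497, 28686, 53258, 61461, 65568, 135172],
  [0, 6, 20480, 102414, 114693, 114704, 118786, 143393, 147464],
  [0, 7, 28682, 36874, 65542, 73747, 86019, 102412, 143362],
  [0, 8, 20502, 40973, 65558, 81936, 98311, 122880, 147473],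
  [0, 9, 49158, 65560, 94226, 98330, 110605, 131089, 143389],
  [0, 10, 4106, 57354, 98305, 98326, 126997, 139274, 139296],
  [0, 12, 45090, 49185, 57361, 61450, 77831, 77844, 127011],
  [0, 14, 4112, 8212, 90134, 102402, 114709, 126990, 135197],
  [0, 18, 32787, 40995, 49183, 57378, 98335, 118803, 122912],
  [0, 4099, 32792, 40961, 53250, 61454, 65569, 114710, 131077],
  [0, 4101, 28701, 45067, 61449, 69640, 90136, 114700, 122901],
  [0, 4102, 12296, 16387, 28685, 36878, 77824, 90148, 135188],
  [0, 4110, 12297, 32783, 86043, 94242, 102419, 127005, 139288],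
  [0, 4111, 12291, 40982, 61444, 65562, 81950, 126993, 143379],
  [0, 4121, 12304, 16390, 20482, 77848, 98337, 110592, 114714],
  [0, 4127, 32794, 45070, 53281, 69649, 81923, 106510, 126995],
  [0, 8216, 20510, 32768, 40989, 65547, 86037, 114706, 126986]]

/-- There is a Steiner system with parameters 1369, 9, 2. -/
theorem ex : SteinerSystemExists 1369 9 2 :=
  df_full 37 37 1 1 1369 9 (by norm_num) (by norm_num) (by norm_num) (by norm_num)
    (by norm_num) (by norm_num) base (by decide +kernel) (by decide +kernel)

end Pool.Agent.H28.Steiner.I9V1369
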