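import Mathlib
import Pool.Agent.H28.Steiner.DF

set_option autoImplicit false

namespace Pool.Agent.H28.Steiner.I9V1657

/-- base blocks, coded elements of `Z_1657 x Z_1 x Z_1 x Z_1` -/
def base : List (List ℕ) := [
  [0, 1, 3, 10, 175, 377, 534, 1225, 1238],
  [0, 4, 23, 75, 153, 961, 1182, 1621, 1649],
  [0, 5, 251, 314, 361, 996, 1073, 1211, 1628],
  [0, 6, 39, 248, 639, 1365, 1419, 1556, 1612],
  [0, 11, 97, 285, 537, 563, 871, 1521, 1541],
  [0, 14, 341, 403, 476, 1230, 1291, 1486, 1636],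
  [0, 15, 692, 790, 986, 1055, 1184, 1272, 1438],
  [0, 16, 48, 160, 259, 1061, 1143, 1373, 1581],
  [0, 17, 342, 372, 655, 881, 1375, 1416, 1471],
  [0, 18, 109, 291, 474, 559, 928, 1030, 1185],
  [0, 22, 145, 318, 787, 900, 949, 1297, 1557],
  [0, 24, 204, 428, 689, 782, 976, 1192, 1525],
  [0, 25, 90, 177, 378, 749, 823, 1046, 1432],
  [0, 27, 545, 649, 752, 970, 1096, 1140, 1604],
  [0, 37, 339, 480, 614, 1156, 1428, 1494, 1615],
  [0, 38, 197, 364, 436, 667, 929, 1287, 1514],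
  [0, 43, 458, 566, 778, 872, 977, 1153, 1284],
  [0, 46, 351, 557, 615, 1093, 1208, 1356, 1524],
  [0, 50, 270, 434, 753, 895, 963, 1132, 1252],
  [0, 57, 117, 271, 352, 663, 868, 993, 1144],
  [0, 64, 368, 463, 685, 791, 1081, 1200, 1529],
  [0, 67, 322, 554, 672, 941, 1125, 1264, 1378],
  [0, 70, 228, 477, 623, 801, 890, 1227, 1417]]

/-- There is a Steiner system with parameters 1657, 9, 2. -/
theorem ex : SteinerSystemExists 1657 9 2 :=
  df_full 1657 1 1 1 1657 9 (by norm_num) (by norm_num) (by norm_num) (by norm_num)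
    (by norm_num) (by norm_num) base (by decide +kernel) (by decide +kernel)

end Pool.Agent.H28.Steiner.I9V1657
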