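import Mathlib
import Pool.Agent.H28.Steiner.DF

set_option autoImplicit false

namespace Pool.Agent.H28.Steiner.I9V577

/-- base blocks, coded elements of `Z_577 x Z_1 x Z_1 x Z_1` -/
def base : List (List ℕ) := [
  [53, 61, 198, 217, 299, 300, 326, 424, 430],
  [109, 137, 142, 193, 205, 242, 331, 390, 559],
  [49, 51, 222, 354, 383, 392, 408, 477, 549],
  [17, 40, 92, 95, 159, 401, 442, 507, 555],
  [91, 144, 151, 165, 342, 428, 464, 525, 575],
  [6, 48, 79, 94, 114, 124, 404, 415, 447],
  [16, 38, 128, 145, 304, 308, 403, 443, 523],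
  [66, 210, 254, 267, 301, 325, 441, 459, 562]]

/-- There is a Steiner system with parameters 577, 9, 2. -/
theorem ex : SteinerSystemExists 577 9 2 :=
  df_full 577 1 1 1 577 9 (by norm_num) (by norm_num) (by norm_num) (by norm_num)
    (by norm_num) (by norm_num) base (by decide +kernel) (by decide +kernel)

end Pool.Agent.H28.Steiner.I9V577
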