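import Mathlib
import Pool.Agent.H28.Steiner.DF

set_option autoImplicit false

namespace Pool.Agent.H28.Steiner.I9V73

/-- base blocks, coded elements of `Z_73 x Z_1 x Z_1 x Z_1` -/
def base : List (List ℕ) := [
  [1, 2, 4, 8, 16, 32, 37, 55, 64]]

/-- There is a Steiner system with parameters 73, 9, 2. -/
theorem ex : SteinerSystemExists 73 9 2 :=
  df_full 73 1 1 1 73 9 (by norm_num) (by norm_num) (by norm_num) (by norm_num)
    (by norm_num) (by norm_num) base (by decide +kernel) (by decide +kernel)

end Pool.Agent.H28.Steiner.I9V73
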