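import Mathlib
import Pool.Agent.H28.Steiner.DF

set_option autoImplicit false

namespace Pool.Agent.H28.Steiner.I9V801

/-- base blocks, coded elements of `Z_267 x Z_3 x Z_1 x Z_1` -/
def base : List (List ℕ) := [
  [0, 1, 37, 165, 255, 4163, 4177, 8295, 8329],
  [0, 2, 62, 183, 212, 4255, 4347, 8277, 8435],
  [0, 3, 70, 79, 111, 4186, 4316, 8296, 8421],
  [0, 4, 126, 148, 219, 4097, 4153, 8206, 8337],
  [0, 5, 129, 140, 194, 4146, 4300, 8267, 8427],
  [0, 6, 222, 229, 247, 4276, 4358, 8205, 8311],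
  [0, 8, 47, 198, 248, 4198, 4299, 8265, 8363],
  [0, 10, 4108, 4125, 4287, 4317, 4333, 8374, 8417],
  [0, 15, 112, 133, 186, 4202, 4225, 8319, 8413],
  [0, 24, 87, 115, 187, 4282, 4343, 8244, 8401],
  [0, 31, 114, 199, 234, 4174, 4346, 8343, 8383]]

/-- the subgroup -/
def D : List ℕ := [0, 89, 178, 4096, 4185, 4274, 8192, 8281, 8370]

/-- translations of the subgroup -/
def T : List ℕ :=
  [0, 266, 265, 264, 263, 262, 261, 260, 259, 258, 257, 256, 255, 254, 253, 252, 251, 250, 249,
  248, 247, 246, 245, 244, 243, 242, 241, 240, 239, 238, 237, 236, 235, 234, 233, 232, 231, 230,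
  229, 228, 227, 226, 225, 224, 223, 222, 221, 220, 219, 218, 217, 216, 215, 214, 213, 212, 211,
  210, 209, 208, 207, 206, 205, 204, 203, 202, 201, 200, 199, 198, 197, 196, 195, 194, 193, 192,
  191, 190, 189, 188, 187, 186, 185, 184, 183, 182, 181, 180, 179]

/-- There is a Steiner system with parameters 801, 9, 2. -/
theorem ex : SteinerSystemExists 801 9 2 :=
  df_short 267 3 1 1 801 9 (by norm_num) (by norm_num) (by norm_num) (by norm_num)
    (by norm_num) (by norm_num) base D T (by decide +kernel) (by decide +kernel)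
    (by decide +kernel)

end Pool.Agent.H28.Steiner.I9V801
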