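import Mathlib
import Pool.Agent.H28.Steiner.DF

set_option autoImplicit false

namespace Pool.Agent.H28.Steiner.I9V81

/-- base blocks, coded elements of `Z_80 x Z_1 x Z_1 x Z_1` -/
def base : List (List ℕ) := [
  [7, 21, 22, 29, 34, 38, 40, 63, 66]]

/-- the subgroup -/
def D : List ℕ := [0, 10, 20, 30, 40, 50, 60, 70]

/-- translations of the subgroup -/
def T : List ℕ :=
  [0, 79, 78, 77, 76, 75, 74, 73, 72, 71]

/-- There is a Steiner system with parameters 81, 9, 2. -/
theorem ex : SteinerSystemExists 81 9 2 :=
  df_rot 80 1 1 1 80 9 (by norm_num) (by norm_num) (by norm_num) (by norm_num)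
    (by norm_num) (by norm_num) base D T (by decide +kernel) (by decide +kernel)
    (by decide +kernel)

end Pool.Agent.H28.Steiner.I9V81
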