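import Mathlib
import Pool.Agent.H28.Steiner.DF

set_option autoImplicit false

namespace Pool.Agent.H28.Steiner.I9V937

/-- base blocks, coded elements of `Z_937 x Z_1 x Z_1 x Z_1` -/
def base : List (List ℕ) := [
  [0, 1, 12, 56, 89, 215, 643, 662, 829],
  [0, 2, 20, 51, 158, 204, 305, 747, 768],
  [0, 3, 35, 151, 421, 500, 594, 628, 914],
  [0, 4, 119, 216, 301, 435, 585, 626, 669],
  [0, 5, 200, 257, 324, 411, 492, 638, 765],
  [0, 6, 409, 590, 607, 654, 719, 833, 871],
  [0, 7, 130, 139, 408, 456, 552, 688, 854],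
  [0, 8, 76, 209, 231, 246, 586, 679, 921],
  [0, 10, 50, 80, 175, 412, 425, 754, 876],
  [0, 14, 39, 267, 404, 544, 580, 686, 788],
  [0, 27, 118, 298, 485, 538, 598, 759, 859],
  [0, 28, 82, 288, 361, 423, 482, 820, 862],
  [0, 29, 98, 337, 389, 644, 707, 806, 892]]

/-- There is a Steiner system with parameters 937, 9, 2. -/
theorem ex : SteinerSystemExists 937 9 2 :=
  df_full 937 1 1 1 937 9 (by norm_num) (by norm_num) (by norm_num) (by norm_num)
    (by norm_num) (by norm_num) base (by decide +kernel) (by decide +kernel)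

end Pool.Agent.H28.Steiner.I9V937
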