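import Mathlib
import Pool.Agent.H28.Steiner.DF

set_option autoImplicit false

namespace Pool.Agent.H28.Steiner.K7V505

/-- base blocks, coded elements of `Z_505 x Z_1 x Z_1 x Z_1` -/
def base : List (List ℕ) := [
  [0, 405, 315, 106, 407, 38, 314],
  [0, 305, 490, 321, 52, 63, 219],
  [0, 205, 145, 365, 485, 195, 182],
  [0, 105, 421, 302, 348, 424, 249],
  [0, 5, 155, 480, 85, 448, 44],
  [0, 410, 35, 481, 392, 283, 344],
  [0, 210, 275, 51, 282, 128, 469],
  [0, 115, 250, 146, 477, 88, 264],
  [0, 125, 326, 232, 158, 409, 449],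
  [0, 430, 426, 381, 42, 193, 54],
  [0, 235, 216, 17, 43, 9, 64],
  [0, 240, 126, 371, 132, 393, 29]]

/-- There is a Steiner system with parameters 505, 7, 2. -/
theorem ex : SteinerSystemExists 505 7 2 :=
  df_full 505 1 1 1 505 7 (by norm_num) (by norm_num) (by norm_num) (by norm_num)
    (by norm_num) (by norm_num) base (by decide +kernel) (by decide +kernel)

end Pool.Agent.H28.Steiner.K7V505
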