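import Mathlib
import Pool.Agent.H28.Steiner.DF

set_option autoImplicit false

namespace Pool.Agent.H28.Steiner.K7V589

/-- base blocks, coded elements of `Z_589 x Z_1 x Z_1 x Z_1` -/
def base : List (List ℕ) := [
  [0, 342, 233, 292, 577, 65, 122],
  [0, 95, 404, 466, 411, 335, 187],
  [0, 437, 163, 429, 358, 474, 56],
  [0, 190, 384, 23, 126, 355, 393],
  [0, 380, 252, 407, 66, 505, 30],
  [0, 133, 324, 305, 82, 206, 113],
  [0, 1, 154, 158, 48, 91, 454],
  [0, 343, 556, 294, 375, 415, 94],
  [0, 96, 101, 333, 201, 13, 339],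
  [0, 438, 42, 120, 330, 427, 410],
  [0, 286, 3, 423, 89, 147, 264],
  [0, 39, 41, 25, 85, 485, 15],
  [0, 571, 536, 387, 146, 34, 207],
  [0, 514, 270, 140, 412, 338, 568]]

/-- There is a Steiner system with parameters 589, 7, 2. -/
theorem ex : SteinerSystemExists 589 7 2 :=
  df_full 589 1 1 1 589 7 (by norm_num) (by norm_num) (by norm_num) (by norm_num)
    (by norm_num) (by norm_num) base (by decide +kernel) (by decide +kernel)

end Pool.Agent.H28.Steiner.K7V589
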