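import Mathlib
import Pool.Agent.H28.Steiner.DF

set_option autoImplicit false

namespace Pool.Agent.H28.Steiner.K7V925

/-- base blocks, coded elements of `Z_185 x Z_5 x Z_1 x Z_1` -/
def base : List (List ℕ) := [
  [0, 75, 20, 4146, 16434, 8328, 12387],
  [0, 150, 100, 116, 16405, 79, 4265],
  [0, 40, 105, 12429, 8214, 12421, 8296],
  [0, 115, 140, 8357, 12453, 16461, 4099],
  [0, 5, 175, 4142, 4188, 16402, 16393],
  [0, 155, 95, 42, 12410, 153, 8240],
  [0, 4171, 146, 4122, 8208, 4158, 8234],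
  [0, 4246, 8237, 16525, 4189, 12446, 16547],
  [0, 4136, 4177, 16435, 12435, 16486, 108],
  [0, 4211, 16505, 8204, 12470, 16481, 68],
  [0, 4141, 171, 12304, 12300, 16541, 16538],
  [0, 4216, 16559, 86, 4107, 184, 16548],
  [0, 4181, 8292, 61, 12380, 16546, 16503],
  [0, 4221, 8238, 4194, 12296, 4100, 12437],
  [0, 4151, 6, 12354, 16416, 12326, 16568],
  [0, 4226, 8358, 12345, 8280, 4195, 12447],
  [0, 4156, 101, 12349, 47, 12430, 16453],
  [0, 4201, 8332, 4218, 12295, 16386, 12347],
  [0, 8267, 126, 8323, 97, 8205, 16387],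
  [0, 8342, 16530, 92, 8269, 4174, 16408],
  [0, 8202, 16515, 8209, 16396, 8375, 16492],
  [0, 8207, 12394, 147, 8374, 12346, 4245]]

/-- There is a Steiner system with parameters 925, 7, 2. -/
theorem ex : SteinerSystemExists 925 7 2 :=
  df_full 185 5 1 1 925 7 (by norm_num) (by norm_num) (by norm_num) (by norm_num)
    (by norm_num) (by norm_num) base (by decide +kernel) (by decide +kernel)

end Pool.Agent.H28.Steiner.K7V925
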