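import Mathlib
import Pool.Agent.H28.Steiner.DF

set_option autoImplicit false

namespace Pool.Agent.H28.Steiner.K8V225

/-- base blocks, coded elements of `Z_15 x Z_15 x Z_1 x Z_1` -/
def base : List (List ℕ) := [
  [0, 10, 20487, 20493, 8192, 8194, 32768, 32776],
  [0, 40960, 40961, 40964, 45069, 24580, 36865, 57351],
  [0, 40970, 4101, 49153, 8201, 32774, 12292, 16389],
  [0, 40965, 24587, 4103, 8195, 32780, 16397, 36878]]

/-- There is a Steiner system with parameters 225, 8, 2. -/
theorem ex : SteinerSystemExists 225 8 2 :=
  df_full 15 15 1 1 225 8 (by norm_num) (by norm_num) (by norm_num) (by norm_num)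
    (by norm_num) (by norm_num) base (by decide +kernel) (by decide +kernel)

end Pool.Agent.H28.Steiner.K8V225
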