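import Mathlib
import Pool.Agent.H28.Steiner.DF

set_option autoImplicit false

namespace Pool.Agent.H28.Steiner.K8V337

/-- base blocks, coded elements of `Z_337 x Z_1 x Z_1 x Z_1` -/
def base : List (List ℕ) := [
  [0, 1, 30, 48, 84, 199, 214, 296],
  [0, 2, 14, 22, 90, 114, 189, 246],
  [0, 3, 26, 70, 77, 129, 157, 303],
  [0, 4, 65, 121, 200, 243, 306, 316],
  [0, 5, 16, 69, 177, 209, 287, 304],
  [0, 6, 19, 46, 155, 164, 236, 298]]

/-- There is a Steiner system with parameters 337, 8, 2. -/
theorem ex : SteinerSystemExists 337 8 2 :=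
  df_full 337 1 1 1 337 8 (by norm_num) (by norm_num) (by norm_num) (by norm_num)
    (by norm_num) (by norm_num) base (by decide +kernel) (by decide +kernel)

end Pool.Agent.H28.Steiner.K8V337
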