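import Mathlib
import Pool.Agent.H28.Steiner.DF

set_option autoImplicit false

namespace Pool.Agent.H28.Steiner.K9V1017

/-- base blocks, coded elements of `Z_1016 x Z_1 x Z_1 x Z_1` -/
def base : List (List ℕ) := [
  [0, 1, 48, 78, 222, 417, 584, 692, 1005],
  [0, 2, 163, 295, 386, 610, 880, 899, 966],
  [0, 3, 28, 44, 380, 437, 542, 702, 777],
  [0, 4, 18, 143, 394, 445, 609, 624, 688],
  [0, 5, 204, 249, 286, 558, 568, 705, 816],
  [0, 6, 90, 189, 457, 465, 587, 633, 667],
  [0, 7, 507, 533, 666, 739, 797, 836, 867],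
  [0, 9, 29, 246, 300, 400, 520, 718, 921],
  [0, 13, 35, 123, 378, 547, 663, 804, 989],
  [0, 17, 126, 192, 228, 304, 385, 566, 845],
  [0, 21, 93, 548, 655, 808, 871, 895, 963],
  [0, 23, 61, 484, 747, 789, 832, 887, 983],
  [0, 32, 101, 266, 452, 586, 704, 839, 945],
  [0, 49, 231, 422, 537, 695, 755, 868, 951]]

/-- the subgroup -/
def D : List ℕ := [0, 127, 254, 381, 508, 635, 762, 889]

/-- translations of the subgroup -/
def T : List ℕ :=
  [0, 1015, 1014, 1013, 1012, 1011, 1010, 1009, 1008, 1007, 1006, 1005, 1004, 1003, 1002, 1001,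
  1000, 999, 998, 997, 996, 995, 994, 993, 992, 991, 990, 989, 988, 987, 986, 985, 984, 983,
  982, 981, 980, 979, 978, 977, 976, 975, 974, 973, 972, 971, 970, 969, 968, 967, 966, 965, 964,
  963, 962, 961, 960, 959, 958, 957, 956, 955, 954, 953, 952, 951, 950, 949, 948, 947, 946, 945,
  944, 943, 942, 941, 940, 939, 938, 937, 936, 935, 934, 933, 932, 931, 930, 929, 928, 927, 926,
  925, 924, 923, 922, 921, 920, 919, 918, 917, 916, 915, 914, 913, 912, 911, 910, 909, 908, 907,
  906, 905, 904, 903, 902, 901, 900, 899, 898, 897, 896, 895, 894, 893, 892, 891, 890]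

/-- There is a Steiner system with parameters 1017, 9, 2. -/
theorem ex : SteinerSystemExists 1017 9 2 :=
  df_rot 1016 1 1 1 1016 9 (by norm_num) (by norm_num) (by norm_num) (by norm_num)
    (by norm_num) (by norm_num) base D T (by decide +kernel) (by decide +kernel)
    (by decide +kernel)

end Pool.Agent.H28.Steiner.K9V1017
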