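import Mathlib
import Pool.Agent.H28.Steiner.DF

set_option autoImplicit false

namespace Pool.Agent.H28.Steiner.K9V1305

/-- base blocks, coded elements of `Z_1304 x Z_1 x Z_1 x Z_1` -/
def base : List (List ℕ) := [
  [0, 1, 38, 42, 138, 289, 651, 750, 1222],
  [0, 2, 194, 204, 547, 616, 773, 946, 1249],
  [0, 3, 188, 642, 666, 957, 993, 1104, 1274],
  [0, 5, 89, 165, 217, 546, 599, 920, 1229],
  [0, 6, 447, 628, 743, 860, 968, 1164, 1225],
  [0, 7, 46, 222, 456, 505, 523, 570, 800],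
  [0, 8, 20, 372, 440, 491, 739, 949, 1170],
  [0, 9, 178, 279, 664, 776, 838, 902, 1099],
  [0, 11, 136, 901, 1033, 1050, 1124, 1138, 1194],
  [0, 13, 429, 753, 775, 825, 898, 1088, 1109],
  [0, 15, 183, 273, 305, 700, 994, 1019, 1201],
  [0, 16, 94, 235, 322, 720, 878, 1111, 1145],
  [0, 19, 167, 262, 339, 667, 853, 1054, 1207],
  [0, 23, 361, 453, 605, 698, 761, 1029, 1200],
  [0, 26, 54, 135, 278, 544, 657, 723, 912],
  [0, 27, 71, 307, 494, 534, 867, 927, 1245],
  [0, 29, 131, 162, 260, 532, 808, 947, 992],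
  [0, 35, 241, 610, 809, 852, 959, 1007, 1065]]

/-- the subgroup -/
def D : List ℕ := [0, 163, 326, 489, 652, 815, 978, 1141]

/-- translations of the subgroup -/
def T : List ℕ :=
  [0, 1303, 1302, 1301, 1300, 1299, 1298, 1297, 1296, 1295, 1294, 1293, 1292, 1291, 1290, 1289,
  1288, 1287, 1286, 1285, 1284, 1283, 1282, 1281, 1280, 1279, 1278, 1277, 1276, 1275, 1274,
  1273, 1272, 1271, 1270, 1269, 1268, 1267, 1266, 1265, 1264, 1263, 1262, 1261, 1260, 1259,
  1258, 1257, 1256, 1255, 1254, 1253, 1252, 1251, 1250, 1249, 1248, 1247, 1246, 1245, 1244,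
  1243, 1242, 1241, 1240, 1239, 1238, 1237, 1236, 1235, 1234, 1233, 1232, 1231, 1230, 1229,
  1228, 1227, 1226, 1225, 1224, 1223, 1222, 1221, 1220, 1219, 1218, 1217, 1216, 1215, 1214,
  1213, 1212, 1211, 1210, 1209, 1208, 1207, 1206, 1205, 1204, 1203, 1202, 1201, 1200, 1199,
  1198, 1197, 1196, 1195, 1194, 1193, 1192, 1191, 1190, 1189, 1188, 1187, 1186, 1185, 1184,
  1183, 1182, 1181, 1180, 1179, 1178, 1177, 1176, 1175, 1174, 1173, 1172, 1171, 1170, 1169,
  1168, 1167, 1166, 1165, 1164, 1163, 1162, 1161, 1160, 1159, 1158, 1157, 1156, 1155, 1154,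
  1153, 1152, 1151, 1150, 1149, 1148, 1147, 1146, 1145, 1144, 1143, 1142]

/-- There is a Steiner system with parameters 1305, 9, 2. -/
theorem ex : SteinerSystemExists 1305 9 2 :=
  df_rot 1304 1 1 1 1304 9 (by norm_num) (by norm_num) (by norm_num) (by norm_num)
    (by norm_num) (by norm_num) base D T (by decide +kernel) (by decide +kernel)
    (by decide +kernel)

end Pool.Agent.H28.Steiner.K9V1305
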