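import Mathlib
import Pool.Agent.H28.Steiner.DF

set_option autoImplicit false

namespace Pool.Agent.H28.Steiner.K9V1449

/-- base blocks, coded elements of `Z_1448 x Z_1 x Z_1 x Z_1` -/
def base : List (List ℕ) := [
  [0, 1, 97, 232, 254, 478, 1094, 1185, 1232],
  [0, 2, 123, 158, 402, 544, 684, 831, 1411],
  [0, 3, 222, 626, 851, 856, 911, 1236, 1298],
  [0, 4, 27, 255, 737, 804, 913, 923, 1437],
  [0, 6, 214, 652, 784, 793, 817, 1085, 1098],
  [0, 7, 108, 667, 713, 789, 1091, 1121, 1436],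
  [0, 8, 25, 366, 392, 558, 665, 977, 1286],
  [0, 14, 98, 188, 347, 428, 567, 1030, 1263],
  [0, 16, 149, 180, 954, 1041, 1238, 1337, 1390],
  [0, 18, 66, 270, 476, 852, 957, 1353, 1397],
  [0, 20, 65, 551, 669, 859, 945, 995, 1124],
  [0, 21, 80, 137, 169, 398, 426, 900, 1158],
  [0, 29, 143, 277, 348, 584, 785, 855, 1275],
  [0, 34, 83, 144, 322, 690, 1051, 1179, 1264],
  [0, 36, 278, 353, 770, 872, 1281, 1333, 1406],
  [0, 40, 382, 512, 638, 849, 1153, 1265, 1342],
  [0, 41, 237, 412, 686, 750, 984, 1138, 1385],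
  [0, 43, 131, 286, 340, 746, 991, 1168, 1250],
  [0, 56, 124, 227, 306, 399, 499, 982, 1074],
  [0, 72, 293, 487, 632, 823, 1023, 1117, 1285]]

/-- the subgroup -/
def D : List ℕ := [0, 181, 362, 543, 724, 905, 1086, 1267]

/-- translations of the subgroup -/
def T : List ℕ :=
  [0, 1447, 1446, 1445, 1444, 1443, 1442, 1441, 1440, 1439, 1438, 1437, 1436, 1435, 1434, 1433,
  1432, 1431, 1430, 1429, 1428, 1427, 1426, 1425, 1424, 1423, 1422, 1421, 1420, 1419, 1418,
  1417, 1416, 1415, 1414, 1413, 1412, 1411, 1410, 1409, 1408, 1407, 1406, 1405, 1404, 1403,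
  1402, 1401, 1400, 1399, 1398, 1397, 1396, 1395, 1394, 1393, 1392, 1391, 1390, 1389, 1388,
  1387, 1386, 1385, 1384, 1383, 1382, 1381, 1380, 1379, 1378, 1377, 1376, 1375, 1374, 1373,
  1372, 1371, 1370, 1369, 1368, 1367, 1366, 1365, 1364, 1363, 1362, 1361, 1360, 1359, 1358,
  1357, 1356, 1355, 1354, 1353, 1352, 1351, 1350, 1349, 1348, 1347, 1346, 1345, 1344, 1343,
  1342, 1341, 1340, 1339, 1338, 1337, 1336, 1335, 1334, 1333, 1332, 1331, 1330, 1329, 1328,
  1327, 1326, 1325, 1324, 1323, 1322, 1321, 1320, 1319, 1318, 1317, 1316, 1315, 1314, 1313,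
  1312, 1311, 1310, 1309, 1308, 1307, 1306, 1305, 1304, 1303, 1302, 1301, 1300, 1299, 1298,
  1297, 1296, 1295, 1294, 1293, 1292, 1291, 1290, 1289, 1288, 1287, 1286, 1285, 1284, 1283,
  1282, 1281, 1280, 1279, 1278, 1277, 1276, 1275, 1274, 1273, 1272, 1271, 1270, 1269, 1268]

/-- There is a Steiner system with parameters 1449, 9, 2. -/
theorem ex : SteinerSystemExists 1449 9 2 :=
  df_rot 1448 1 1 1 1448 9 (by norm_num) (by norm_num) (by norm_num) (by norm_num)
    (by norm_num) (by norm_num) base D T (by decide +kernel) (by decide +kernel)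
    (by decide +kernel)

end Pool.Agent.H28.Steiner.K9V1449
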