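import Mathlib
import Pool.Agent.H28.Steiner.DF

set_option autoImplicit false

namespace Pool.Agent.H28.Steiner.K9V1593

/-- base blocks, coded elements of `Z_1592 x Z_1 x Z_1 x Z_1` -/
def base : List (List ℕ) := [
  [0, 1, 267, 817, 1020, 1041, 1079, 1358, 1559],
  [0, 2, 8, 89, 218, 471, 669, 1346, 1388],
  [0, 3, 96, 247, 519, 619, 679, 950, 1085],
  [0, 4, 13, 618, 948, 1189, 1203, 1316, 1576],
  [0, 5, 355, 536, 694, 763, 1263, 1287, 1455],
  [0, 7, 18, 133, 445, 837, 1291, 1435, 1500],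
  [0, 10, 233, 323, 797, 825, 870, 1011, 1075],
  [0, 12, 107, 173, 195, 586, 847, 981, 1309],
  [0, 15, 121, 153, 193, 342, 467, 783, 836],
  [0, 17, 337, 376, 487, 528, 924, 1430, 1524],
  [0, 19, 55, 103, 503, 608, 710, 1267, 1565],
  [0, 23, 208, 364, 465, 920, 977, 1094, 1324],
  [0, 25, 83, 370, 419, 450, 558, 790, 1402],
  [0, 26, 388, 570, 647, 682, 1096, 1241, 1381],
  [0, 30, 256, 520, 881, 956, 1207, 1244, 1353],
  [0, 43, 578, 721, 843, 934, 1013, 1209, 1283],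
  [0, 44, 220, 343, 497, 697, 760, 1206, 1488],
  [0, 47, 98, 458, 508, 680, 1306, 1473, 1525],
  [0, 54, 132, 375, 617, 857, 1163, 1281, 1343],
  [0, 56, 187, 284, 468, 588, 826, 997, 1133],
  [0, 61, 177, 379, 534, 610, 681, 1099, 1395],
  [0, 70, 194, 322, 491, 654, 890, 1347, 1433]]

/-- the subgroup -/
def D : List ℕ := [0, 199, 398, 597, 796, 995, 1194, 1393]

/-- translations of the subgroup -/
def T : List ℕ :=
  [0, 1591, 1590, 1589, 1588, 1587, 1586, 1585, 1584, 1583, 1582, 1581, 1580, 1579, 1578, 1577,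
  1576, 1575, 1574, 1573, 1572, 1571, 1570, 1569, 1568, 1567, 1566, 1565, 1564, 1563, 1562,
  1561, 1560, 1559, 1558, 1557, 1556, 1555, 1554, 1553, 1552, 1551, 1550, 1549, 1548, 1547,
  1546, 1545, 1544, 1543, 1542, 1541, 1540, 1539, 1538, 1537, 1536, 1535, 1534, 1533, 1532,
  1531, 1530, 1529, 1528, 1527, 1526, 1525, 1524, 1523, 1522, 1521, 1520, 1519, 1518, 1517,
  1516, 1515, 1514, 1513, 1512, 1511, 1510, 1509, 1508, 1507, 1506, 1505, 1504, 1503, 1502,
  1501, 1500, 1499, 1498, 1497, 1496, 1495, 1494, 1493, 1492, 1491, 1490, 1489, 1488, 1487,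
  1486, 1485, 1484, 1483, 1482, 1481, 1480, 1479, 1478, 1477, 1476, 1475, 1474, 1473, 1472,
  1471, 1470, 1469, 1468, 1467, 1466, 1465, 1464, 1463, 1462, 1461, 1460, 1459, 1458, 1457,
  1456, 1455, 1454, 1453, 1452, 1451, 1450, 1449, 1448, 1447, 1446, 1445, 1444, 1443, 1442,
  1441, 1440, 1439, 1438, 1437, 1436, 1435, 1434, 1433, 1432, 1431, 1430, 1429, 1428, 1427,
  1426, 1425, 1424, 1423, 1422, 1421, 1420, 1419, 1418, 1417, 1416, 1415, 1414, 1413, 1412,
  1411, 1410, 1409, 1408, 1407, 1406, 1405, 1404, 1403, 1402, 1401, 1400, 1399, 1398, 1397,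
  1396, 1395, 1394]

/-- There is a Steiner system with parameters 1593, 9, 2. -/
theorem ex : SteinerSystemExists 1593 9 2 :=
  df_rot 1592 1 1 1 1592 9 (by norm_num) (by norm_num) (by norm_num) (by norm_num)
    (by norm_num) (by norm_num) base D T (by decide +kernel) (by decide +kernel)
    (by decide +kernel)

end Pool.Agent.H28.Steiner.K9V1593
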