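import Mathlib
import Pool.Agent.H28.Steiner.DF

set_option autoImplicit false

namespace Pool.Agent.H28.Steiner.K9V289

/-- base blocks, coded elements of `Z_17 x Z_17 x Z_1 x Z_1` -/
def base : List (List ℕ) := [
  [0, 1, 4109, 20489, 32775, 32783, 57353, 57360, 65538],
  [0, 2, 8194, 8207, 20492, 24576, 28675, 28681, 61452],
  [0, 3, 4106, 8204, 20482, 24582, 36865, 49166, 65545],
  [0, 5, 8196, 12292, 16394, 28676, 32769, 53264, 57344]]

/-- There is a Steiner system with parameters 289, 9, 2. -/
theorem ex : SteinerSystemExists 289 9 2 :=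
  df_full 17 17 1 1 289 9 (by norm_num) (by norm_num) (by norm_num) (by norm_num)
    (by norm_num) (by norm_num) base (by decide +kernel) (by decide +kernel)

end Pool.Agent.H28.Steiner.K9V289
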