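import Mathlib
import Pool.Agent.H28.Steiner.DF

set_option autoImplicit false

namespace Pool.Agent.H28.Steiner.K9V3241

/-- base blocks, coded elements of `Z_3241 x Z_1 x Z_1 x Z_1` -/
def base : List (List ℕ) := [
  [0, 1, 373, 835, 1125, 1371, 1651, 2590, 3014],
  [0, 2, 184, 354, 1250, 1331, 1641, 1930, 3137],
  [0, 3, 437, 478, 774, 2031, 2070, 2378, 2452],
  [0, 4, 29, 225, 846, 1197, 2082, 2299, 3005],
  [0, 5, 645, 1510, 1701, 1837, 1965, 2059, 2377],
  [0, 6, 22, 905, 1283, 1469, 2284, 2728, 2892],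
  [0, 7, 924, 1393, 1750, 1761, 2009, 2687, 3003],
  [0, 8, 799, 936, 1346, 1434, 1925, 2334, 3209],
  [0, 9, 2013, 2105, 2221, 2732, 2769, 2917, 3018],
  [0, 10, 614, 691, 1422, 1468, 1502, 2107, 2640],
  [0, 12, 582, 1206, 1345, 1362, 1472, 1525, 2202],
  [0, 13, 271, 538, 969, 1747, 1817, 2268, 2436],
  [0, 14, 129, 529, 1041, 1973, 2017, 2696, 2761],
  [0, 15, 829, 1264, 1700, 2234, 2469, 2527, 2719],
  [0, 18, 562, 1464, 2533, 2699, 2770, 2900, 3116],
  [0, 19, 949, 1094, 1500, 1533, 1599, 2106, 3177],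
  [0, 20, 981, 1342, 1809, 2193, 2296, 2558, 2773],
  [0, 21, 59, 1006, 1394, 1996, 2237, 2386, 2593],
  [0, 23, 1053, 1479, 1853, 1932, 2192, 2607, 3054],
  [0, 24, 820, 1114, 1383, 1970, 2435, 2669, 3066],
  [0, 26, 750, 1047, 2488, 2574, 2739, 3132, 3159],
  [0, 28, 91, 348, 1043, 1428, 1737, 3143, 3185],
  [0, 30, 171, 328, 1153, 1255, 2030, 2771, 3109],
  [0, 31, 118, 278, 735, 1421, 2599, 2733, 3103],
  [0, 35, 1148, 1184, 1571, 1916, 2218, 2549, 3022],
  [0, 43, 1108, 1766, 1944, 2061, 2373, 2655, 3041],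
  [0, 45, 121, 809, 878, 1061, 1222, 1506, 1611],
  [0, 47, 428, 700, 1140, 1298, 1349, 2199, 2954],
  [0, 48, 369, 872, 1328, 2068, 2479, 2758, 2909],
  [0, 49, 1356, 1722, 2099, 2297, 2724, 2838, 3015],
  [0, 50, 350, 845, 1567, 1667, 1719, 1779, 1972],
  [0, 54, 383, 666, 847, 1821, 2505, 2899, 3021],
  [0, 55, 340, 1010, 1105, 1628, 2205, 3099, 3156],
  [0, 61, 123, 459, 782, 2319, 2809, 2942, 3039],
  [0, 67, 322, 1357, 1425, 2360, 2532, 2973, 3097],
  [0, 72, 277, 510, 853, 1170, 1485, 2227, 2403],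
  [0, 73, 662, 880, 1161, 1523, 1799, 2569, 2757],
  [0, 75, 454, 1681, 2011, 2130, 2578, 2745, 3121],
  [0, 78, 292, 1077, 1707, 1880, 2186, 2275, 2767],
  [0, 90, 443, 622, 929, 1787, 1940, 2201, 2968],
  [0, 93, 906, 1407, 2072, 2316, 2490, 2586, 3110],
  [0, 107, 506, 908, 1327, 1905, 2381, 2587, 3037],
  [0, 111, 314, 553, 747, 960, 1073, 1570, 2468],
  [0, 146, 301, 702, 892, 1419, 2012, 2604, 3012],
  [0, 150, 392, 1176, 1764, 1995, 2359, 2928, 3087]]

/-- There is a Steiner system with parameters 3241, 9, 2. -/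
theorem ex : SteinerSystemExists 3241 9 2 :=
  df_full 3241 1 1 1 3241 9 (by norm_num) (by norm_num) (by norm_num) (by norm_num)
    (by norm_num) (by norm_num) base (by decide +kernel) (by decide +kernel)

end Pool.Agent.H28.Steiner.K9V3241
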