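import Mathlib
import Pool.Agent.H28.Steiner.DF

set_option autoImplicit false

namespace Pool.Agent.H28.Steiner.K9V873

/-- base blocks, coded elements of `Z_291 x Z_3 x Z_1 x Z_1` -/
def base : List (List ℕ) := [
  [0, 195, 4197, 4222, 8230, 4145, 8446, 4165, 4287],
  [0, 1, 8391, 38, 8457, 172, 270, 4375, 4378],
  [0, 4291, 4112, 4321, 129, 8341, 4248, 4170, 8269],
  [0, 4097, 7, 8311, 137, 251, 8461, 187, 4289],
  [0, 4194, 8, 13, 212, 4218, 123, 8426, 8372],
  [0, 196, 4213, 23, 4219, 238, 240, 8343, 8475],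
  [0, 4195, 8308, 8416, 4240, 243, 4353, 4169, 4179],
  [0, 4292, 198, 4209, 4309, 8335, 8344, 4372, 4278],
  [0, 4098, 4131, 231, 8234, 242, 67, 86, 8381],
  [0, 4, 4204, 8232, 143, 8244, 4177, 88, 189],
  [0, 4100, 8395, 28, 131, 257, 166, 8377, 4286],
  [0, 4298, 8404, 223, 41, 56, 262, 8368, 4379]]

/-- the subgroup -/
def D : List ℕ := [0, 97, 194, 4096, 4193, 4290, 8192, 8289, 8386]

/-- translations of the subgroup -/
def T : List ℕ :=
  [0, 290, 289, 288, 287, 286, 285, 284, 283, 282, 281, 280, 279, 278, 277, 276, 275, 274, 273,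
  272, 271, 270, 269, 268, 267, 266, 265, 264, 263, 262, 261, 260, 259, 258, 257, 256, 255, 254,
  253, 252, 251, 250, 249, 248, 247, 246, 245, 244, 243, 242, 241, 240, 239, 238, 237, 236, 235,
  234, 233, 232, 231, 230, 229, 228, 227, 226, 225, 224, 223, 222, 221, 220, 219, 218, 217, 216,
  215, 214, 213, 212, 211, 210, 209, 208, 207, 206, 205, 204, 203, 202, 201, 200, 199, 198, 197,
  196, 195]

/-- There is a Steiner system with parameters 873, 9, 2. -/
theorem ex : SteinerSystemExists 873 9 2 :=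
  df_short 291 3 1 1 873 9 (by norm_num) (by norm_num) (by norm_num) (by norm_num)
    (by norm_num) (by norm_num) base D T (by decide +kernel) (by decide +kernel)
    (by decide +kernel)

end Pool.Agent.H28.Steiner.K9V873
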