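import Mathlib
import Pool.Agent.H28.Steiner.DF
import Pool.Agent.H28.Steiner.Rec

set_option autoImplicit false

namespace Pool.Agent.H28.Steiner

open Finset

/-- PBD closure in counting form for arbitrary weights. -/
theorem GDD_of_pbd {k w : ℕ} {X I : Type} [Fintype X] [DecidableEq X] [Fintype I]
    (A : I → Finset X) (s : I → ℕ) (hs : ∀ i, 2 ≤ s i) (hcard : ∀ i, (A i).card ≤ s i)
    (hsum : ∑ i, s i * (s i - 1) = Fintype.card X * (Fintype.card X - 1))
    (hcov : ∀ x y : X, x ≠ y → ∃ i, x ∈ A i ∧ y ∈ A i) (hR : ∀ i, GDD k w (Fin (s i))) :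
    GDD k w X := by
  classical
  obtain ⟨N, hN⟩ : ∃ N : X × X → ℕ, ∀ p, N p =
      ∑ i : I, if p ∈ (A i).offDiag then 1 else 0 := ⟨_, fun _ => rfl⟩
  have hN1 : ∀ p ∈ (univ : Finset X).offDiag, 1 ≤ N p := by
    intro p hp
    rw [mem_offDiag] at hp
    obtain ⟨i, h1, h2⟩ := hcov p.1 p.2 hp.2.2
    rw [hN]
    refine le_trans ?_ (single_le_sum (f := fun i : I =>
      if p ∈ (A i).offDiag then 1 else 0) (fun _ _ => Nat.zero_le _) (mem_univ i))
    rw [if_pos]
    rw [mem_offDiag]
    exact ⟨h1, h2, hp.2.2⟩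
  have hsum' : ∑ p ∈ (univ : Finset X).offDiag, N p = ∑ i : I, (A i).offDiag.card := by
    simp only [hN]
    rw [sum_comm]
    apply sum_congr rfl
    intro i _
    rw [← sum_filter, sum_const, smul_eq_mul, mul_one]
    congr 1
    ext p
    simp only [mem_filter, mem_offDiag, mem_univ, true_and]
    exact ⟨fun h => h.2, fun h => ⟨h.2.2, h⟩⟩
  have hoff : ∀ i : I, (A i).offDiag.card ≤ s i * (s i - 1) := by
    intro i
    rw [offDiag_card]
    calc (A i).card * (A i).card - (A i).card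
        = (A i).card * ((A i).card - 1) := by rw [Nat.mul_sub, mul_one]
      _ ≤ s i * (s i - 1) := Nat.mul_le_mul (hcard i) (Nat.sub_le_sub_right (hcard i) 1)
  have hpairs : (univ : Finset X).offDiag.card = Fintype.card X * (Fintype.card X - 1) := by
    rw [offDiag_card, card_univ, Nat.mul_sub, mul_one]
  have hge : Fintype.card X * (Fintype.card X - 1) ≤ ∑ p ∈ (univ : Finset X).offDiag, N p := by
    rw [← hpairs, card_eq_sum_ones]
    exact sum_le_sum hN1
  have hle : ∑ i : I, (A i).offDiag.card ≤ Fintype.card X * (Fintype.card X - 1) := by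
    rw [← hsum]
    exact sum_le_sum (fun i _ => hoff i)
  have hNeq : ∀ p ∈ (univ : Finset X).offDiag, N p = 1 := by
    have h1 : ∑ p ∈ (univ : Finset X).offDiag, 1 =
        ∑ p ∈ (univ : Finset X).offDiag, N p := by
      rw [← card_eq_sum_ones, hpairs]
      omega
    intro p hp
    exact ((sum_eq_sum_iff_of_le hN1).1 h1 p hp).symm
  have hoffeq : ∀ i : I, (A i).offDiag.card = s i * (s i - 1) := by
    have h1 : ∑ i : I, (A i).offDiag.card = ∑ i : I, s i * (s i - 1) := by omega
    intro i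
    exact (sum_eq_sum_iff_of_le (fun i _ => hoff i)).1 h1 i (mem_univ i)
  have hceq : ∀ i : I, (A i).card = s i := by
    intro i
    have h1 := hoffeq i
    rw [offDiag_card] at h1
    have h2 : (A i).card * ((A i).card - 1) = s i * (s i - 1) := by
      rw [Nat.mul_sub, mul_one]; exact h1
    by_contra hne
    have h4 : (A i).card < s i := lt_of_le_of_ne (hcard i) hne
    have h5 : (A i).card * ((A i).card - 1) < s i * (s i - 1) := by
      have h6 := hs i
      calc (A i).card * ((A i).card - 1) ≤ (A i).card * (s i - 1) :=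
            Nat.mul_le_mul_left _ (by omega)
        _ < s i * (s i - 1) := Nat.mul_lt_mul_of_pos_right h4 (by omega)
    omega
  refine GDD.closure (I := I) (fun i => (A i : Set X)) ?_ ?_
  · intro x y hxy
    obtain ⟨i, h1, h2⟩ := hcov x y hxy
    refine ⟨i, ⟨h1, h2⟩, ?_⟩
    rintro j ⟨h3, h4⟩
    by_contra hij
    have h5 := hNeq (x, y) (mem_offDiag.2 ⟨mem_univ _, mem_univ _, hxy⟩)
    rw [hN] at h5
    have h6 : ∑ l ∈ ({i, j} : Finset I), (if (x, y) ∈ (A l).offDiag then 1 else 0) ≤ 1 := by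
      exact (sum_le_sum_of_subset (f := fun l : I => if (x, y) ∈ (A l).offDiag then 1 else 0)
        (subset_univ ({i, j} : Finset I))).trans h5.le
    rw [sum_pair (fun e => hij e.symm), if_pos (mem_offDiag.2 ⟨h1, h2, hxy⟩),
      if_pos (mem_offDiag.2 ⟨h3, h4, hxy⟩)] at h6
    omega
  · intro i
    have hc : Nat.card ((A i : Finset X) : Set X) = s i := by
      rw [Nat.card_coe_set_eq, Set.ncard_coe_finset, hceq]
    have e : Fin (s i) ≃ ((A i : Finset X) : Set X) := by
      have := (Finite.equivFin ((A i : Finset X) : Set X)).symm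
      rwa [hc] at this
    exact GDD.congr e (hR i)

/-- Steiner systems are group divisible designs of type `1^v`. -/
theorem gdd_one_of_steiner {n k : ℕ} (h : SteinerSystemExists n k 2) : GDD k 1 (Fin n) := by
  classical
  obtain ⟨B, hB⟩ := h
  have hp := pairs_of_isSteiner hB
  let f : Fin n × Fin 1 ≃ Fin n := Equiv.prodUnique _ _
  have hf : ∀ x, f x = x.1 := fun _ => rfl
  have hmem : ∀ (c : Finset (Fin n × Fin 1)) (x : Fin n × Fin 1), x.1 ∈ c.map f.toEmbedding ↔
      x ∈ c := by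
    intro c x
    exact mem_map' f.toEmbedding
  refine ⟨{b | b.map f.toEmbedding ∈ B}, ?_, ?_, ?_⟩
  · intro b hb
    have := hB.1 _ hb
    rwa [card_map] at this
  · intro b _ p _ q _ hpq
    exact f.injective hpq
  · intro p q hpq
    obtain ⟨b, ⟨hb, h1, h2⟩, hu⟩ := hp p.1 q.1 hpq
    have hb' : (b.map f.symm.toEmbedding).map f.toEmbedding = b := by
      rw [map_map]
      convert map_refl
      ext x
      simp
    refine ⟨b.map f.symm.toEmbedding, ⟨?_, ?_, ?_⟩, ?_⟩
    · change _ ∈ B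
      rw [hb']; exact hb
    · rw [← hmem, hb']; exact h1
    · rw [← hmem, hb']; exact h2
    · rintro c ⟨hc, hcp, hcq⟩
      have := hu _ ⟨hc, (hmem _ _).2 hcp, (hmem _ _).2 hcq⟩
      rw [← this, map_map]
      symm
      convert map_refl
      ext x <;> simp

theorem steiner_of_gdd_one {X : Type} [Fintype X] {n k : ℕ} (hn : Fintype.card X = n)
    (h : GDD k 1 X) : SteinerSystemExists n k 2 := by
  classical
  obtain ⟨B, h1, _, h3⟩ := h
  have hn' : Fintype.card (X × Fin 1) = n := by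
    rw [Fintype.card_prod, Fintype.card_fin, mul_one, hn]
  refine exists_of_isSteiner hn' (isSteiner_of_pairs B h1 ?_)
  intro p q hpq
  refine h3 p q (fun h => hpq (Prod.ext h (Subsingleton.elim _ _)))

theorem gdd_one_self {k : ℕ} : GDD k 1 (Fin k) := by
  classical
  refine ⟨{univ}, ?_, ?_, ?_⟩
  · rintro b rfl
    rw [card_univ, Fintype.card_prod, Fintype.card_fin, Fintype.card_fin, mul_one]
  · intro b _ p _ q _ hpq
    exact Prod.ext hpq (Subsingleton.elim _ _)
  · intro p q _
    exact ⟨univ, ⟨rfl, mem_univ _, mem_univ _⟩, fun c hc => hc.1⟩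

/-! ### Several copies of `Z_n` plus extra points -/

/-- the point set -/
abbrev MP (c n f : ℕ) : Type := (ZMod c × ZMod n) ⊕ Fin f

/-- copy of a code -/
def cpy (x : ℕ) : ℕ := Nat.div x 4096
/-- residue of a code -/
def res (x : ℕ) : ℕ := Nat.mod x 4096

/-- index of an ordered pair of coded points -/
def pIdx (c n x y : ℕ) : ℕ :=
  Nat.add (Nat.mul (Nat.add (Nat.mul (Nat.mod (cpy x) c) c) (Nat.mod (cpy y) c)) n)
    (sb n (res y) (res x))

/-- index of a shifted point -/
def sIdx (c n t x : ℕ) : ℕ :=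
  Nat.add (Nat.mul (Nat.mod (cpy x) c) n) (Nat.mod (Nat.add (res x) t) n)

/-- An entry of the list of base blocks: the number of translates used, the extra point (`0` for
none, `j + 1` for the extra point `j`) and the codes of the other points. -/
abbrev Entry : Type := ℕ × ℕ × List ℕ

/-- mask of the pairs of all entries -/
noncomputable def eMask (c n : ℕ) (E : List Entry) : ℕ :=
  List.rec 0 (fun e _ ih => Nat.lor (pairMask (pIdx c n) e.2.2 e.2.2) ih) E

/-- mask of the incidences extra point - copy -/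
noncomputable def xMask (c : ℕ) (E : List Entry) : ℕ :=
  List.rec 0 (fun e _ ih => Nat.lor
    (rowMask (fun x => Nat.add (Nat.mul e.2.1 c) (Nat.mod (cpy x) c)) e.2.2) ih) E

/-- per entry conditions -/
noncomputable def eCheck (c n f k : ℕ) (E : List Entry) : Bool :=
  List.rec true (fun e _ ih => and (and (Nat.ble 1 e.1) (and (Nat.ble e.2.1 f)
    (and (Nat.ble (Nat.add (llen e.2.2) (Nat.rec 0 (fun _ _ => 1) e.2.1)) k)
    (Nat.beq (rowMask (sIdx c n e.1) e.2.2) (rowMask (sIdx c n 0) e.2.2))))) ih) E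

/-- the full check -/
noncomputable def multiCheck (c n f k : ℕ) (E : List Entry) : Bool :=
  and (eCheck c n f k E)
    (and (Nat.beq (eMask c n E) (Nat.sub (Nat.pow 2 (Nat.mul (Nat.mul c c) n)) 1))
      (Nat.beq (Nat.shiftRight (xMask c E) c) (Nat.sub (Nat.pow 2 (Nat.mul f c)) 1)))

/-- decoded point -/
def dpt (c n : ℕ) (x : ℕ) : ZMod c × ZMod n := (((cpy x : ℕ) : ZMod c), ((res x : ℕ) : ZMod n))

/-- block of an entry, translated by `s` -/
def blk (c n f : ℕ) (e : Entry) (s : ℕ) : Finset (MP c n f) :=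
  (e.2.2.map (fun x => (Sum.inl ((dpt c n x).1, (dpt c n x).2 + (s : ZMod n)) :
    MP c n f))).toFinset ∪
  (univ.filter (fun z : Fin f => z.val + 1 = e.2.1)).map Function.Embedding.inr

lemma blk_card (c n f : ℕ) (e : Entry) (s : ℕ) :
    (blk c n f e s).card ≤ e.2.2.length + (if e.2.1 = 0 then 0 else 1) := by
  unfold blk
  refine (card_union_le _ _).trans (Nat.add_le_add ?_ ?_)
  · exact (List.toFinset_card_le _).trans (by rw [List.length_map])
  · rw [card_map]
    split_ifs with h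
    · rw [h, Nat.le_zero, card_eq_zero, filter_eq_empty_iff]
      intro z _ h2
      omega
    · rw [card_le_one]
      intro a ha b hb
      rw [mem_filter] at ha hb
      exact Fin.ext (by omega)

lemma mem_blk_inl {c n f : ℕ} {e : Entry} {s : ℕ} {p : ZMod c × ZMod n} :
    (Sum.inl p : MP c n f) ∈ blk c n f e s ↔
      ∃ x ∈ e.2.2, (dpt c n x).1 = p.1 ∧ (dpt c n x).2 + (s : ZMod n) = p.2 := by
  unfold blk
  rw [mem_union, List.mem_toFinset, List.mem_map]
  constructor
  · rintro (⟨x, hx, h⟩ | h)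
    · have h' := Sum.inl.inj h
      exact ⟨x, hx, by rw [← h'], by rw [← h']⟩
    · rw [mem_map] at h
      obtain ⟨_, _, h⟩ := h
      exact absurd h (by simp)
  · rintro ⟨x, hx, h1, h2⟩
    exact Or.inl ⟨x, hx, by rw [h1, h2]⟩

lemma mem_blk_inr {c n f : ℕ} {e : Entry} {s : ℕ} {z : Fin f} :
    (Sum.inr z : MP c n f) ∈ blk c n f e s ↔ z.val + 1 = e.2.1 := by
  unfold blk
  rw [mem_union, List.mem_toFinset, List.mem_map]
  constructor
  · rintro (⟨x, hx, h⟩ | h)
    · exact absurd h (by simp)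
    · rw [mem_map] at h
      obtain ⟨y, hy, h⟩ := h
      rw [mem_filter] at hy
      rw [← Sum.inr.inj h]
      exact hy.2
  · intro h
    exact Or.inr (mem_map.2 ⟨z, mem_filter.2 ⟨mem_univ _, h⟩, rfl⟩)

lemma rowMask_mem (f : ℕ → ℕ) (B : List ℕ) (y : ℕ) (hy : y ∈ B) :
    (rowMask f B).testBit (f y) = true := by
  induction B with
  | nil => exact absurd hy (by simp)
  | cons z B ih =>
    have h0 : rowMask f (z :: B) = (1 <<< (f z)) ||| rowMask f B := rfl
    rw [h0, Nat.testBit_or, Bool.or_eq_true]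
    rcases List.mem_cons.1 hy with rfl | hy
    · left
      rw [Nat.one_shiftLeft, Nat.testBit_two_pow]
      exact decide_eq_true rfl
    · right; exact ih hy

lemma eMask_testBit (c n : ℕ) (E : List Entry) (i : ℕ) (h : (eMask c n E).testBit i = true) :
    ∃ l : Fin E.length, ∃ x ∈ (E.get l).2.2, ∃ y ∈ (E.get l).2.2, pIdx c n x y = i := by
  induction E with
  | nil =>
    change Nat.testBit 0 i = true at h
    rw [Nat.zero_testBit] at h
    exact absurd h (by simp)
  | cons e E ih =>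
    have h0 : eMask c n (e :: E) = pairMask (pIdx c n) e.2.2 e.2.2 ||| eMask c n E := rfl
    rw [h0, Nat.testBit_or, Bool.or_eq_true] at h
    rcases h with h | h
    · obtain ⟨x, hx, y, hy, e'⟩ := pairMask_testBit _ _ _ _ h
      exact ⟨⟨0, Nat.succ_pos _⟩, x, hx, y, hy, e'⟩
    · obtain ⟨l, h⟩ := ih h
      exact ⟨l.succ, h⟩

lemma xMask_testBit (c : ℕ) (E : List Entry) (i : ℕ) (h : (xMask c E).testBit i = true) :
    ∃ l : Fin E.length, ∃ x ∈ (E.get l).2.2,
      Nat.add (Nat.mul (E.get l).2.1 c) (Nat.mod (cpy x) c) = i := by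
  induction E with
  | nil =>
    change Nat.testBit 0 i = true at h
    rw [Nat.zero_testBit] at h
    exact absurd h (by simp)
  | cons e E ih =>
    have h0 : xMask c (e :: E) = (rowMask (fun x => Nat.add (Nat.mul e.2.1 c)
      (Nat.mod (cpy x) c)) e.2.2) ||| xMask c E := rfl
    rw [h0, Nat.testBit_or, Bool.or_eq_true] at h
    rcases h with h | h
    · obtain ⟨x, hx, e'⟩ := rowMask_testBit _ _ _ h
      exact ⟨⟨0, Nat.succ_pos _⟩, x, hx, e'⟩
    · obtain ⟨l, h⟩ := ih h
      exact ⟨l.succ, h⟩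

lemma eCheck_spec (c n f k : ℕ) (E : List Entry) (h : eCheck c n f k E = true) :
    ∀ l : Fin E.length, 1 ≤ (E.get l).1 ∧
      (E.get l).2.2.length + (if (E.get l).2.1 = 0 then 0 else 1) ≤ k ∧
      rowMask (sIdx c n (E.get l).1) (E.get l).2.2 = rowMask (sIdx c n 0) (E.get l).2.2 := by
  induction E with
  | nil => intro l; exact l.elim0
  | cons e E ih =>
    have h0 : eCheck c n f k (e :: E) = and (and (Nat.ble 1 e.1) (and (Nat.ble e.2.1 f)
      (and (Nat.ble (Nat.add (llen e.2.2) (Nat.rec 0 (fun _ _ => 1) e.2.1)) k)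
      (Nat.beq (rowMask (sIdx c n e.1) e.2.2) (rowMask (sIdx c n 0) e.2.2)))))
      (eCheck c n f k E) := rfl
    rw [h0, Bool.and_eq_true, Bool.and_eq_true, Bool.and_eq_true, Bool.and_eq_true] at h
    obtain ⟨⟨h1, _, h3, h4⟩, h5⟩ := h
    intro l
    refine Fin.cases ?_ (fun l => ih h5 l) l
    refine ⟨Nat.le_of_ble_eq_true h1, ?_, Nat.eq_of_beq_eq_true h4⟩
    have h6 := Nat.le_of_ble_eq_true h3
    rw [llen_eq] at h6
    refine le_trans ?_ h6
    change e.2.2.length + (if e.2.1 = 0 then 0 else 1) ≤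
      e.2.2.length + (Nat.rec 0 (fun _ _ => 1) e.2.1 : ℕ)
    apply Nat.add_le_add_left
    split_ifs with h7
    · exact Nat.zero_le _
    · obtain ⟨m, hm⟩ := Nat.exists_eq_succ_of_ne_zero h7
      rw [hm]

lemma val_mod {n x : ℕ} (hn : 0 < n) : (((x : ℕ) : ZMod n)).val = x % n := by
  rw [ZMod.val_natCast]

lemma pIdx_eq {c n : ℕ} (hc : 0 < c) (hn : 0 < n) (x y : ℕ) :
    pIdx c n x y = ((dpt c n x).1.val * c + (dpt c n y).1.val) * n +
      ((dpt c n y).2 - (dpt c n x).2).val := by
  have h1 : sb n (res y) (res x) = (((res y : ℕ) : ZMod n) - ((res x : ℕ) : ZMod n)).val := by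
    rw [← sb_cast n _ _ hn, val_cast_of_lt (sb_lt n _ _ hn)]
  unfold pIdx dpt
  rw [h1]
  simp only [ZMod.val_natCast]
  rfl

lemma lt_of_parts {c n a b d : ℕ} (ha : a < c) (hb : b < c) (hd : d < n) :
    (a * c + b) * n + d < c * c * n := by
  have h1 : a * c + b < c * c := by
    calc a * c + b < a * c + c := by omega
      _ = (a + 1) * c := by ring
      _ ≤ c * c := Nat.mul_le_mul_right _ ha
  calc (a * c + b) * n + d < (a * c + b) * n + n := by omega
    _ = (a * c + b + 1) * n := by ring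
    _ ≤ c * c * n := Nat.mul_le_mul_right _ h1

lemma parts_inj {n a b d e : ℕ} (hd : d < n) (he : e < n) (h : a * n + d = b * n + e) :
    a = b ∧ d = e := by
  have h1 := mixed_inj (p := a) (q := b) hd he (by linarith)
  exact ⟨h1.2, h1.1⟩

lemma shift_closed {c n t : ℕ} (hn : 0 < n) (A : List ℕ)
    (h : rowMask (sIdx c n t) A = rowMask (sIdx c n 0) A) (x : ℕ) (hx : x ∈ A) :
    ∃ y ∈ A, (dpt c n y).1 = (dpt c n x).1 ∧ (dpt c n y).2 = (dpt c n x).2 + (t : ZMod n) := by
  have h1 := rowMask_mem (sIdx c n t) A x hx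
  rw [h] at h1
  obtain ⟨y, hy, e⟩ := rowMask_testBit _ _ _ h1
  refine ⟨y, hy, ?_⟩
  have e' : (cpy y % c) * n + (res y + 0) % n = (cpy x % c) * n + (res x + t) % n := e
  obtain ⟨e1, e2⟩ := parts_inj (Nat.mod_lt _ hn) (Nat.mod_lt _ hn) e'
  unfold dpt
  constructor
  · change ((cpy y : ℕ) : ZMod c) = ((cpy x : ℕ) : ZMod c)
    rw [← ZMod.natCast_mod (cpy y), ← ZMod.natCast_mod (cpy x), e1]
  · change ((res y : ℕ) : ZMod n) = ((res x : ℕ) : ZMod n) + (t : ZMod n)
    have e3 : ((res y + 0 : ℕ) : ZMod n) = ((res x + t : ℕ) : ZMod n) := by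
      rw [← ZMod.natCast_mod (res y + 0), ← ZMod.natCast_mod (res x + t), e2]
    push_cast at e3
    rwa [add_zero] at e3

lemma shift_closed' {c n t : ℕ} (hn : 0 < n) (A : List ℕ)
    (h : rowMask (sIdx c n t) A = rowMask (sIdx c n 0) A) (m : ℕ) : ∀ x ∈ A,
    ∃ y ∈ A, (dpt c n y).1 = (dpt c n x).1 ∧
      (dpt c n y).2 = (dpt c n x).2 + ((t * m : ℕ) : ZMod n) := by
  induction m with
  | zero =>
    intro x hx
    exact ⟨x, hx, rfl, by simp⟩
  | succ m ih =>
    intro x hx
    obtain ⟨y, hy, h1, h2⟩ := ih x hx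
    obtain ⟨z, hz, h3, h4⟩ := shift_closed hn A h y hy
    refine ⟨z, hz, h3.trans h1, ?_⟩
    rw [h4, h2]
    push_cast
    ring

/-- reduction of the translate modulo `t` -/
lemma mem_blk_reduce {c n f : ℕ} (hn : 0 < n) (e : Entry)
    (h : rowMask (sIdx c n e.1) e.2.2 = rowMask (sIdx c n 0) e.2.2) (s : ZMod n) (x : ℕ)
    (hx : x ∈ e.2.2) (p : ZMod c × ZMod n) (h1 : (dpt c n x).1 = p.1)
    (h2 : (dpt c n x).2 + s = p.2) :
    (Sum.inl p : MP c n f) ∈ blk c n f e (s.val % e.1) := by
  have : NeZero n := ⟨hn.ne'⟩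
  rw [mem_blk_inl]
  obtain ⟨y, hy, h3, h4⟩ := shift_closed' hn e.2.2 h (s.val / e.1) x hx
  refine ⟨y, hy, h3.trans h1, ?_⟩
  rw [h4, ← h2, add_assoc, ← Nat.cast_add, Nat.div_add_mod, ZMod.natCast_zmod_val]

/-- Steiner systems from base blocks over `Z_n` on `c` copies of `Z_n` and `f` extra points; every
base block has at most one extra point, and the pairs of extra points are covered by a Steiner
system on the extra points (when there are at least two of them). -/
theorem multi (n c f k h v : ℕ) (hn : 0 < n) (hc : 0 < c) (hk : 2 ≤ k) (hv : c * n + f = v)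
    (E : List Entry)
    (hcnt : (E.map (fun e => e.1)).sum * (k * (k - 1)) + h * (f * (f - 1)) = v * (v - 1))
    (hh : (h = 1 ∧ 2 ≤ f ∧ SteinerSystemExists f k 2) ∨ (h = 0 ∧ f ≤ 1))
    (hchk : multiCheck c n f k E = true) : SteinerSystemExists v k 2 := by
  classical
  have : NeZero n := ⟨hn.ne'⟩
  have : NeZero c := ⟨hc.ne'⟩
  unfold multiCheck at hchk
  rw [Bool.and_eq_true, Bool.and_eq_true] at hchk
  obtain ⟨g1, g2, g3⟩ := hchk
  have g1' := eCheck_spec c n f k E g1
  have g2' := Nat.eq_of_beq_eq_true g2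
  have g3' := Nat.eq_of_beq_eq_true g3
  have hcard : Fintype.card (MP c n f) = v := by
    rw [Fintype.card_sum, Fintype.card_prod, ZMod.card, ZMod.card, Fintype.card_fin, hv]
  refine steiner_of_gdd_one hcard ?_
  refine GDD_of_pbd (I := (Σ l : Fin E.length, Fin (E.get l).1) ⊕ Fin h)
    (Sum.elim (fun p => blk c n f (E.get p.1) p.2.val)
      (fun _ => (univ : Finset (Fin f)).map Function.Embedding.inr))
    (Sum.elim (fun _ => k) (fun _ => f)) ?_ ?_ ?_ ?_ ?_
  · rintro (p | l)
    · exact hk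
    · rcases hh with ⟨_, h2, _⟩ | ⟨h0, _⟩
      · exact h2
      · subst h0; exact l.elim0
  · rintro (p | l)
    · exact (blk_card _ _ _ _ _).trans (g1' p.1).2.1
    · change (((univ : Finset (Fin f)).map Function.Embedding.inr).card) ≤ f
      rw [card_map, card_univ, Fintype.card_fin]
  · rw [Fintype.sum_sum_type]
    simp only [Sum.elim_inl, Sum.elim_inr, sum_const, card_univ, Fintype.card_sigma,
      Fintype.card_fin, smul_eq_mul, hcard]
    rw [← hcnt]
    congr 2
    rw [← List.sum_ofFn]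
    congr 1
    apply List.ext_get
    · simp
    · intro i h1 h2
      simp
  · have pure : ∀ p q : ZMod c × ZMod n, p ≠ q → ∃ l : Fin E.length, ∃ s : Fin (E.get l).1,
        (Sum.inl p : MP c n f) ∈ blk c n f (E.get l) s.val ∧
        (Sum.inl q : MP c n f) ∈ blk c n f (E.get l) s.val := by
      intro p q _
      have h5 : (eMask c n E).testBit ((p.1.val * c + q.1.val) * n + (q.2 - p.2).val) = true := by
        rw [g2']
        change (2 ^ (c * c * n) - 1).testBit _ = true
        rw [Nat.testBit_two_pow_sub_one]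
        exact decide_eq_true (lt_of_parts (ZMod.val_lt _) (ZMod.val_lt _) (ZMod.val_lt _))
      obtain ⟨l, x, hx, y, hy, hxy⟩ := eMask_testBit _ _ _ _ h5
      rw [pIdx_eq hc hn] at hxy
      obtain ⟨e1, e2⟩ := parts_inj (ZMod.val_lt _) (ZMod.val_lt _) hxy
      obtain ⟨e3, e4⟩ := parts_inj (ZMod.val_lt _) (ZMod.val_lt _) e1
      have e2' := ZMod.val_injective _ e2
      have e3' := ZMod.val_injective _ e3
      have e4' := ZMod.val_injective _ e4
      obtain ⟨t1, _, t3⟩ := g1' l
      refine ⟨l, ⟨(p.2 - (dpt c n x).2).val % (E.get l).1, Nat.mod_lt _ t1⟩, ?_, ?_⟩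
      · exact mem_blk_reduce hn _ t3 _ x hx p e3' (by ring)
      · refine mem_blk_reduce hn _ t3 _ y hy q e4' ?_
        have : (dpt c n y).2 = q.2 - p.2 + (dpt c n x).2 := by rw [← e2']; ring
        rw [this]; ring
    have mixed : ∀ (p : ZMod c × ZMod n) (z : Fin f), ∃ l : Fin E.length,
        ∃ s : Fin (E.get l).1,
        (Sum.inl p : MP c n f) ∈ blk c n f (E.get l) s.val ∧
        (Sum.inr z : MP c n f) ∈ blk c n f (E.get l) s.val := by
      intro p z
      have h5 : (xMask c E >>> c).testBit (z.val * c + p.1.val) = true := by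
        change (Nat.shiftRight (xMask c E) c).testBit _ = true
        rw [g3']
        change (2 ^ (f * c) - 1).testBit _ = true
        rw [Nat.testBit_two_pow_sub_one]
        refine decide_eq_true ?_
        have h1 := ZMod.val_lt p.1
        calc z.val * c + p.1.val < z.val * c + c := by omega
          _ = (z.val + 1) * c := by ring
          _ ≤ f * c := Nat.mul_le_mul_right _ z.2
      rw [Nat.testBit_shiftRight] at h5
      obtain ⟨l, x, hx, hxy⟩ := xMask_testBit _ _ _ h5
      have hxy' : (E.get l).2.1 * c + (cpy x % c) = (z.val + 1) * c + p.1.val := by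
        change (E.get l).2.1 * c + (cpy x % c) = c + (z.val * c + p.1.val) at hxy
        rw [hxy]; ring
      obtain ⟨e1, e2⟩ := parts_inj (Nat.mod_lt _ hc) (ZMod.val_lt _) hxy'
      have e3 : (dpt c n x).1 = p.1 := by
        apply ZMod.val_injective
        rw [← e2]
        unfold dpt
        rw [ZMod.val_natCast]
      obtain ⟨t1, _, t3⟩ := g1' l
      refine ⟨l, ⟨(p.2 - (dpt c n x).2).val % (E.get l).1, Nat.mod_lt _ t1⟩, ?_, ?_⟩
      · exact mem_blk_reduce hn _ t3 _ x hx p e3 (by ring)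
      · rw [mem_blk_inr, e1]
    rintro (p | z) (q | z') hne
    · obtain ⟨l, s, h1, h2⟩ := pure p q (fun e => hne (congrArg _ e))
      exact ⟨Sum.inl ⟨l, s⟩, h1, h2⟩
    · obtain ⟨l, s, h1, h2⟩ := mixed p z'
      exact ⟨Sum.inl ⟨l, s⟩, h1, h2⟩
    · obtain ⟨l, s, h1, h2⟩ := mixed q z
      exact ⟨Sum.inl ⟨l, s⟩, h2, h1⟩
    · have hz : z ≠ z' := fun e => hne (congrArg _ e)
      rcases hh with ⟨h1, _, _⟩ | ⟨_, h0⟩
      · subst h1
        exact ⟨Sum.inr 0, mem_map.2 ⟨z, mem_univ _, rfl⟩, mem_map.2 ⟨z', mem_univ _, rfl⟩⟩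
      · exact absurd (Fin.ext (by omega)) hz
  · rintro (p | l)
    · exact gdd_one_self
    · rcases hh with ⟨_, _, h3⟩ | ⟨h0, _⟩
      · exact gdd_one_of_steiner h3
      · subst h0; exact l.elim0

end Pool.Agent.H28.Steiner
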