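import Mathlib
import Pool.Agent.H28.Steiner.DF
import Pool.Agent.H28.Steiner.Rec

set_option autoImplicit false

namespace Pool.Agent.H28.Steiner

open Finset

/-- PBD closure in counting form: sets of sizes at most `s i` which cover all pairs of points, with
the right total count, give a group divisible design. -/
theorem R_of_pbd {w : ℕ} {X I : Type} [Fintype X] [DecidableEq X] [Fintype I]
    (A : I → Finset X) (s : I → ℕ) (hs : ∀ i, 2 ≤ s i) (hcard : ∀ i, (A i).card ≤ s i)
    (hsum : ∑ i, s i * (s i - 1) = Fintype.card X * (Fintype.card X - 1))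
    (hcov : ∀ x y : X, x ≠ y → ∃ i, x ∈ A i ∧ y ∈ A i) (hR : ∀ i, R w (s i)) :
    R w (Fintype.card X) := by
  classical
  obtain ⟨N, hN⟩ : ∃ N : X × X → ℕ, ∀ p, N p =
      ∑ i : I, if p ∈ (A i).offDiag then 1 else 0 := ⟨_, fun _ => rfl⟩
  have hN1 : ∀ p ∈ (univ : Finset X).offDiag, 1 ≤ N p := by
    intro p hp
    rw [mem_offDiag] at hp
    obtain ⟨i, h1, h2⟩ := hcov p.1 p.2 hp.2.2
    rw [hN]
    refine le_trans ?_ (single_le_sum (f := fun i : I =>
      if p ∈ (A i).offDiag then 1 else 0) (fun _ _ => Nat.zero_le _) (mem_univ i))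
    rw [if_pos]
    rw [mem_offDiag]
    exact ⟨h1, h2, hp.2.2⟩
  have hsum' : ∑ p ∈ (univ : Finset X).offDiag, N p = ∑ i : I, (A i).offDiag.card := by
    simp only [hN]
    rw [sum_comm]
    apply sum_congr rfl
    intro i _
    rw [← sum_filter, sum_const, smul_eq_mul, mul_one]
    congr 1
    ext p
    simp only [mem_filter, mem_offDiag, mem_univ, true_and]
    exact ⟨fun h => h.2, fun h => ⟨h.2.2, h⟩⟩
  have hoff : ∀ i : I, (A i).offDiag.card ≤ s i * (s i - 1) := by
    intro i
    rw [offDiag_card]
    calc (A i).card * (A i).card - (A i).card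
        = (A i).card * ((A i).card - 1) := by rw [Nat.mul_sub, mul_one]
      _ ≤ s i * (s i - 1) := Nat.mul_le_mul (hcard i) (Nat.sub_le_sub_right (hcard i) 1)
  have hpairs : (univ : Finset X).offDiag.card = Fintype.card X * (Fintype.card X - 1) := by
    rw [offDiag_card, card_univ, Nat.mul_sub, mul_one]
  have hge : Fintype.card X * (Fintype.card X - 1) ≤ ∑ p ∈ (univ : Finset X).offDiag, N p := by
    rw [← hpairs, card_eq_sum_ones]
    exact sum_le_sum hN1
  have hle : ∑ i : I, (A i).offDiag.card ≤ Fintype.card X * (Fintype.card X - 1) := by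
    rw [← hsum]
    exact sum_le_sum (fun i _ => hoff i)
  have hNeq : ∀ p ∈ (univ : Finset X).offDiag, N p = 1 := by
    have h1 : ∑ p ∈ (univ : Finset X).offDiag, 1 =
        ∑ p ∈ (univ : Finset X).offDiag, N p := by
      rw [← card_eq_sum_ones, hpairs]
      omega
    intro p hp
    exact ((sum_eq_sum_iff_of_le hN1).1 h1 p hp).symm
  have hoffeq : ∀ i : I, (A i).offDiag.card = s i * (s i - 1) := by
    have h1 : ∑ i : I, (A i).offDiag.card = ∑ i : I, s i * (s i - 1) := by omega
    intro i
    exact (sum_eq_sum_iff_of_le (fun i _ => hoff i)).1 h1 i (mem_univ i)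
  have hceq : ∀ i : I, (A i).card = s i := by
    intro i
    have h1 := hoffeq i
    rw [offDiag_card] at h1
    have h2 : (A i).card * ((A i).card - 1) = s i * (s i - 1) := by
      rw [Nat.mul_sub, mul_one]; exact h1
    by_contra hne
    have h4 : (A i).card < s i := lt_of_le_of_ne (hcard i) hne
    have h5 : (A i).card * ((A i).card - 1) < s i * (s i - 1) := by
      have h6 := hs i
      calc (A i).card * ((A i).card - 1) ≤ (A i).card * (s i - 1) :=
            Nat.mul_le_mul_left _ (by omega)
        _ < s i * (s i - 1) := Nat.mul_lt_mul_of_pos_right h4 (by omega)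
    omega
  have key : GDD (w + 1) w X := by
    refine GDD.closure (I := I) (fun i => (A i : Set X)) ?_ ?_
    · intro x y hxy
      obtain ⟨i, h1, h2⟩ := hcov x y hxy
      refine ⟨i, ⟨h1, h2⟩, ?_⟩
      rintro j ⟨h3, h4⟩
      by_contra hij
      have h5 := hNeq (x, y) (mem_offDiag.2 ⟨mem_univ _, mem_univ _, hxy⟩)
      rw [hN] at h5
      have h6 : ∑ l ∈ ({i, j} : Finset I), (if (x, y) ∈ (A l).offDiag then 1 else 0) ≤ 1 := by
        exact (sum_le_sum_of_subset (f := fun l : I => if (x, y) ∈ (A l).offDiag then 1 else 0)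
          (subset_univ ({i, j} : Finset I))).trans h5.le
      rw [sum_pair (fun e => hij e.symm), if_pos (mem_offDiag.2 ⟨h1, h2, hxy⟩),
        if_pos (mem_offDiag.2 ⟨h3, h4, hxy⟩)] at h6
      omega
    · intro i
      apply GDD.of_card
      have : Nat.card ((A i : Finset X) : Set X) = s i := by
        rw [Nat.card_coe_set_eq, Set.ncard_coe_finset, hceq]
      rw [this]
      exact hR i
  exact GDD.congr (Fintype.equivFin X) key

/-- the part of the check that concerns differences and the subgroup `D` -/
noncomputable def pbdCheck (a b c d : ℕ) (base : List (List ℕ)) (D : List ℕ) : Bool :=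
  and (Nat.beq (Nat.lor (allMask (subIdx a b c d) base) (rowMask (fun x => subIdx a b c d x 0) D))
        (Nat.sub (Nat.pow 2 (Nat.mul a (Nat.mul b (Nat.mul c d)))) 1))
      (Nat.beq (Nat.lor (pairMask (subIdx a b c d) D D) (rowMask (fun x => subIdx a b c d x 0) D))
        (rowMask (fun x => subIdx a b c d x 0) D))

lemma pbd_spec {a b c d : ℕ} (ha : 0 < a) (hb : 0 < b) (hc : 0 < c) (hd : 0 < d)
    (base : List (List ℕ)) (D : List ℕ) (h : pbdCheck a b c d base D = true) :
    (∀ g : G4 a b c d, g ∈ decS a b c d D ∨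
      ∃ B ∈ base, ∃ x ∈ decS a b c d B, ∃ y ∈ decS a b c d B, x - y = g) ∧
    (∀ x ∈ decS a b c d D, ∀ y ∈ decS a b c d D, x - y ∈ decS a b c d D) := by
  unfold pbdCheck at h
  rw [Bool.and_eq_true] at h
  obtain ⟨h3, h4⟩ := h
  have h3' := Nat.eq_of_beq_eq_true h3
  have h4' := Nat.eq_of_beq_eq_true h4
  have hD : ∀ g : G4 a b c d,
      (rowMask (fun x => subIdx a b c d x 0) D).testBit (gIdx g) = true →
      g ∈ decS a b c d D := by
    intro g hg
    obtain ⟨x, hx, e⟩ := rowMask_testBit _ _ _ hg
    rw [subIdx_eq ha hb hc hd, dec_zero, sub_zero] at e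
    exact mem_decS.2 ⟨x, hx, gIdx_inj ha hb hc hd e⟩
  refine ⟨?_, ?_⟩
  · intro g
    have h5 : (Nat.lor (allMask (subIdx a b c d) base)
        (rowMask (fun x => subIdx a b c d x 0) D)).testBit (gIdx g) = true := by
      rw [h3']
      change (2 ^ (a * (b * (c * d))) - 1).testBit (gIdx g) = true
      rw [Nat.testBit_two_pow_sub_one]
      exact decide_eq_true (gIdx_lt ha hb hc hd g)
    change (allMask (subIdx a b c d) base ||| (rowMask (fun x => subIdx a b c d x 0) D)).testBit _
      = true at h5
    rw [Nat.testBit_or, Bool.or_eq_true] at h5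
    rcases h5 with h5 | h5
    · right
      obtain ⟨A, hA, x, hx, y, hy, e⟩ := allMask_testBit _ _ _ h5
      rw [subIdx_eq ha hb hc hd] at e
      exact ⟨A, hA, _, mem_decS.2 ⟨x, hx, rfl⟩, _,
        mem_decS.2 ⟨y, hy, rfl⟩, gIdx_inj ha hb hc hd e⟩
    · left; exact hD g h5
  · intro gx hgx gy hgy
    obtain ⟨x, hx, rfl⟩ := mem_decS.1 hgx
    obtain ⟨y, hy, rfl⟩ := mem_decS.1 hgy
    apply hD
    rw [← h4', ← subIdx_eq ha hb hc hd]
    change (pairMask (subIdx a b c d) D D ||| (rowMask (fun x => subIdx a b c d x 0) D)).testBit _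
      = true
    rw [Nat.testBit_or, Bool.or_eq_true]
    left
    have mono : ∀ (A : List ℕ) (x : ℕ), x ∈ A → ∀ B : List ℕ, ∀ y ∈ B,
        (pairMask (subIdx a b c d) A B).testBit (subIdx a b c d x y) = true := by
      intro A x hx B y hy
      induction A with
      | nil => exact absurd hx (by simp)
      | cons z A ih =>
        have h0 : pairMask (subIdx a b c d) (z :: A) B =
          rowMask (subIdx a b c d z) B ||| pairMask (subIdx a b c d) A B := rfl
        rw [h0, Nat.testBit_or, Bool.or_eq_true]
        rcases List.mem_cons.1 hx with rfl | hx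
        · left
          clear h0 ih
          induction B with
          | nil => exact absurd hy (by simp)
          | cons w B ih =>
            have h0 : rowMask (subIdx a b c d x) (w :: B) =
              (1 <<< (subIdx a b c d x w)) ||| rowMask (subIdx a b c d x) B := rfl
            rw [h0, Nat.testBit_or, Bool.or_eq_true]
            rcases List.mem_cons.1 hy with rfl | hy
            · left
              rw [Nat.one_shiftLeft, Nat.testBit_two_pow]
              exact decide_eq_true rfl
            · right; exact ih hy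
        · right; exact ih hx
    exact mono D x hx D y hy

/-- A difference family over `Z_a × Z_b × Z_c × Z_d` relative to a subgroup `D` (block sizes may
vary), with all block sizes and `|D|` in the class `R w`. -/
theorem R_of_df (a b c d n w : ℕ) (ha : 0 < a) (hb : 0 < b) (hc : 0 < c) (hd : 0 < d)
    (hn : a * (b * (c * d)) = n) (base : List (List ℕ)) (D T : List ℕ)
    (hlen : n * (base.map (fun B => B.length * (B.length - 1))).sum +
      T.length * (D.length * (D.length - 1)) = n * (n - 1))
    (hb2 : ∀ B ∈ base, 2 ≤ B.length ∧ R w B.length) (hD2 : 2 ≤ D.length) (hDR : R w D.length)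
    (h : pbdCheck a b c d base D = true) (h' : coverCheck a b c d D T = true) : R w n := by
  classical
  have : NeZero a := ⟨ha.ne'⟩
  have : NeZero b := ⟨hb.ne'⟩
  have : NeZero c := ⟨hc.ne'⟩
  have : NeZero d := ⟨hd.ne'⟩
  obtain ⟨h3, h4⟩ := pbd_spec ha hb hc hd base D h
  have h5 := cover_spec ha hb hc hd D T h'
  have hcG : Fintype.card (G4 a b c d) = n := (card_G4 a b c d).trans hn
  have key := R_of_pbd (w := w) (X := G4 a b c d) (I := (Fin base.length × G4 a b c d) ⊕ Fin T.length)
    (Sum.elim (fun p => tr (decS a b c d (base.get p.1)) p.2)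
      (fun l => tr (decS a b c d D) (dec a b c d (T.get l))))
    (Sum.elim (fun p => (base.get p.1).length) (fun _ => D.length)) ?_ ?_ ?_ ?_ ?_
  · rwa [hcG] at key
  · rintro (p | l)
    · exact (hb2 _ (List.get_mem _ _)).1
    · exact hD2
  · rintro (p | l)
    · exact card_image_le.trans (decS_card _ _ _ _ _)
    · exact card_image_le.trans (decS_card _ _ _ _ _)
  · rw [Fintype.sum_sum_type]
    simp only [Sum.elim_inl, Sum.elim_inr]
    rw [Fintype.sum_prod_type]
    simp only [sum_const, card_univ, Fintype.card_fin, smul_eq_mul, hcG]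
    rw [← mul_sum, ← hlen]
    congr 2
    rw [← List.sum_ofFn]
    congr 1
    apply List.ext_get
    · simp
    · intro i h1 h2
      simp
  · intro x y hxy
    rcases h3 (x - y) with hx | ⟨B, hB, u, hu, v, hv, huv⟩
    · obtain ⟨t, ht, h6⟩ := h5 x
      obtain ⟨t', ht', rfl⟩ := List.mem_map.1 ht
      obtain ⟨l, hl⟩ := List.get_of_mem ht'
      refine ⟨Sum.inr l, ?_, ?_⟩
      · change x ∈ tr _ _
        rw [mem_tr, hl]; exact h6
      · change y ∈ tr _ _
        rw [mem_tr, hl]
        have := h4 _ h6 _ hx
        have e : x + dec a b c d t' - (x - y) = y + dec a b c d t' := by abel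
        rwa [e] at this
    · obtain ⟨j, hj⟩ := List.get_of_mem hB
      refine ⟨Sum.inl (j, u - x), ?_, ?_⟩
      · change x ∈ tr _ _
        rw [mem_tr, hj]
        have e : x + (u - x) = u := by abel
        rwa [e]
      · change y ∈ tr _ _
        rw [mem_tr, hj]
        have e : y + (u - x) = v := by
          have h7 : u - x = v - y := by
            rw [sub_eq_sub_iff_sub_eq_sub]; exact huv
          rw [h7]; abel
        rwa [e]
  · rintro (p | l)
    · exact (hb2 _ (List.get_mem _ _)).2
    · exact hDR

end Pool.Agent.H28.Steiner
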