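import Mathlib
import Pool.Agent.H28.Steiner.Rec
import Pool.Agent.H28.Steiner.DM57
import Pool.Agent.H28.Steiner.I8V57
import Pool.Agent.H28.Steiner.I8V64
import Pool.Agent.H28.Steiner.I8V400
import Pool.Agent.H28.Steiner.K8V225

set_option autoImplicit false

namespace Pool.Agent.H28.Steiner.Rec8

theorem r8 : R 7 8 := R_of (by norm_num) rfl rfl I8V57.ex
theorem r9 : R 7 9 := R_of (by norm_num) rfl rfl I8V64.ex
theorem r32 : R 7 32 := R_of (by norm_num) rfl rfl K8V225.ex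
theorem r57 : R 7 57 := R_of (by norm_num) rfl rfl I8V400.ex

theorem oa31 : OA 9 (Fin 31) := OA_prime (by norm_num) (by norm_num)

/-- `256 = 8 * 31 + 7 + 1` -/
theorem v1793 : SteinerSystemExists 1793 8 2 :=
  of_R (w := 7) (u := 256) rfl rfl
    (R_inf' (m := 31) (t := 7) oa31 (by norm_num) r8 r9 r32 r8 rfl)

/-- `280 = 8 * 31 + 31 + 1` -/
theorem v1961 : SteinerSystemExists 1961 8 2 :=
  of_R (w := 7) (u := 280) rfl rfl
    (R_inf' (m := 31) (t := 31) oa31 (by norm_num) r8 r9 r32 r32 rfl)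

/-- `488 = 8 * 57 + 32` -/
theorem v3417 : SteinerSystemExists 3417 8 2 :=
  of_R (w := 7) (u := 488) rfl rfl
    (R_plain' (m := 57) (t := 32) DM57.oa (by norm_num) r8 r9 r57 r32 rfl)

end Pool.Agent.H28.Steiner.Rec8
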