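import Mathlib
import Pool.Agent.H28.Steiner.Rec
import Pool.Agent.H28.Steiner.DM80
import Pool.Agent.H28.Steiner.I9V73
import Pool.Agent.H28.Steiner.I9V81
import Pool.Agent.H28.Steiner.I9V513
import Pool.Agent.H28.Steiner.I9V577
import Pool.Agent.H28.Steiner.I9V801
import Pool.Agent.H28.Steiner.I9V937
import Pool.Agent.H28.Steiner.I9V1369
import Pool.Agent.H28.Steiner.I9V1657
import Pool.Agent.H28.Steiner.K9V289
import Pool.Agent.H28.Steiner.K9V873
import Pool.Agent.H28.Steiner.K9V1449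
import Pool.Agent.H28.Steiner.K9V1593

set_option autoImplicit false

namespace Pool.Agent.H28.Steiner.Rec9

/-! `R 8 u`: there is a Steiner system `S(8u+1, 9, 2)` -/

theorem r9 : R 8 9 := R_of (by norm_num) rfl rfl I9V73.ex
theorem r10 : R 8 10 := R_of (by norm_num) rfl rfl I9V81.ex
theorem r36 : R 8 36 := R_of (by norm_num) rfl rfl K9V289.ex
theorem r64 : R 8 64 := R_of (by norm_num) rfl rfl I9V513.ex
theorem r72 : R 8 72 := R_of (by norm_num) rfl rfl I9V577.ex
theorem r100 : R 8 100 := R_of (by norm_num) rfl rfl I9V801.ex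
theorem r109 : R 8 109 := R_of (by norm_num) rfl rfl K9V873.ex
theorem r117 : R 8 117 := R_of (by norm_num) rfl rfl I9V937.ex
theorem r171 : R 8 171 := R_of (by norm_num) rfl rfl I9V1369.ex
theorem r181 : R 8 181 := R_of (by norm_num) rfl rfl K9V1449.ex
theorem r199 : R 8 199 := R_of (by norm_num) rfl rfl K9V1593.ex
theorem r207 : R 8 207 := R_of (by norm_num) rfl rfl I9V1657.ex

theorem oa9 : OA 10 (Fin 9) :=
  OA_primePow (p := 3) (a := 2) (q := 9) Nat.prime_three (by norm_num) (by norm_num) (by norm_num)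
theorem oa23 : OA 10 (Fin 23) := OA_prime (by norm_num) (by norm_num)
theorem oa64 : OA 10 (Fin 64) :=
  OA_primePow (p := 2) (a := 6) Nat.prime_two (by norm_num) (by norm_num) (by norm_num)
theorem oa71 : OA 10 (Fin 71) := OA_prime (by norm_num) (by norm_num)
theorem oa171 : OA 10 (Fin 171) :=
  OA_mul oa9 (OA_prime (p := 19) (by norm_num) (by norm_num)) (by norm_num)
theorem oa181 : OA 10 (Fin 181) := OA_prime (by norm_num) (by norm_num)
theorem oa199 : OA 10 (Fin 199) := OA_prime (by norm_num) (by norm_num)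
theorem oa207 : OA 10 (Fin 207) := OA_mul oa9 oa23 (by norm_num)

/-- `81 = 9 * 9` -/
theorem r81 : R 8 81 := R_plain' (m := 9) (t := 0) oa9 (by norm_num) r9 r10 r9 (R_zero 8) rfl

/-- `90 = 9 * 9 + 9` -/
theorem r90 : R 8 90 := R_plain' (m := 9) (t := 9) oa9 (by norm_num) r9 r10 r9 r9 rfl

/-- `91 = 9 * 9 + 9 + 1` -/
theorem r91 : R 8 91 := R_inf' (m := 9) (t := 9) oa9 (by norm_num) r9 r10 r10 r10 rfl

/-- `612 = 9 * 64 + 36` -/
theorem v4897 : SteinerSystemExists 4897 9 2 :=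
  of_R (w := 8) (u := 612) rfl rfl
    (R_plain' (m := 64) (t := 36) oa64 (by norm_num) r9 r10 r64 r36 rfl)

/-- `675 = 9 * 71 + 35 + 1` -/
theorem v5401 : SteinerSystemExists 5401 9 2 :=
  of_R (w := 8) (u := 675) rfl rfl
    (R_inf' (m := 71) (t := 35) oa71 (by norm_num) r9 r10 r72 r36 rfl)

/-- `756 = 9 * 80 + 35 + 1` -/
theorem v6049 : SteinerSystemExists 6049 9 2 :=
  of_R (w := 8) (u := 756) rfl rfl
    (R_inf' (m := 80) (t := 35) DM80.oa (by norm_num) r9 r10 r81 r36 rfl)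

/-- `1648 = 9 * 171 + 109` -/
theorem v13185 : SteinerSystemExists 13185 9 2 :=
  of_R (w := 8) (u := 1648) rfl rfl
    (R_plain' (m := 171) (t := 109) oa171 (by norm_num) r9 r10 r171 r109 rfl)

/-- `1719 = 9 * 181 + 90` -/
theorem v13753 : SteinerSystemExists 13753 9 2 :=
  of_R (w := 8) (u := 1719) rfl rfl
    (R_plain' (m := 181) (t := 90) oa181 (by norm_num) r9 r10 r181 r90 rfl)

/-- `1729 = 9 * 181 + 100` -/
theorem v13833 : SteinerSystemExists 13833 9 2 :=
  of_R (w := 8) (u := 1729) rfl rfl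
    (R_plain' (m := 181) (t := 100) oa181 (by norm_num) r9 r10 r181 r100 rfl)

/-- `1746 = 9 * 181 + 117` -/
theorem v13969 : SteinerSystemExists 13969 9 2 :=
  of_R (w := 8) (u := 1746) rfl rfl
    (R_plain' (m := 181) (t := 117) oa181 (by norm_num) r9 r10 r181 r117 rfl)

/-- `1881 = 9 * 199 + 90` -/
theorem v15049 : SteinerSystemExists 15049 9 2 :=
  of_R (w := 8) (u := 1881) rfl rfl
    (R_plain' (m := 199) (t := 90) oa199 (by norm_num) r9 r10 r199 r90 rfl)

/-- `1882 = 9 * 199 + 91` -/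
theorem v15057 : SteinerSystemExists 15057 9 2 :=
  of_R (w := 8) (u := 1882) rfl rfl
    (R_plain' (m := 199) (t := 91) oa199 (by norm_num) r9 r10 r199 r91 rfl)

/-- `2062 = 9 * 207 + 199` -/
theorem v16497 : SteinerSystemExists 16497 9 2 :=
  of_R (w := 8) (u := 2062) rfl rfl
    (R_plain' (m := 207) (t := 199) oa207 (by norm_num) r9 r10 r207 r199 rfl)

end Pool.Agent.H28.Steiner.Rec9
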