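import Mathlib
import Pool.Agent.H28.Steiner.Rec9
import Pool.Agent.H28.Steiner.K9V1017

set_option autoImplicit false

namespace Pool.Agent.H28.Steiner.Rec9b

open Pool.Agent.H28.Steiner.Rec9

theorem r127 : R 8 127 := R_of (by norm_num) rfl rfl K9V1017.ex

theorem oa127 : OA 10 (Fin 127) := OA_prime (by norm_num) (by norm_num)

/-- `1252 = 9 * 127 + 109` -/
theorem v10017 : SteinerSystemExists 10017 9 2 :=
  of_R (w := 8) (u := 1252) rfl rfl
    (R_plain' (m := 127) (t := 109) oa127 (by norm_num) r9 r10 r127 r109 rfl)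

end Pool.Agent.H28.Steiner.Rec9b
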