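import Pool.Agent.SteinerMC.Basic

set_option autoImplicit false

namespace Pool.Agent.H28.Steiner.V261

open Pool.Agent.SteinerMC

set_option maxRecDepth 100000 in
/-- base blocks -/
def base : List (List ℕ) :=
  [[0, 1, 96, 108, 218, 247],
   [0, 2, 67, 80, 209, 228],
   [0, 3, 44, 46, 132, 161],
   [0, 4, 147, 183, 198, 205],
   [0, 5, 104, 133, 151, 173],
   [0, 6, 32, 90, 190, 193],
   [0, 7, 124, 144, 249, 251],
   [0, 8, 33, 101, 110, 120],
   [0, 9, 59, 66, 221, 223],
   [0, 10, 31, 37, 63, 237],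
   [0, 11, 186, 202, 204, 213],
   [0, 12, 64, 180, 252, 253],
   [0, 13, 136, 138, 248, 258],
   [0, 14, 36, 150, 154, 210],
   [0, 29, 71, 74, 88, 115],
   [0, 30, 73, 92, 142, 201],
   [0, 34, 53, 206, 229, 232],
   [0, 35, 68, 106, 157, 239],
   [0, 38, 89, 135, 170, 200],
   [0, 39, 76, 131, 159, 220],
   [0, 40, 47, 70, 75, 145],
   [0, 42, 105, 182, 219, 236],
   [0, 45, 98, 195, 216, 257],
   [0, 48, 69, 130, 160, 215],
   [0, 49, 114, 126, 149, 177],
   [0, 52, 77, 97, 162, 254],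
   [0, 57, 72, 111, 119, 176],
   [0, 58, 152, 167, 243, 250],
   [0, 60, 163, 181, 211, 259],
   [0, 61, 91, 134, 153, 233],
   [0, 62, 83, 87, 155, 164],
   [0, 84, 112, 127, 166, 260],
   [0, 85, 156, 196, 224, 234],
   [0, 94, 109, 116, 185, 192],
   [0, 100, 118, 178, 227, 255],
   [0, 103, 143, 199, 208, 238],
   [0, 121, 140, 148, 171, 174],
   [0, 122, 139, 188, 189, 203],
   [29, 30, 102, 183, 195, 218],
   [29, 32, 157, 165, 178, 202],
   [29, 33, 67, 82, 89, 176],
   [29, 34, 95, 113, 247, 251],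
   [29, 37, 104, 107, 248, 253],
   [29, 38, 77, 131, 139, 164],
   [29, 40, 148, 153, 192, 196],
   [29, 41, 136, 137, 180, 238],
   [29, 42, 204, 215, 249, 257],
   [29, 43, 65, 123, 221, 228],
   [29, 58, 98, 105, 128, 133],
   [29, 60, 85, 174, 239, 254],
   [29, 69, 129, 193, 212, 250],
   [29, 70, 93, 118, 167, 208],
   [29, 75, 110, 143, 152, 227],
   [29, 76, 132, 184, 223, 243],
   [29, 119, 142, 145, 216, 219],
   [29, 127, 169, 189, 222, 259],
   [29, 134, 150, 188, 213, 234],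
   [29, 159, 160, 209, 226, 232],
   [58, 59, 154, 166, 189, 218],
   [58, 60, 125, 138, 180, 199],
   [58, 64, 90, 148, 248, 251],
   [58, 67, 117, 124, 192, 194],
   [58, 68, 89, 95, 121, 208],
   [58, 69, 175, 184, 244, 260],
   [58, 70, 122, 223, 224, 238],
   [58, 87, 129, 132, 146, 173],
   [58, 92, 111, 177, 200, 203],
   [58, 100, 163, 190, 207, 240],
   [58, 103, 156, 187, 228, 253],
   [87, 88, 160, 189, 241, 253],
   [87, 91, 125, 140, 147, 234],
   [87, 92, 153, 171, 218, 222],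
   [87, 95, 162, 165, 219, 224],
   [87, 100, 175, 186, 220, 228],
   [87, 118, 143, 210, 225, 232],
   [116, 127, 215, 231, 233, 242],
   [116, 150, 169, 174, 235, 258],
   [145, 158, 191, 199, 233, 244]]

set_option maxRecDepth 100000 in
lemma chk : mcCheck 29 9 0 6 78 base = true := by decide +kernel

theorem ex : SteinerSystemExists 261 6 2 :=
  steiner_of_mc 29 9 0 6 78 (by norm_num) (by norm_num) (by norm_num)
    (holeOK_zero 6) base (by norm_num) chk

end Pool.Agent.H28.Steiner.V261
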