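import Mathlib
import Pool.Agent.H28.Steiner.PBD
import Pool.Agent.H28.Steiner.I6V31
import Pool.Agent.H28.Steiner.I6V76

set_option autoImplicit false

namespace Pool.Agent.H28.Steiner.V676

theorem r6 : R 5 6 := R_of (by norm_num) rfl rfl I6V31.ex
theorem r15 : R 5 15 := R_of (by norm_num) rfl rfl I6V76.ex

/-- base blocks over `Z_135`; the groups are the cosets of `9 Z_135` -/
def base : List (List ℕ) := [[0, 1, 25, 31, 38, 95], [0, 2, 22, 61, 84, 89],
  [0, 3, 11, 15, 32, 58], [0, 10, 44, 60, 79, 93]]

def D : List ℕ := [0, 9, 18, 27, 36, 45, 54, 63, 72, 81, 90, 99, 108, 117, 126]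

def T : List ℕ := [0, 1, 2, 3, 4, 5, 6, 7, 8]

theorem r135 : R 5 135 :=
  R_of_df 135 1 1 1 135 5 (by norm_num) (by norm_num) (by norm_num) (by norm_num) (by norm_num)
    base D T (by decide +kernel)
    (by
      intro B hB
      simp only [base, List.mem_cons, List.not_mem_nil, or_false] at hB
      rcases hB with rfl | rfl | rfl | rfl <;> exact ⟨by decide, r6⟩)
    (by decide) r15 (by decide +kernel) (by decide +kernel)

/-- There is a Steiner system with parameters 676, 6, 2 (recursion found by helper1). -/
theorem ex : SteinerSystemExists 676 6 2 := of_R (w := 5) (u := 135) rfl rfl r135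

end Pool.Agent.H28.Steiner.V676
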